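import Pool.Agent.LibCW70.Defs

set_option autoImplicit false

/-! # Board CW70: basic lemmas (complete) -/

namespace LibCW70

open Set Metric Topology Filter LibCE75
open scoped NNReal

section group

variable {G : Type} [Group G]

theorem mem_tr {g x : G} {A : Set G} : x ∈ tr g A ↔ g⁻¹ * x ∈ A := Iff.rfl

theorem tr_one (A : Set G) : tr 1 A = A := by
  ext x; simp [mem_tr]

theorem tr_tr (g h : G) (A : Set G) : tr g (tr h A) = tr (g * h) A := by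
  ext x; simp [mem_tr, mul_assoc]

theorem tr_inv_tr (g : G) (A : Set G) : tr g⁻¹ (tr g A) = A := by
  rw [tr_tr, inv_mul_cancel, tr_one]

theorem tr_tr_inv (g : G) (A : Set G) : tr g (tr g⁻¹ A) = A := by
  rw [tr_tr, mul_inv_cancel, tr_one]

theorem tr_injective (g : G) : Function.Injective (tr g) := by
  intro A B h
  rw [← tr_inv_tr g A, h, tr_inv_tr]

theorem mem_Fr {S A : Set G} {g : G} : g ∈ Fr S A ↔ ∃ s ∈ S, ¬ (g ∈ A ↔ g * s ∈ A) := Iff.rfl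

theorem mem_Fr_tr {S A : Set G} {g h : G} : h ∈ Fr S (tr g A) ↔ g⁻¹ * h ∈ Fr S A := by
  simp only [mem_Fr, mem_tr, mul_assoc]

theorem mem_Sep {𝓗 : Set (Set G)} {g : G} {A : Set G} :
    A ∈ Sep 𝓗 g ↔ A ∈ 𝓗 ∧ ¬ ((1 : G) ∈ A ↔ g ∈ A) := Iff.rfl

/-- The sets which separate `g` and `h` are the translates of those which separate `1` and
`g⁻¹ h`. -/
theorem sep_pair {S : Set G} {𝓗 : Set (Set G)} (hw : WallG S 𝓗) (g h : G) :
    {A | A ∈ 𝓗 ∧ ¬ (g ∈ A ↔ h ∈ A)} = tr g '' Sep 𝓗 (g⁻¹ * h) := by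
  ext A
  constructor
  · rintro ⟨hA, hn⟩
    refine ⟨tr g⁻¹ A, ⟨hw.inv _ _ hA, ?_⟩, tr_tr_inv g A⟩
    simpa [mem_tr] using hn
  · rintro ⟨B, ⟨hB, hn⟩, rfl⟩
    refine ⟨hw.inv _ _ hB, ?_⟩
    simpa [mem_tr] using hn

theorem sep_pair_finite {S : Set G} {𝓗 : Set (Set G)} (hw : WallG S 𝓗) (g h : G) :
    {A | A ∈ 𝓗 ∧ ¬ (g ∈ A ↔ h ∈ A)}.Finite := by
  rw [sep_pair hw]
  exact (hw.fin _).image _

theorem sep_pair_ncard {S : Set G} {𝓗 : Set (Set G)} (hw : WallG S 𝓗) (g h : G) :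
    {A | A ∈ 𝓗 ∧ ¬ (g ∈ A ↔ h ∈ A)}.ncard = (Sep 𝓗 (g⁻¹ * h)).ncard := by
  rw [sep_pair hw, ncard_image_of_injective _ (tr_injective g)]

end group

section action

variable {G X : Type} [Group G] [MetricSpace X] [MulAction G X]

theorem dist_smul_smul (hG : Geometric G X) (g h : G) (x : X) :
    dist (g • x) (h • x) = dist x ((g⁻¹ * h) • x) := by
  have := hG.isom g x ((g⁻¹ * h) • x)
  rw [smul_smul, mul_inv_cancel_left] at this
  exact this

end action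

end LibCW70
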