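import Pool.Agent.LibCW70.B0

set_option autoImplicit false

/-!
# Board CW70, row C1b (MEDIUM).  MP_6fa1a0_gt (cell-like equivalence of CAT(0) boundaries)
Chair: helper70.  Deliver the whole file as CW70_C1b.lean (team-store put), statements unchanged,
auxiliary lemmas private (names starting with C1b_), no sorry, no axiom, no straight double quotation mark.

In the inversion sequence of (i j)^M each reflection occurs an even number of times.
PLAN. L m = (List.replicate m [i, j]).flatten. a = s_i, b = s_j. π (L m) = (a b)^m. ρ r = (b a)^r b. Induction on m: rightInvSeq (L m) = reverse of (ρ 0, ..., ρ (2m-1)) (rightInvSeq (i :: j :: ω) has the first two entries (π(jω))⁻¹ a π(jω) = ρ (2m+1) and (π ω)⁻¹ b π ω = ρ (2m) for ω = L m,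
since (a b)⁻¹ = b a and b (a b)^m = (b a)^m b). So count t (rightInvSeq (L m)) = number of r < 2m with ρ r = t (List.count of a map over List.range; reverse). For m = M i j: (b a)^m = 1 (cs.simple_mul_simple_pow'), so ρ (r + m) = ρ r, so the count over r < 2m is twice the count over r < m: even, 0 in ZMod 2
(if M i j = 0 the list is empty). Alternative: the lemmas on alternatingWord in Mathlib/GroupTheory/Coxeter/Inversion.lean (getElem_leftInvSeq_alternatingWord).
-/

namespace LibCW70

open Set Filter LibCE75
open scoped NNReal

private theorem C1b_prod {B W : Type} [Group W] {M : CoxeterMatrix B} (cs : CoxeterSystem M W) (i j : B)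
    (m : ℕ) : cs.wordProd (List.replicate m [i, j]).flatten = (cs.simple i * cs.simple j) ^ m := by
  induction m with
  | zero => simp
  | succ m ih =>
    rw [List.replicate_succ, List.flatten_cons, cs.wordProd_append, ih, pow_succ']
    congr 1
    simp [CoxeterSystem.wordProd]

private theorem C1b_conj {W : Type} [Group W] {a b : W} (ha : a * a = 1) (hb : b * b = 1) (m : ℕ) :
    ((a * b) ^ m)⁻¹ * b * (a * b) ^ m = (b * a) ^ (2 * m) * b := by
  have ha' : a⁻¹ = a := inv_eq_of_mul_eq_one_right ha
  have hb' : b⁻¹ = b := inv_eq_of_mul_eq_one_right hb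
  have h1 : ((a * b) ^ m)⁻¹ = (b * a) ^ m := by rw [← inv_pow, mul_inv_rev, ha', hb']
  have h2 : b * (a * b) ^ m = (b * a) ^ m * b := by
    induction m with
    | zero => simp
    | succ m ih =>
      rw [pow_succ', pow_succ']
      calc b * (a * b * (a * b) ^ m) = b * a * (b * (a * b) ^ m) := by simp only [mul_assoc]
        _ = b * a * ((b * a) ^ m * b) := by
          rw [ih (by rw [← inv_pow, mul_inv_rev, ha', hb'])]
        _ = b * a * (b * a) ^ m * b := by simp only [mul_assoc]
  rw [h1, mul_assoc, h2, ← mul_assoc, ← pow_add, two_mul]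

open Classical in
private theorem C1b_count {B W : Type} [Group W] {M : CoxeterMatrix B} (cs : CoxeterSystem M W) (i j : B)
    (t : W) (m : ℕ) :
    (cs.rightInvSeq (List.replicate m [i, j]).flatten).count t =
      ∑ r ∈ Finset.range (2 * m),
        if (cs.simple j * cs.simple i) ^ r * cs.simple j = t then 1 else 0 := by
  have ha : cs.simple i * cs.simple i = 1 := cs.simple_mul_simple_self i
  have hb : cs.simple j * cs.simple j = 1 := cs.simple_mul_simple_self j
  induction m with
  | zero => simp
  | succ m ih =>
    have e : (List.replicate (m + 1) [i, j]).flatten = i :: j :: (List.replicate m [i, j]).flatten := by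
      rw [List.replicate_succ, List.flatten_cons]
      rfl
    have e1 : (cs.wordProd (j :: (List.replicate m [i, j]).flatten))⁻¹ * cs.simple i *
        cs.wordProd (j :: (List.replicate m [i, j]).flatten) =
        (cs.simple j * cs.simple i) ^ (2 * m + 1) * cs.simple j := by
      rw [cs.wordProd_cons, C1b_prod, mul_inv_rev, cs.inv_simple]
      have h := C1b_conj ha hb m
      have ha' : (cs.simple i)⁻¹ = cs.simple i := cs.inv_simple i
      have hb' : (cs.simple j)⁻¹ = cs.simple j := cs.inv_simple j
      have h1 : ((cs.simple i * cs.simple j) ^ m)⁻¹ = (cs.simple j * cs.simple i) ^ m := by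
        rw [← inv_pow, mul_inv_rev, ha', hb']
      calc ((cs.simple i * cs.simple j) ^ m)⁻¹ * cs.simple j * cs.simple i *
          (cs.simple j * (cs.simple i * cs.simple j) ^ m)
          = ((cs.simple j * cs.simple i) ^ m * (cs.simple j * cs.simple i)) *
            (cs.simple j * (cs.simple i * cs.simple j) ^ m) := by
              rw [h1]; simp only [mul_assoc]
        _ = (cs.simple j * cs.simple i) * (((cs.simple i * cs.simple j) ^ m)⁻¹ * cs.simple j *
            (cs.simple i * cs.simple j) ^ m) := by
              rw [h1, ← pow_succ, pow_succ']; simp only [mul_assoc]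
        _ = _ := by rw [h, pow_succ' _ (2 * m)]; simp only [mul_assoc]
    have e2 : (cs.wordProd (List.replicate m [i, j]).flatten)⁻¹ * cs.simple j *
        cs.wordProd (List.replicate m [i, j]).flatten =
        (cs.simple j * cs.simple i) ^ (2 * m) * cs.simple j := by
      rw [C1b_prod]
      exact C1b_conj ha hb m
    rw [e, CoxeterSystem.rightInvSeq, CoxeterSystem.rightInvSeq, e1, e2, List.count_cons,
      List.count_cons, ih, Nat.mul_succ, Finset.sum_range_succ, Finset.sum_range_succ]
    simp only [beq_iff_eq]

open Classical in
theorem count_rightInvSeq_braid {B W : Type} [Group W] {M : CoxeterMatrix B} (cs : CoxeterSystem M W) (i j : B) (t : W) :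
    (((cs.rightInvSeq (List.replicate (M i j) [i, j]).flatten).count t : ℕ) : ZMod 2) = 0 := by
  rw [C1b_count, two_mul, Finset.sum_range_add]
  have h : ∀ r ∈ Finset.range (M i j),
      (if (cs.simple j * cs.simple i) ^ (M i j + r) * cs.simple j = t then 1 else 0) =
      (if (cs.simple j * cs.simple i) ^ r * cs.simple j = t then 1 else 0) := by
    intro r _
    rw [pow_add, cs.simple_mul_simple_pow', one_mul]
  rw [Finset.sum_congr rfl h, ← two_mul, Nat.cast_mul]
  have : ((2 : ℕ) : ZMod 2) = 0 := rfl
  rw [this, zero_mul]

end LibCW70
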