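import Pool.Agent.LibCW70.C1a
import Pool.Agent.LibCW70.C1b

set_option autoImplicit false

/-!
# Board CW70, row C1 (SHORT/MEDIUM).  MP_6fa1a0_gt (cell-like equivalence of CAT(0) boundaries)
Chair: helper70.  Deliver the whole file as CW70_C1.lean (team-store put), statements unchanged,
auxiliary lemmas private (names starting with C1_), no sorry, no axiom, no straight double quotation mark.

The parity cocycle of a Coxeter group.
PLAN. f from exists_toggle. M.IsLiftable f: for i j, (f i * f j) ^ M i j = 1: it is the product of (L.map f) for L = (List.replicate (M i j) [i,j]).flatten (List.map_flatten, List.prod_flatten, List.prod_replicate), so by the product formula it maps (t, e) to (π L t (π L)⁻¹, e + count) with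
π L = (s_i s_j)^(M i j) = 1 (cs.simple_mul_simple_pow) and count = 0 (C1b). So Φ = cs.lift ⟨f, _⟩ : W →* Perm (W × ZMod 2). By induction (cs.simple_induction_left or the word formula, cs.wordProd_surjective) Φ w (t, e) = (w t w⁻¹, e + (Φ w (t, 0)).2). η w t = (Φ w (t, 0)).2. one, mul: map_mul;
simple, other: cs.lift_apply_simple and the formula for f.
-/

namespace LibCW70

open Set Filter LibCE75
open scoped NNReal

theorem exists_coc {B W : Type} [Group W] {M : CoxeterMatrix B} (cs : CoxeterSystem M W) : ∃ η : W → W → ZMod 2, Coc cs η := by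
  classical
  obtain ⟨f, hf, hfp⟩ := exists_toggle cs
  have hlift : M.IsLiftable f := by
    intro i j
    have hprod : (f i * f j) ^ M i j = (((List.replicate (M i j) [i, j]).flatten).map f).prod := by
      rw [List.map_flatten, List.prod_flatten]
      simp
    have hw : cs.wordProd (List.replicate (M i j) [i, j]).flatten = 1 := by
      have h1 : cs.wordProd (List.replicate (M i j) [i, j]).flatten
          = (cs.simple i * cs.simple j) ^ M i j := by
        unfold CoxeterSystem.wordProd
        rw [List.map_flatten, List.prod_flatten]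
        simp
      rw [h1, cs.simple_mul_simple_pow]
    rw [hprod]
    apply Equiv.ext
    rintro ⟨t, e⟩
    rw [hfp, hw, count_rightInvSeq_braid cs i j t]
    simp
  let Φ : W →* Equiv.Perm (W × ZMod 2) := cs.lift ⟨f, hlift⟩
  have hΦs : ∀ i, Φ (cs.simple i) = f i := fun i => cs.lift_apply_simple hlift i
  have hΦ : ∀ (w t : W) (e : ZMod 2), Φ w (t, e) = (w * t * w⁻¹, e + (Φ w (t, 0)).2) := by
    intro w t e
    obtain ⟨ω, rfl⟩ := cs.wordProd_surjective w
    have h1 : Φ (cs.wordProd ω) = (ω.map f).prod := by
      unfold CoxeterSystem.wordProd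
      rw [map_list_prod, List.map_map]
      congr 1
      apply List.map_congr_left
      intro i _
      exact hΦs i
    rw [h1, hfp, hfp, zero_add]
  refine ⟨fun w t => (Φ w (t, 0)).2, ?_, ?_, ?_, ?_⟩
  · intro t
    simp
  · intro u v t
    show (Φ (u * v) (t, 0)).2 = (Φ v (t, 0)).2 + (Φ u (v * t * v⁻¹, 0)).2
    rw [map_mul, Equiv.Perm.mul_apply, hΦ v t 0, hΦ u (v * t * v⁻¹)]
  · intro i
    show (Φ (cs.simple i) (cs.simple i, 0)).2 = 1
    rw [hΦs, hf]
    simp
  · intro i t ht
    show (Φ (cs.simple i) (t, 0)).2 = 0
    rw [hΦs, hf]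
    simp [ht]

end LibCW70
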