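import Pool.Agent.LibCW70.B0

set_option autoImplicit false

/-!
# Board CW70, row C1a (MEDIUM).  MP_6fa1a0_gt (cell-like equivalence of CAT(0) boundaries)
Chair: helper70.  Deliver the whole file as CW70_C1a.lean (team-store put), statements unchanged,
auxiliary lemmas private (names starting with C1a_), no sorry, no axiom, no straight double quotation mark.

The permutations (t, e) |-> (s t s, e + [t = s]) and their products along a word.
PLAN. exists_toggle: for i the map f_i (t, e) = (s_i t s_i⁻¹, e + if t = s_i then 1 else 0) of W × ZMod 2 is an involution (s_i s_i = 1, cs.simple_mul_simple_self, cs.inv_simple; s t s⁻¹ = s iff t = s; 1 + 1 = 0 in ZMod 2), so Equiv.Perm (classical, Function.Involutive.toPerm). Product along a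
word ω (List B): ((ω.map f).prod) (t, e) = (π ω * t * (π ω)⁻¹, e + number of occurrences of t in cs.rightInvSeq ω). Induction on ω from the left: (i :: ω): prod = f_i * prod ω; rightInvSeq (i :: ω) = ((π ω)⁻¹ * s_i * π ω) :: rightInvSeq ω (definition), and
π ω t (π ω)⁻¹ = s_i iff t = (π ω)⁻¹ s_i π ω. List.count_cons, Nat.cast.
-/

namespace LibCW70

open Set Filter LibCE75
open scoped NNReal

open Classical in
theorem exists_toggle {B W : Type} [Group W] {M : CoxeterMatrix B} (cs : CoxeterSystem M W) :
    ∃ f : B → Equiv.Perm (W × ZMod 2),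
      (∀ i t e, f i (t, e) = (cs.simple i * t * (cs.simple i)⁻¹,
        e + if t = cs.simple i then 1 else 0)) ∧
      ∀ (ω : List B) t e, (ω.map f).prod (t, e) = (cs.wordProd ω * t * (cs.wordProd ω)⁻¹,
        e + ((cs.rightInvSeq ω).count t : ZMod 2)) := by
  have hss : ∀ i, cs.simple i * cs.simple i = 1 := fun i => cs.simple_mul_simple_self i
  have hfix : ∀ i (t : W), cs.simple i * t * (cs.simple i)⁻¹ = cs.simple i ↔ t = cs.simple i := by
    intro i t
    constructor
    · intro h
      have h1 : cs.simple i * t = cs.simple i * cs.simple i := mul_inv_eq_iff_eq_mul.1 h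
      exact mul_left_cancel h1
    · rintro rfl
      simp
  have hinv : ∀ i, Function.Involutive (fun x : W × ZMod 2 =>
      ((cs.simple i * x.1 * (cs.simple i)⁻¹, x.2 + if x.1 = cs.simple i then 1 else 0) :
        W × ZMod 2)) := by
    intro i x
    obtain ⟨t, e⟩ := x
    have h1 : cs.simple i * (cs.simple i * t * (cs.simple i)⁻¹) * (cs.simple i)⁻¹ = t := by
      have e1 : cs.simple i * (cs.simple i * t * (cs.simple i)⁻¹) * (cs.simple i)⁻¹ =
          (cs.simple i * cs.simple i) * t * (cs.simple i * cs.simple i)⁻¹ := by group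
      rw [e1, hss]; simp
    refine Prod.ext ?_ ?_
    · exact h1
    · show e + (if t = cs.simple i then (1 : ZMod 2) else 0) +
        (if cs.simple i * t * (cs.simple i)⁻¹ = cs.simple i then (1 : ZMod 2) else 0) = e
      have h2 : (1 : ZMod 2) + 1 = 0 := by decide
      by_cases ht : t = cs.simple i
      · rw [if_pos ht, if_pos ((hfix i t).2 ht), add_assoc, h2, add_zero]
      · rw [if_neg ht, if_neg (fun h => ht ((hfix i t).1 h)), add_zero, add_zero]
  refine ⟨fun i => (hinv i).toPerm, fun i t e => rfl, ?_⟩
  intro ω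
  induction ω with
  | nil =>
    intro t e
    simp
  | cons i ω ih =>
    intro t e
    rw [List.map_cons, List.prod_cons, Equiv.Perm.mul_apply, ih]
    have hc : ((cs.rightInvSeq (i :: ω)).count t : ZMod 2) = ((cs.rightInvSeq ω).count t : ZMod 2) +
        (if (cs.wordProd ω)⁻¹ * cs.simple i * cs.wordProd ω = t then (1 : ZMod 2) else 0) := by
      rw [CoxeterSystem.rightInvSeq, List.count_cons, Nat.cast_add]
      congr 1
      by_cases h : (cs.wordProd ω)⁻¹ * cs.simple i * cs.wordProd ω = t
      · simp [h]
      · simp [h]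
    rw [hc]
    show ((cs.simple i * (cs.wordProd ω * t * (cs.wordProd ω)⁻¹) * (cs.simple i)⁻¹,
      e + ((cs.rightInvSeq ω).count t : ZMod 2) +
        if cs.wordProd ω * t * (cs.wordProd ω)⁻¹ = cs.simple i then 1 else 0) :
          W × ZMod 2) = _
    have hiff : (cs.wordProd ω * t * (cs.wordProd ω)⁻¹ = cs.simple i) ↔
        ((cs.wordProd ω)⁻¹ * cs.simple i * cs.wordProd ω = t) := by
      constructor
      · intro h
        rw [← h]; group
      · intro h
        rw [← h]; group
    refine Prod.ext ?_ ?_
    · show cs.simple i * (cs.wordProd ω * t * (cs.wordProd ω)⁻¹) * (cs.simple i)⁻¹ =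
        cs.wordProd (i :: ω) * t * (cs.wordProd (i :: ω))⁻¹
      rw [cs.wordProd_cons, mul_inv_rev]
      simp only [mul_assoc]
    · show e + ((cs.rightInvSeq ω).count t : ZMod 2) +
        (if cs.wordProd ω * t * (cs.wordProd ω)⁻¹ = cs.simple i then (1 : ZMod 2) else 0) =
        e + (((cs.rightInvSeq ω).count t : ZMod 2) +
        (if (cs.wordProd ω)⁻¹ * cs.simple i * cs.wordProd ω = t then (1 : ZMod 2) else 0))
      rw [add_assoc]
      congr 2
      by_cases h : (cs.wordProd ω)⁻¹ * cs.simple i * cs.wordProd ω = t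
      · rw [if_pos h, if_pos (hiff.2 h)]
      · rw [if_neg h, if_neg (fun h' => h (hiff.1 h'))]

end LibCW70
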