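import Pool.Agent.LibCW70.B0

set_option autoImplicit false

/-!
# Board CW70, row C2a (SHORT).  MP_6fa1a0_gt (cell-like equivalence of CAT(0) boundaries)
Chair: helper70.  Deliver the whole file as CW70_C2a.lean (team-store put), statements unchanged,
auxiliary lemmas private (names starting with C2a_), no sorry, no axiom, no straight double quotation mark.

Which edges are separated by a half space; translates of half spaces.
PLAN. η (w⁻¹) for w s_i: (w s_i)⁻¹ = s_i w⁻¹ (cs.inv_simple), so η ((w s)⁻¹) t = η w⁻¹ t + η s (w⁻¹ t w) (Coc.mul): the second summand is 1 if w⁻¹ t w = s_i and 0 otherwise (Coc.simple, Coc.other), and w⁻¹ t w = s iff t = w s w⁻¹. x = e iff x + 1 = e is false in ZMod 2 (decide / fin_cases).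
tr_hsp: w in tr g A iff η ((g⁻¹ w)⁻¹) t = e; (g⁻¹ w)⁻¹ = w⁻¹ g, η (w⁻¹ g) t = η g t + η w⁻¹ (g t g⁻¹), so e' = e - η g t.
-/

namespace LibCW70

open Set Filter LibCE75
open scoped NNReal

private theorem C2a_z (x e : ZMod 2) : ¬ (x = e ↔ x + 1 = e) := by
  revert x e
  decide

theorem hsp_sep {B W : Type} [Group W] {M : CoxeterMatrix B} {cs : CoxeterSystem M W}
    {η : W → W → ZMod 2} (h : Coc cs η) (t : W) (e : ZMod 2) (w : W) (i : B) :
    ¬ (w ∈ hsp η t e ↔ w * cs.simple i ∈ hsp η t e) ↔ t = w * cs.simple i * w⁻¹ := by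
  have h1 : w * cs.simple i ∈ hsp η t e ↔ η w⁻¹ t + η (cs.simple i) (w⁻¹ * t * w) = e := by
    change η (w * cs.simple i)⁻¹ t = e ↔ _
    rw [mul_inv_rev, cs.inv_simple, h.mul, inv_inv]
  have h2 : w ∈ hsp η t e ↔ η w⁻¹ t = e := Iff.rfl
  rw [h1, h2]
  by_cases ht : w⁻¹ * t * w = cs.simple i
  · rw [ht, h.simple]
    refine ⟨fun _ => ?_, fun _ => C2a_z _ _⟩
    rw [← ht]
    group
  · rw [h.other _ _ ht, add_zero]
    constructor
    · intro h3
      exact absurd Iff.rfl h3
    · intro h3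
      exfalso
      apply ht
      rw [h3]
      group

theorem tr_hsp {B W : Type} [Group W] {M : CoxeterMatrix B} {cs : CoxeterSystem M W}
    {η : W → W → ZMod 2} (h : Coc cs η) (g t : W) (e : ZMod 2) :
    tr g (hsp η t e) = hsp η (g * t * g⁻¹) (e - η g t) := by
  ext w
  change η (g⁻¹ * w)⁻¹ t = e ↔ η w⁻¹ (g * t * g⁻¹) = e - η g t
  rw [mul_inv_rev, inv_inv, h.mul, eq_sub_iff_add_eq, add_comm]

end LibCW70
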