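import Pool.Agent.LibCW70.C2a

set_option autoImplicit false

/-!
# Board CW70, row C2b (MEDIUM).  MP_6fa1a0_gt (cell-like equivalence of CAT(0) boundaries)
Chair: helper70.  Deliver the whole file as CW70_C2b.lean (team-store put), statements unchanged,
auxiliary lemmas private (names starting with C2b_), no sorry, no axiom, no straight double quotation mark.

At least l(g) half spaces separate 1 from g.
PLAN. Take a reduced word ω of g (cs.exists_reduced_word or exists_isReduced; length ω = l(g), π ω = g). For k < length ω let w_k = π (ω.take k), t_k = w_k s_(ω k) w_k⁻¹: these are the entries of cs.leftInvSeq ω (getElem_leftInvSeq or getD_leftInvSeq), different from each other (IsReduced.nodup_leftInvSeq),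
reflections. A_k = hsp η t_k 0. A_k separates w_k and w_(k+1) and does not separate w_m, w_(m+1) for m <> k (hsp_sep: t_k = t_m), so it separates 1 = w_0 and g = w_n (induction along the word). So A_k in Sep (fam cs η) g. k |-> A_k is injective (A_k separates w_k, w_(k+1), A_m does not). So
length ω = ncard of the image <= ncard (Set.ncard_le_ncard with hfin; for instance Finset.card_le / Set.ncard_image_of_injective for Fin n).
-/

namespace LibCW70

open Set Filter LibCE75
open scoped NNReal

theorem length_le_ncard {B W : Type} [Group W] {M : CoxeterMatrix B} {cs : CoxeterSystem M W}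
    {η : W → W → ZMod 2} (h : Coc cs η) (g : W) (hfin : (Sep (fam cs η) g).Finite) :
    cs.length g ≤ (Sep (fam cs η) g).ncard := by
  classical
  obtain ⟨ω, hω, hg⟩ := cs.exists_isReduced g
  have hlen : cs.length g = ω.length := by rw [hg]; exact hω.eq
  have hnd := hω.nodup_leftInvSeq
  have hstep : ∀ m (hm : m < ω.length), cs.wordProd (ω.take (m + 1)) =
      cs.wordProd (ω.take m) * cs.simple ω[m] := by
    intro m hm
    rw [List.take_succ_eq_append_getElem hm, cs.wordProd_append, cs.wordProd_singleton]
  obtain ⟨t, ht⟩ : ∃ t : ℕ → W, ∀ k (hk : k < ω.length), t k =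
      (cs.leftInvSeq ω)[k]'(by simp [hk]) := by
    refine ⟨fun k => if hk : k < ω.length then (cs.leftInvSeq ω)[k]'(by simp [hk]) else 1, ?_⟩
    intro k hk
    simp [hk]
  have htf : ∀ k (hk : k < ω.length), t k = cs.wordProd (ω.take k) * cs.simple ω[k] *
      (cs.wordProd (ω.take k))⁻¹ := by
    intro k hk
    rw [ht k hk, cs.getElem_leftInvSeq ω k hk]
  have hinj : ∀ k m (hk : k < ω.length) (hm : m < ω.length), t k = t m → k = m := by
    intro k m hk hm hkm
    rw [ht k hk, ht m hm] at hkm
    exact (List.Nodup.getElem_inj_iff hnd).1 hkm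
  -- separation of consecutive elements
  have hsep : ∀ k m (hk : k < ω.length) (hm : m < ω.length),
      ¬ (cs.wordProd (ω.take m) ∈ hsp η (t k) 0 ↔ cs.wordProd (ω.take (m + 1)) ∈ hsp η (t k) 0) ↔
        k = m := by
    intro k m hk hm
    rw [hstep m hm, hsp_sep h]
    rw [← htf m hm]
    exact ⟨hinj k m hk hm, fun e => by rw [e]⟩
  have hbefore : ∀ k (hk : k < ω.length) m, m ≤ k →
      ((1 : W) ∈ hsp η (t k) 0 ↔ cs.wordProd (ω.take m) ∈ hsp η (t k) 0) := by
    intro k hk m
    induction m with
    | zero => intro _; simp
    | succ m ih =>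
      intro hmk
      have h1 := ih (by omega)
      have h2 := (hsep k m hk (by omega)).not.2 (by omega)
      rw [not_not] at h2
      exact h1.trans h2
  have hafter : ∀ k (hk : k < ω.length) m, k + 1 ≤ m → m ≤ ω.length →
      (cs.wordProd (ω.take (k + 1)) ∈ hsp η (t k) 0 ↔
        cs.wordProd (ω.take m) ∈ hsp η (t k) 0) := by
    intro k hk m hm
    induction m, hm using Nat.le_induction with
    | base => intro _; rfl
    | succ m hm ih =>
      intro hml
      have h1 := ih (by omega)
      have h2 := (hsep k m hk (by omega)).not.2 (by omega)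
      rw [not_not] at h2
      exact h1.trans h2
  have hmem : ∀ k : Fin ω.length, hsp η (t k) 0 ∈ Sep (fam cs η) g := by
    intro k
    refine ⟨⟨t k, ?_, 0, rfl⟩, ?_⟩
    · rw [ht k k.2]
      exact cs.isReflection_of_mem_leftInvSeq ω (List.getElem_mem _)
    · intro hcon
      have h1 := hbefore k k.2 k le_rfl
      have h2 := hafter k k.2 ω.length (by omega) le_rfl
      rw [List.take_length, ← hg] at h2
      have h3 := (hsep k k k.2 k.2).2 rfl
      exact h3 (h1.symm.trans (hcon.trans h2.symm))
  have hfi : Function.Injective (fun k : Fin ω.length => hsp η (t k) 0) := by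
    intro k m hkm
    have h1 := (hsep k k k.2 k.2).2 rfl
    have hkm' : hsp η (t k) 0 = hsp η (t m) 0 := hkm
    rw [hkm'] at h1
    exact (Fin.ext ((hsep m k m.2 k.2).1 h1)).symm
  have hsub : range (fun k : Fin ω.length => hsp η (t k) 0) ⊆ Sep (fam cs η) g := by
    rintro _ ⟨k, rfl⟩
    exact hmem k
  have h5 := ncard_le_ncard hsub hfin
  rw [← image_univ, ncard_image_of_injective _ hfi, ncard_univ, Nat.card_fin] at h5
  rw [hlen]
  exact h5

end LibCW70
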