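import Pool.Agent.LibCW70.C2b

set_option autoImplicit false

/-!
# Board CW70, row C2c (MEDIUM).  MP_6fa1a0_gt (cell-like equivalence of CAT(0) boundaries)
Chair: helper70.  Deliver the whole file as CW70_C2c.lean (team-store put), statements unchanged,
auxiliary lemmas private (names starting with C2c_), no sorry, no axiom, no straight double quotation mark.

The half spaces of a Coxeter group satisfy the conditions of WallG.
PLAN. Sfin: Set.finite_range. Sgen: cs.submonoid_closure_range_simple. inv: tr_hsp, IsReflection.conj. fin: by cs.simple_induction_right: g = 1: empty. g s_i: a set separating 1 and g s_i separates 1 and g or g and g s_i; the sets of fam separating g and g s_i are hsp η t e with t = g s_i g⁻¹ (hsp_sep), e in ZMod 2: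
finitely many. prop: by length_le_ncard the set is contained in {g | cs.length g <= n}, which is finite: image of the finite set of lists over the finite type B of length <= n (List.finite_length_le) under cs.wordProd (cs.exists_reduced_word).
-/

namespace LibCW70

open Set Filter LibCE75
open scoped NNReal

private theorem C2c_fin {B W : Type} [Group W] {M : CoxeterMatrix B}
    {cs : CoxeterSystem M W} {η : W → W → ZMod 2} (h : Coc cs η) (g : W) :
    (Sep (fam cs η) g).Finite := by
  refine cs.simple_induction_right (p := fun g => (Sep (fam cs η) g).Finite) g ?_ ?_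
  · have h1 : Sep (fam cs η) 1 = ∅ := by
      ext A
      simp [Sep]
    show (Sep (fam cs η) 1).Finite
    rw [h1]
    exact finite_empty
  · intro w i ih
    have h1 : (range (hsp η (w * cs.simple i * w⁻¹))).Finite := finite_range _
    refine (ih.union h1).subset ?_
    rintro A ⟨hA, hsep⟩
    by_cases h2 : (1 : W) ∈ A ↔ w ∈ A
    · right
      have h3 : ¬ (w ∈ A ↔ w * cs.simple i ∈ A) := fun h4 => hsep (h2.trans h4)
      obtain ⟨t, _, e, rfl⟩ := hA
      rw [(hsp_sep h t e w i).1 h3]
      exact ⟨e, rfl⟩
    · exact Or.inl ⟨hA, h2⟩

theorem wallG_coxeter {B W : Type} [Finite B] [Group W] {M : CoxeterMatrix B}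
    {cs : CoxeterSystem M W} {η : W → W → ZMod 2} (h : Coc cs η) :
    WallG (range cs.simple) (fam cs η) := by
  refine ⟨finite_range _, cs.submonoid_closure_range_simple, ?_, C2c_fin h, ?_⟩
  · rintro g A ⟨t, ht, e, rfl⟩
    exact ⟨g * t * g⁻¹, ht.conj g, e - η g t, tr_hsp h g t e⟩
  · intro n
    refine ((List.finite_length_le B n).image cs.wordProd).subset ?_
    intro g hg
    have h1 : cs.length g ≤ n := (length_le_ncard h g (C2c_fin h g)).trans hg
    obtain ⟨ω, h2, h3⟩ := cs.exists_isReduced g
    have h4 : cs.length (cs.wordProd ω) = ω.length := h2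
    refine ⟨ω, ?_, h3.symm⟩
    show ω.length ≤ n
    rw [← h4, ← h3]
    exact h1

end LibCW70
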