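import Pool.Agent.LibCW70.C2a

set_option autoImplicit false

/-!
# Board CW70, row C3 (SHORT/MEDIUM).  MP_6fa1a0_gt (cell-like equivalence of CAT(0) boundaries)
Chair: helper70.  Deliver the whole file as CW70_C3.lean (team-store put), statements unchanged,
auxiliary lemmas private (names starting with C3_), no sorry, no axiom, no straight double quotation mark.

The frontier of a half space of a Coxeter group is near to the centralizer of its reflection.
PLAN. A = hsp η t e, F = {t}. Fr A = {g | there is i with g s_i g⁻¹ = t} (hsp_sep). t <> 1: IsReflection.odd_length. NearCent: for each i such that some u has u s_i u⁻¹ = t choose u_i (classical); t = w s_j w⁻¹ for some w, j (IsReflection). K = {(u_i)⁻¹ | i} union {w}, finite (B finite). g in Fr A: g s_i g⁻¹ = t =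
u_i s_i u_i⁻¹, so g u_i⁻¹ commutes with t. c commutes with t: (c w) s_j (c w)⁻¹ = c t c⁻¹ = t, so c w in Fr A. Set.mem_centralizer_iff, mem_singleton.
-/

namespace LibCW70

open Set Filter LibCE75
open scoped NNReal

theorem nearCent_coxeter {B W : Type} [Finite B] [Group W] {M : CoxeterMatrix B}
    {cs : CoxeterSystem M W} {η : W → W → ZMod 2} (h : Coc cs η) {A : Set W}
    (hA : A ∈ fam cs η) : ∃ F : Set W, (∃ f ∈ F, f ≠ 1) ∧ NearCent F (Fr (range cs.simple) A) := by
  classical
  obtain ⟨t, ht, e, rfl⟩ := hA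
  have hFr : ∀ g : W, g ∈ Fr (range cs.simple) (hsp η t e) ↔ ∃ i, t = g * cs.simple i * g⁻¹ := by
    intro g
    rw [mem_Fr]
    constructor
    · rintro ⟨s, ⟨i, rfl⟩, hs⟩
      exact ⟨i, (hsp_sep h t e g i).1 hs⟩
    · rintro ⟨i, hi⟩
      exact ⟨cs.simple i, ⟨i, rfl⟩, (hsp_sep h t e g i).2 hi⟩
  have ht1 : t ≠ 1 := by
    intro h1
    have := ht.odd_length
    rw [h1, cs.length_one] at this
    simp at this
  obtain ⟨w, j, hwj⟩ := ht
  refine ⟨{t}, ⟨t, rfl, ht1⟩, Set.finite_singleton _, ?_⟩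
  -- choose u_i
  let u : B → W := fun i => if hi : ∃ u : W, t = u * cs.simple i * u⁻¹ then hi.choose else 1
  have hu : ∀ i, (∃ u : W, t = u * cs.simple i * u⁻¹) → t = u i * cs.simple i * (u i)⁻¹ := by
    intro i hi
    have : u i = hi.choose := by simp only [u, dif_pos hi]
    rw [this]
    exact hi.choose_spec
  refine ⟨(range fun i => (u i)⁻¹) ∪ {w}, (Set.finite_range _).union (Set.finite_singleton _), ?_, ?_⟩
  · intro g hg
    obtain ⟨i, hi⟩ := (hFr g).1 hg
    refine ⟨(u i)⁻¹, Or.inl ⟨i, rfl⟩, ?_⟩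
    rw [Set.mem_centralizer_iff]
    intro m hm
    rw [mem_singleton_iff] at hm
    subst hm
    have h2 := hu i ⟨g, hi⟩
    have h3 : cs.simple i = (u i)⁻¹ * m * u i := by
      rw [h2]; group
    have h4 : m * g = g * cs.simple i := by
      nth_rw 1 [hi]; group
    calc m * (g * (u i)⁻¹) = (m * g) * (u i)⁻¹ := by group
      _ = g * cs.simple i * (u i)⁻¹ := by rw [h4]
      _ = g * ((u i)⁻¹ * m * u i) * (u i)⁻¹ := by rw [← h3]
      _ = g * (u i)⁻¹ * m := by group
  · intro c hc
    rw [Set.mem_centralizer_iff] at hc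
    have hct := hc t rfl
    refine ⟨w, Or.inr rfl, (hFr _).2 ⟨j, ?_⟩⟩
    have h3 : c * w * cs.simple j * (c * w)⁻¹ = c * (w * cs.simple j * w⁻¹) * c⁻¹ := by group
    rw [h3, ← hwj, ← hct]
    group

end LibCW70
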