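import Pool.Agent.LibCE75.B5
import Pool.Agent.LibCE75.A3
import Pool.Agent.LibCE75.A4
import Pool.Agent.LibCE75.S1

set_option autoImplicit false

/-!
# Board CW70 (MP_6fa1a0_gt): cell-like equivalence of boundaries of CAT(0) groups, walls with
# coarsely convex frontiers (Coxeter groups, graph products).  Definitions.
-/

namespace LibCW70

open Set Metric Topology Filter LibCE75
open scoped NNReal

/-! ## Geometry -/

/-- Closed, convex, not empty. -/
structure CC {X : Type} [MetricSpace X] (H : Set X) : Prop where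
  ne : H.Nonempty
  cl : IsClosed H
  cvx : Cvx H

/-- The limit set of `H`: the rays which stay at bounded distance from `H`. -/
def Lim {X : Type} [MetricSpace X] (x₀ : X) (H : Set X) : Set (Ray X x₀) :=
  {c | ∃ C : ℝ, ∀ t : ℝ≥0, infDist (c.1 t) H ≤ C}

/-- Walls: `H j true` and `H j false` are closed convex sets with union `X`, and two points which
are far apart are separated with a margin by one of the walls. -/
structure Walls {X J : Type} [MetricSpace X] (H : J → Bool → Set X) : Prop where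
  cc : ∀ j s, CC (H j s)
  cover : ∀ j s x, x ∈ H j s ∨ x ∈ H j (!s)
  sep : ∀ (x : X) (D : ℝ), ∃ R : ℝ, ∀ y : X, R ≤ dist x y →
    ∃ j s, D < infDist x (H j s) ∧ y ∉ H j (!s)

/-- Coarse control of a map by the half spaces. -/
def Ctl {X Y J : Type} [MetricSpace X] [MetricSpace Y] (H : J → Bool → Set X)
    (K : J → Bool → Set Y) (f : X → Y) : Prop :=
  ∀ D : ℝ, ∃ D' : ℝ, ∀ j s x, infDist x (H j s) ≤ D → infDist (f x) (K j s) ≤ D'

/-! ## Half spaces in a group -/

/-- The frontier of `A` with respect to the generating set `S`. -/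
def Fr {G : Type} [Group G] (S A : Set G) : Set G := {g | ∃ s ∈ S, ¬ (g ∈ A ↔ g * s ∈ A)}

/-- The translate `g A`. -/
def tr {G : Type} [Group G] (g : G) (A : Set G) : Set G := {x | g⁻¹ * x ∈ A}

/-- The sets of the family `𝓗` which separate `1` from `g`. -/
def Sep {G : Type} [Group G] (𝓗 : Set (Set G)) (g : G) : Set (Set G) :=
  {A | A ∈ 𝓗 ∧ ¬ ((1 : G) ∈ A ↔ g ∈ A)}

/-- A finite set `S` generating the group `G` as a monoid and a family `𝓗` of subsets of `G`
(half spaces), stable under left translation, such that finitely many of them separate `1` from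
`g` and only finitely many `g` are separated from `1` by at most `n` of them. -/
structure WallG {G : Type} [Group G] (S : Set G) (𝓗 : Set (Set G)) : Prop where
  Sfin : S.Finite
  Sgen : Submonoid.closure S = ⊤
  inv : ∀ g : G, ∀ A ∈ 𝓗, tr g A ∈ 𝓗
  fin : ∀ g : G, (Sep 𝓗 g).Finite
  prop : ∀ n : ℕ, {g : G | (Sep 𝓗 g).ncard ≤ n}.Finite

/-- The subset `E` of `G` is, through the orbit map at `x₀`, at finite Hausdorff distance from a
nonempty closed convex subset of `X`. -/
def CoarseCvx {G X : Type} [Group G] [MetricSpace X] [MulAction G X] (x₀ : X) (E : Set G) :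
    Prop :=
  ∃ (Y : Set X) (C : ℝ), CC Y ∧ (∀ g ∈ E, infDist (g • x₀) Y ≤ C) ∧
    ∀ y ∈ Y, ∃ g ∈ E, dist y (g • x₀) ≤ C

/-- `F` is finite and `E` is at finite distance (in the word metric) from the centralizer of
`F`. -/
def NearCent {G : Type} [Group G] (F E : Set G) : Prop :=
  F.Finite ∧ ∃ K : Set G, K.Finite ∧ (∀ g ∈ E, ∃ k ∈ K, g * k ∈ Set.centralizer F) ∧
    ∀ c ∈ Set.centralizer F, ∃ k ∈ K, c * k ∈ E

/-- `G` has walls the frontiers of which are near to centralizers of finite sets. -/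
def CentWalls (G : Type) [Group G] : Prop :=
  ∃ (S : Set G) (𝓗 : Set (Set G)), WallG S 𝓗 ∧ ∀ A ∈ 𝓗, ∃ F : Set G, NearCent F (Fr S A)

/-- The same, each `g ≠ 1` is separated from `1`, and the finite sets are not contained
in `{1}`. -/
def StrongWalls (G : Type) [Group G] : Prop :=
  ∃ (S : Set G) (𝓗 : Set (Set G)), WallG S 𝓗 ∧ (∀ g : G, g ≠ 1 → (Sep 𝓗 g).Nonempty) ∧
    ∀ A ∈ 𝓗, ∃ F : Set G, (∃ f ∈ F, f ≠ 1) ∧ NearCent F (Fr S A)

/-! ## Half spaces in the space -/

/-- A uniform choice of convex sets near the frontiers. -/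
structure Adapted {G X : Type} [Group G] [MetricSpace X] [MulAction G X] (x₀ : X) (S : Set G)
    (𝓗 : Set (Set G)) (Y : Set G → Set X) (C : ℝ) : Prop where
  cc : ∀ A ∈ 𝓗, CC (Y A)
  al : ∀ A ∈ 𝓗, ∀ g ∈ Fr S A, infDist (g • x₀) (Y A) ≤ C
  be : ∀ A ∈ 𝓗, ∀ y ∈ Y A, ∃ g ∈ Fr S A, dist y (g • x₀) ≤ C

/-- Standing assumptions: outside of the `D`-neighbourhood of `Y A`, the elements of `G` near a
point are all on the same side of `A`. -/
structure Sided {G X : Type} [Group G] [MetricSpace X] [MulAction G X] (x₀ : X) (S : Set G)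
    (𝓗 : Set (Set G)) (Y : Set G → Set X) (C R D : ℝ) : Prop where
  cat : IsCAT0 X
  geom : Geometric G X
  wall : WallG S 𝓗
  ad : Adapted x₀ S 𝓗 Y C
  C0 : 0 ≤ C
  R0 : 0 ≤ R
  cover : ∀ x : X, ∃ g : G, dist x (g • x₀) ≤ R
  D0 : 0 ≤ D
  side : ∀ A ∈ 𝓗, ∀ x : X, D < infDist x (Y A) → ∀ g h : G, dist x (g • x₀) ≤ R + 1 →
    dist x (h • x₀) ≤ R + 1 → (g ∈ A ↔ h ∈ A)

/-- The half spaces in `X`. -/
def HS {G X : Type} [Group G] [MetricSpace X] [MulAction G X] (x₀ : X) (Y : Set G → Set X)
    (R D : ℝ) (A : Set G) (s : Bool) : Set X :=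
  {x | infDist x (Y A) ≤ D ∨ ∀ g : G, dist x (g • x₀) ≤ R + 1 → (g ∈ A ↔ s = true)}

/-! ## Coxeter groups -/

/-- The parity cocycle of a Coxeter group. -/
structure Coc {B W : Type} [Group W] {M : CoxeterMatrix B} (cs : CoxeterSystem M W)
    (η : W → W → ZMod 2) : Prop where
  one : ∀ t, η 1 t = 0
  mul : ∀ u v t, η (u * v) t = η v t + η u (v * t * v⁻¹)
  simple : ∀ i, η (cs.simple i) (cs.simple i) = 1
  other : ∀ i t, t ≠ cs.simple i → η (cs.simple i) t = 0

/-- The half space of `t`. -/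
def hsp {W : Type} [Group W] (η : W → W → ZMod 2) (t : W) (e : ZMod 2) : Set W :=
  {w | η w⁻¹ t = e}

/-- The half spaces of a Coxeter group. -/
def fam {B W : Type} [Group W] {M : CoxeterMatrix B} (cs : CoxeterSystem M W)
    (η : W → W → ZMod 2) : Set (Set W) :=
  {A | ∃ t, cs.IsReflection t ∧ ∃ e, A = hsp η t e}

/-! ## Graph products -/

/-- The relations of the graph product. -/
def gpRel {V : Type} (Γ : SimpleGraph V) (G : V → Type) [∀ v, Group (G v)] :
    Set (Monoid.CoprodI G) :=
  {x | ∃ (v w : V) (g : G v) (h : G w), Γ.Adj v w ∧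
    x = Monoid.CoprodI.of g * Monoid.CoprodI.of h * (Monoid.CoprodI.of g)⁻¹ *
      (Monoid.CoprodI.of h)⁻¹}

/-- The graph product of the groups `G v` over the graph `Γ`: the free product of the `G v`
divided by the relations that the elements of `G v` and `G w` commute for adjacent `v`, `w`. -/
def GP {V : Type} (Γ : SimpleGraph V) (G : V → Type) [∀ v, Group (G v)] : Type :=
  Monoid.CoprodI G ⧸ Subgroup.normalClosure (gpRel Γ G)

instance {V : Type} (Γ : SimpleGraph V) (G : V → Type) [∀ v, Group (G v)] : Group (GP Γ G) :=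
  inferInstanceAs (Group (Monoid.CoprodI G ⧸ Subgroup.normalClosure (gpRel Γ G)))

/-- The inclusion of a vertex group. -/
def GP.of {V : Type} (Γ : SimpleGraph V) (G : V → Type) [∀ v, Group (G v)] (v : V) :
    G v →* GP Γ G :=
  (QuotientGroup.mk' (Subgroup.normalClosure (gpRel Γ G))).comp Monoid.CoprodI.of

/-- The subgroup generated by the vertex groups of `v` and its neighbours. -/
def St {V : Type} (Γ : SimpleGraph V) (G : V → Type) [∀ v, Group (G v)] (v : V) :
    Subgroup (GP Γ G) :=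
  Subgroup.closure {x | ∃ (u : V) (g : G u), (u = v ∨ Γ.Adj v u) ∧ x = GP.of Γ G u g}

/-- The subgroup generated by the vertex groups of the neighbours of `v`. -/
def Lk {V : Type} (Γ : SimpleGraph V) (G : V → Type) [∀ v, Group (G v)] (v : V) :
    Subgroup (GP Γ G) :=
  Subgroup.closure {x | ∃ (u : V) (g : G u), Γ.Adj v u ∧ x = GP.of Γ G u g}

/-- The projection to the vertex group `G v`: the `v`-syllable at the beginning of `w`. -/
structure Proj {V : Type} (Γ : SimpleGraph V) (G : V → Type) [∀ v, Group (G v)] (v : V)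
    (p : GP Γ G → G v) : Prop where
  one : p 1 = 1
  same : ∀ w (s : G v), w ∈ St Γ G v → p (w * GP.of Γ G v s) = p w * s
  far : ∀ w (s : G v), w ∉ St Γ G v → p (w * GP.of Γ G v s) = p w
  other : ∀ w (u : V) (s : G u), u ≠ v → p (w * GP.of Γ G u s) = p w

/-- The half spaces of the graph product: the translates of the preimages of the half spaces of
the vertex groups. -/
def gpFam {V : Type} {Γ : SimpleGraph V} {G : V → Type} [∀ v, Group (G v)]
    (p : ∀ v, GP Γ G → G v) (𝓗 : ∀ v, Set (Set (G v))) : Set (Set (GP Γ G)) :=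
  {B | ∃ (g : GP Γ G) (v : V), ∃ A ∈ 𝓗 v, B = tr g (p v ⁻¹' A)}

/-- The generating set of the graph product. -/
def gpGen {V : Type} (Γ : SimpleGraph V) {G : V → Type} [∀ v, Group (G v)]
    (S : ∀ v, Set (G v)) : Set (GP Γ G) :=
  {x | ∃ (v : V), ∃ s ∈ S v, x = GP.of Γ G v s}

/-- The product of a list of syllables. -/
def gprod {V : Type} (Γ : SimpleGraph V) (G : V → Type) [∀ v, Group (G v)]
    (L : List (Σ v, G v)) : GP Γ G :=
  (L.map fun x => GP.of Γ G x.1 x.2).prod

/-- The word `L` is as short as possible. -/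
def MinWord {V : Type} (Γ : SimpleGraph V) (G : V → Type) [∀ v, Group (G v)]
    (L : List (Σ v, G v)) : Prop :=
  ∀ L' : List (Σ v, G v), gprod Γ G L' = gprod Γ G L → L.length ≤ L'.length

end LibCW70
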