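import Pool.Agent.LibCW70.B0

set_option autoImplicit false

/-! # Board CW70: further definitions (covered vertices of graph products) -/

namespace LibCW70

/-- `G` has half spaces with finite, not empty frontiers, each `g ≠ 1` is separated from `1`
(for instance the infinite cyclic group). -/
def FinWalls (G : Type) [Group G] : Prop :=
  ∃ (S : Set G) (𝓗 : Set (Set G)), WallG S 𝓗 ∧ (∀ g : G, g ≠ 1 → (Sep 𝓗 g).Nonempty) ∧
    ∀ A ∈ 𝓗, (Fr S A).Finite ∧ (Fr S A).Nonempty

/-- The vertex `u` covers the vertex `v`: they are different and not adjacent, and each neighbour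
of `v` is a neighbour of `u`. -/
def Cov {V : Type} (Γ : SimpleGraph V) (v u : V) : Prop :=
  u ≠ v ∧ ¬ Γ.Adj v u ∧ ∀ w, Γ.Adj v w → Γ.Adj u w

end LibCW70
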