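import Pool.Agent.LibCW70.B0
import Pool.Agent.LibCE75.A1
import Pool.Agent.LibCE75.A2

set_option autoImplicit false

/-!
# Board CW70, row GA (MEDIUM).  MP_6fa1a0_gt (cell-like equivalence of CAT(0) boundaries)
Chair: helper70.  Deliver the whole file as CW70_GA.lean (team-store put), statements unchanged,
auxiliary lemmas private (names starting with GA_), no sorry, no axiom, no straight double quotation mark.

The distance to a closed convex set is convex.
PLAN. infDist_cvx: for eps > 0 take a, b in H with dist x a < infDist x H + eps, dist y b < infDist y H + eps (Metric.infDist_lt_iff hH.ne). The point w on the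
geodesic from a to b with dist a w = s * dist a b, dist w b = (1-s) * dist a b (hX.geodesic a b, parameter s * dist a b) is in H (hH.cvx, Btw), and
convex_dist (LibCE75.A1, with x := x, y := y, x' := a, y' := b, z := z, z' := w) gives dist z w <= (1-s) dist x a + s dist y b. Then infDist_le_dist_of_mem, eps -> 0
(le_of_forall_pos_le_add). infDist_btw: if dist x y = 0 then z = x; else s = dist x z / dist x y (see a2_ratio in LibCE75.A2 for the arithmetic).
cc_common: closed: intersection of the closed sets {y | infDist y (H i) <= D} (continuous_infDist_pt, isClosed_le); convex: infDist_btw. cc_nhd: the same; nonempty: H itself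
(infDist_zero_of_mem).
-/

namespace LibCW70

open Set Metric Topology Filter LibCE75
open scoped NNReal

private theorem GA_ratio {X : Type} [MetricSpace X] {x y z : X} (h : Btw x z y)
    (hd : 0 < dist x y) : dist x z / dist x y ∈ Icc (0 : ℝ) 1 ∧
      dist x z = dist x z / dist x y * dist x y ∧
      dist z y = (1 - dist x z / dist x y) * dist x y := by
  unfold LibCE75.Btw at h
  have h1 : dist x z ≤ dist x y := by linarith [dist_nonneg (x := z) (y := y)]
  have h2 : dist x z = dist x z / dist x y * dist x y := by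
    field_simp
  refine ⟨⟨div_nonneg dist_nonneg dist_nonneg, (div_le_one hd).2 h1⟩, h2, ?_⟩
  rw [sub_mul, ← h2]
  linarith

theorem infDist_cvx {X : Type} [MetricSpace X] (hX : IsCAT0 X) {H : Set X} (hH : CC H)
    {x y z : X} {s : ℝ} (hs : s ∈ Icc (0 : ℝ) 1) (h1 : dist x z = s * dist x y)
    (h2 : dist z y = (1 - s) * dist x y) :
    infDist z H ≤ (1 - s) * infDist x H + s * infDist y H := by
  apply le_of_forall_pos_le_add
  intro ε hε
  obtain ⟨a, ha, ha'⟩ := (infDist_lt_iff hH.ne).1
    (show infDist x H < infDist x H + ε by linarith)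
  obtain ⟨b, hb, hb'⟩ := (infDist_lt_iff hH.ne).1
    (show infDist y H < infDist y H + ε by linarith)
  obtain ⟨γ, g0, g1, g2⟩ := hX.geodesic a b
  have hd : 0 ≤ dist a b := dist_nonneg
  have hs0 := hs.1
  have hs1 : 0 ≤ 1 - s := by linarith [hs.2]
  have hm : s * dist a b ∈ Icc (0 : ℝ) (dist a b) :=
    ⟨mul_nonneg hs0 hd, mul_le_of_le_one_left hd hs.2⟩
  have e1 : dist a (γ (s * dist a b)) = s * dist a b := by
    have := g2 0 ⟨le_refl _, hd⟩ _ hm
    rw [g0, zero_sub, abs_neg, abs_of_nonneg hm.1] at this
    exact this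
  have e2 : dist (γ (s * dist a b)) b = (1 - s) * dist a b := by
    have := g2 _ hm (dist a b) ⟨hd, le_refl _⟩
    rw [g1, abs_sub_comm, abs_of_nonneg (sub_nonneg.2 hm.2)] at this
    rw [this]
    ring
  have hw : γ (s * dist a b) ∈ H := by
    apply hH.cvx a ha b hb
    unfold LibCE75.Btw
    rw [e1, e2]
    ring
  have h5 := convex_dist hX x y a b z (γ (s * dist a b)) s hs h1 h2 e1 e2
  have h6 := infDist_le_dist_of_mem (x := z) hw
  have h7 := mul_le_mul_of_nonneg_left ha'.le hs1
  have h8 := mul_le_mul_of_nonneg_left hb'.le hs0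
  nlinarith

theorem infDist_btw {X : Type} [MetricSpace X] (hX : IsCAT0 X) {H : Set X} (hH : CC H)
    {x y z : X} (h : Btw x z y) : infDist z H ≤ max (infDist x H) (infDist y H) := by
  rcases (dist_nonneg (x := x) (y := y)).eq_or_lt with h0 | h0
  · have h1 : dist x z = 0 := by
      unfold LibCE75.Btw at h
      linarith [dist_nonneg (x := z) (y := y), dist_nonneg (x := x) (y := z)]
    rw [← dist_eq_zero.1 h1]
    exact le_max_left _ _
  · obtain ⟨hs, h1, h2⟩ := GA_ratio h h0
    have h5 := infDist_cvx hX hH hs h1 h2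
    have h6 := le_max_left (infDist x H) (infDist y H)
    have h7 := le_max_right (infDist x H) (infDist y H)
    have h8 : 0 ≤ 1 - dist x z / dist x y := by linarith [hs.2]
    have h9 := mul_le_mul_of_nonneg_left h6 h8
    have h10 := mul_le_mul_of_nonneg_left h7 hs.1
    linarith

theorem cc_nhd {X : Type} [MetricSpace X] (hX : IsCAT0 X) {H : Set X} (hH : CC H) {D : ℝ}
    (hD : 0 ≤ D) : CC {x | infDist x H ≤ D} := by
  refine ⟨?_, isClosed_le (continuous_infDist_pt H) continuous_const, ?_⟩
  · obtain ⟨a, ha⟩ := hH.ne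
    exact ⟨a, by show infDist a H ≤ D; rw [infDist_zero_of_mem ha]; exact hD⟩
  · intro x hx y hy z hz
    exact (infDist_btw hX hH hz).trans (max_le hx hy)

theorem cc_common {X I : Type} [MetricSpace X] (hX : IsCAT0 X) (H : I → Set X)
    (hH : ∀ i, CC (H i)) (D : ℝ) (T : Set I) (hne : ∃ y, ∀ i ∈ T, infDist y (H i) ≤ D) :
    CC {y | ∀ i ∈ T, infDist y (H i) ≤ D} := by
  refine ⟨hne, ?_, ?_⟩
  · have : {y | ∀ i ∈ T, infDist y (H i) ≤ D} = ⋂ i ∈ T, {y | infDist y (H i) ≤ D} := by
      ext y
      simp
    rw [this]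
    exact isClosed_biInter fun i _ =>
      isClosed_le (continuous_infDist_pt (H i)) continuous_const
  · intro x hx y hy z hz i hi
    exact (infDist_btw hX (hH i) hz).trans (max_le (hx i hi) (hy i hi))

end LibCW70
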