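import Pool.Agent.LibCW70.GA

set_option autoImplicit false

/-!
# Board CW70, row GB (MEDIUM).  MP_6fa1a0_gt (cell-like equivalence of CAT(0) boundaries)
Chair: helper70.  Deliver the whole file as CW70_GB.lean (team-store put), statements unchanged,
auxiliary lemmas private (names starting with GB_), no sorry, no axiom, no straight double quotation mark.

The distance along a ray to a closed convex set: bounded by its value at 0, or tends to infinity.
PLAN. Let phi t = infDist (c.1 t) H. For 0 < a <= b (in NNReal) infDist_cvx with x = c 0 = x₀, y = c b, z = c a, s = a/b gives phi a <= (1 - a/b) phi 0 + (a/b) phi b, that is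
phi b >= phi 0 + (b/a) (phi a - phi 0). (dist (c s) (c t) = |s - t|: c.2.2.) So if phi a > phi 0 for some a, phi tends to infinity
(tendsto_atTop_mono', NNReal.tendsto_coe_atTop) and is not bounded. lim_le: by contradiction. tendsto_of_not_lim: if phi a <= phi 0 for all a then c is in Lim (C = phi 0).
-/

namespace LibCW70

open Set Metric Topology Filter LibCE75
open scoped NNReal

private theorem GB_key {X : Type} [MetricSpace X] (hX : IsCAT0 X) {H : Set X} (hH : CC H)
    {x₀ : X} (c : Ray X x₀) {a b : ℝ≥0} (ha : 0 < a) (hab : a ≤ b) :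
    infDist x₀ H + (b : ℝ) * ((infDist (c.1 a) H - infDist x₀ H) / a) ≤ infDist (c.1 b) H := by
  have ha' : (0 : ℝ) < a := by exact_mod_cast ha
  have hab' : (a : ℝ) ≤ b := by exact_mod_cast hab
  have hb' : (0 : ℝ) < b := ha'.trans_le hab'
  have d0b : dist x₀ (c.1 b) = b := by
    have h := c.2.2 0 b
    rw [c.2.1] at h
    rw [h, NNReal.coe_zero, zero_sub, abs_neg, abs_of_pos hb']
  have d0a : dist x₀ (c.1 a) = a := by
    have h := c.2.2 0 a
    rw [c.2.1] at h
    rw [h, NNReal.coe_zero, zero_sub, abs_neg, abs_of_pos ha']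
  have dab : dist (c.1 a) (c.1 b) = b - a := by
    rw [c.2.2, abs_sub_comm, abs_of_nonneg (sub_nonneg.2 hab')]
  have hs : (a : ℝ) / b ∈ Icc (0 : ℝ) 1 :=
    ⟨by positivity, (div_le_one hb').2 hab'⟩
  have h := infDist_cvx hX hH (x := x₀) (y := c.1 b) (z := c.1 a) hs
    (by rw [d0a, d0b]; field_simp) (by rw [dab, d0b]; field_simp)
  have h2 : infDist (c.1 a) H * b ≤
      (b - a) * infDist x₀ H + a * infDist (c.1 b) H := by
    have h3 := mul_le_mul_of_nonneg_right h hb'.le
    have h4 : ((1 - (a : ℝ) / b) * infDist x₀ H + (a : ℝ) / b * infDist (c.1 b) H) * b =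
        (b - a) * infDist x₀ H + a * infDist (c.1 b) H := by
      field_simp
    linarith
  have h5 : (b : ℝ) * ((infDist (c.1 a) H - infDist x₀ H) / a) =
      (b * (infDist (c.1 a) H - infDist x₀ H)) / a := by ring
  rw [h5, ← le_sub_iff_add_le', div_le_iff₀ ha']
  nlinarith [h2]

theorem tendsto_of_lt {X : Type} [MetricSpace X] (hX : IsCAT0 X) {H : Set X} (hH : CC H)
    {x₀ : X} {c : Ray X x₀} {t : ℝ≥0} (h : infDist x₀ H < infDist (c.1 t) H) :
    Tendsto (fun t : ℝ≥0 => infDist (c.1 t) H) atTop atTop := by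
  have ht : 0 < t := by
    rcases eq_or_lt_of_le (show (0 : ℝ≥0) ≤ t from zero_le) with h0 | h0
    · subst h0
      have h1 : c.1 0 = x₀ := c.2.1
      rw [h1] at h
      exact absurd h (lt_irrefl _)
    · exact h0
  have ht' : (0 : ℝ) < t := by exact_mod_cast ht
  have hr : 0 < (infDist (c.1 t) H - infDist x₀ H) / t := div_pos (sub_pos.2 h) ht'
  have h1 : Tendsto (fun b : ℝ≥0 => infDist x₀ H +
      (b : ℝ) * ((infDist (c.1 t) H - infDist x₀ H) / t)) atTop atTop :=
    tendsto_atTop_add_const_left _ _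
      ((NNReal.tendsto_coe_atTop.2 tendsto_id).atTop_mul_const hr)
  refine tendsto_atTop_mono' _ ?_ h1
  filter_upwards [eventually_ge_atTop t] with b hb
  exact GB_key hX hH c ht hb

theorem lim_le {X : Type} [MetricSpace X] (hX : IsCAT0 X) {H : Set X} (hH : CC H)
    {x₀ : X} {c : Ray X x₀} (hc : c ∈ Lim x₀ H) (t : ℝ≥0) :
    infDist (c.1 t) H ≤ infDist x₀ H := by
  by_contra hlt
  obtain ⟨C, hC⟩ := hc
  obtain ⟨u, hu⟩ := ((tendsto_of_lt hX hH (not_le.1 hlt)).eventually_gt_atTop C).exists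
  exact absurd (hC u) (not_le.2 hu)

theorem tendsto_of_not_lim {X : Type} [MetricSpace X] (hX : IsCAT0 X) {H : Set X} (hH : CC H)
    {x₀ : X} {c : Ray X x₀} (hc : c ∉ Lim x₀ H) :
    Tendsto (fun t : ℝ≥0 => infDist (c.1 t) H) atTop atTop := by
  by_cases h : ∃ t : ℝ≥0, infDist x₀ H < infDist (c.1 t) H
  · obtain ⟨t, ht⟩ := h
    exact tendsto_of_lt hX hH ht
  · exact absurd ⟨infDist x₀ H, fun t => not_lt.1 fun ht => h ⟨t, ht⟩⟩ hc

end LibCW70
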