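import Pool.Agent.LibCW70.GB

set_option autoImplicit false

/-!
# Board CW70, row GC (SHORT).  MP_6fa1a0_gt (cell-like equivalence of CAT(0) boundaries)
Chair: helper70.  Deliver the whole file as CW70_GC.lean (team-store put), statements unchanged,
auxiliary lemmas private (names starting with GC_), no sorry, no axiom, no straight double quotation mark.

Limit sets are closed, cover the boundary, are independent of the base point.
PLAN. isClosed_lim: by lim_le, Lim x₀ H is the set of all c with infDist (c.1 t) H <= infDist x₀ H for all t: an intersection of closed sets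
(c |-> c.1 t is continuous: (continuous_apply t).comp continuous_subtype_val; continuous_infDist_pt). lim_cover: if not, both distances tend to infinity (tendsto_of_not_lim), so for
some t both are > 0 (eventually_gt_atTop), but c.1 t is in H or K (infDist_zero_of_mem). lim_iff_of_dist: infDist_le_infDist_add_dist.
-/

namespace LibCW70

open Set Metric Topology Filter LibCE75
open scoped NNReal

theorem isClosed_lim {X : Type} [MetricSpace X] (hX : IsCAT0 X) {H : Set X} (hH : CC H)
    (x₀ : X) : IsClosed (Lim x₀ H) := by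
  have h1 : Lim x₀ H = ⋂ t : ℝ≥0, {c : Ray X x₀ | infDist (c.1 t) H ≤ infDist x₀ H} := by
    ext c
    simp only [mem_iInter, mem_ofPred_eq]
    exact ⟨fun hc t => lim_le hX hH hc t, fun h => ⟨infDist x₀ H, h⟩⟩
  rw [h1]
  refine isClosed_iInter fun t => ?_
  have h2 : Continuous (fun c : Ray X x₀ => c.1 t) :=
    (continuous_apply t).comp continuous_subtype_val
  exact isClosed_le ((continuous_infDist_pt H).comp h2) continuous_const

theorem lim_cover {X : Type} [MetricSpace X] (hX : IsCAT0 X) {H K : Set X} (hH : CC H)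
    (hK : CC K) (hc : ∀ x, x ∈ H ∨ x ∈ K) {x₀ : X} (c : Ray X x₀) :
    c ∈ Lim x₀ H ∨ c ∈ Lim x₀ K := by
  by_contra hno
  obtain ⟨h1, h2⟩ := not_or.1 hno
  have h3 := (tendsto_of_not_lim hX hH h1).eventually_gt_atTop 0
  have h4 := (tendsto_of_not_lim hX hK h2).eventually_gt_atTop 0
  obtain ⟨t, ht1, ht2⟩ := (h3.and h4).exists
  rcases hc (c.1 t) with h | h
  · rw [infDist_zero_of_mem h] at ht1
    exact lt_irrefl _ ht1
  · rw [infDist_zero_of_mem h] at ht2
    exact lt_irrefl _ ht2

theorem lim_iff_of_dist {X : Type} [MetricSpace X] {H : Set X} {x y : X} (C : ℝ) (c : Ray X x)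
    (c' : Ray X y) (h : ∀ t : ℝ≥0, dist (c.1 t) (c'.1 t) ≤ C) : c ∈ Lim x H ↔ c' ∈ Lim y H := by
  constructor
  · rintro ⟨D, hD⟩
    refine ⟨D + C, fun t => ?_⟩
    have h1 : infDist (c'.1 t) H ≤ infDist (c.1 t) H + dist (c'.1 t) (c.1 t) :=
      infDist_le_infDist_add_dist
    rw [dist_comm] at h1
    linarith [hD t, h t]
  · rintro ⟨D, hD⟩
    refine ⟨D + C, fun t => ?_⟩
    have h1 : infDist (c.1 t) H ≤ infDist (c'.1 t) H + dist (c.1 t) (c'.1 t) :=
      infDist_le_infDist_add_dist
    linarith [hD t, h t]

end LibCW70
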