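import Pool.Agent.LibCW70.B0
import Pool.Agent.LibCE75.A2
import Pool.Agent.LibCE75.B2

set_option autoImplicit false

/-!
# Board CW70, row GF (MEDIUM).  MP_6fa1a0_gt (cell-like equivalence of CAT(0) boundaries)
Chair: helper70.  Deliver the whole file as CW70_GF.lean (team-store put), statements unchanged,
auxiliary lemmas private (names starting with GF_), no sorry, no axiom, no straight double quotation mark.

Continuity of the inclusion of X in its compactification and of the evaluation of rays.
PLAN. continuous_pt: topology of Xbar = pointwise (tendsto_xbar_iff in LibCE75.B2 or Continuous.subtype_mk, continuous_pi): for each t the map y |-> seg hX x₀ y t is 2-Lipschitz: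
let a = dist x₀ y <= b = dist x₀ z (wlog). If t <= a: seg_seg_le (LibCE75.A2) gives dist * a <= 2 t dist y z <= 2 a dist y z, divide (if a = 0 then both points are x₀: dist_left_seg).
If a <= t: seg hX x₀ y t = y (dist (seg ..) y = 0 by dist_seg_right), and dist (seg hX x₀ z t) z = b - min t b <= b - a <= dist y z, so dist <= 2 dist y z.
continuous_eval: dist (c.1 t) (c₀.1 t₀) <= |t - t₀| + dist (c.1 t₀) (c₀.1 t₀); the second summand tends to 0 by pointwise convergence
(Metric.tendsto / continuous_iff_continuousAt, or use that rays are 1-Lipschitz).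
-/

namespace LibCW70

open Set Metric Topology Filter LibCE75
open scoped NNReal

private theorem GF_aux {X : Type} [MetricSpace X] (hX : IsCAT0 X) (x₀ y z : X) (t : ℝ≥0)
    (hab : dist x₀ y ≤ dist x₀ z) : dist (seg hX x₀ y t) (seg hX x₀ z t) ≤ 2 * dist y z := by
  have ht0 : (0 : ℝ) ≤ t := t.2
  have hd : 0 ≤ dist y z := dist_nonneg
  rcases le_total (t : ℝ) (dist x₀ y) with h | h
  · rcases (dist_nonneg (x := x₀) (y := y)).eq_or_lt with h0 | h0
    · have h1 := dist_left_seg hX x₀ y t
      have h2 := dist_left_seg hX x₀ z t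
      have ht : (t : ℝ) = 0 := le_antisymm (h.trans h0.symm.le) ht0
      rw [ht, min_eq_left dist_nonneg] at h1
      rw [ht, min_eq_left dist_nonneg] at h2
      have h3 := dist_triangle_left (seg hX x₀ y t) (seg hX x₀ z t) x₀
      rw [h1, h2] at h3
      linarith
    · have h1 := seg_seg_le hX x₀ y z t h (h.trans hab)
      have h2 : 2 * (t : ℝ) * dist y z ≤ 2 * dist x₀ y * dist y z :=
        mul_le_mul_of_nonneg_right (by linarith) hd
      have h3 : dist (seg hX x₀ y t) (seg hX x₀ z t) * dist x₀ y ≤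
          (2 * dist y z) * dist x₀ y := by linarith
      exact le_of_mul_le_mul_right h3 h0
  · have h1 : seg hX x₀ y t = y := by
      have h2 := dist_seg_right hX x₀ y t
      rw [min_eq_right h, sub_self] at h2
      exact dist_eq_zero.1 h2
    have h3 := dist_seg_right hX x₀ z t
    have h4 : dist x₀ z ≤ dist x₀ y + dist y z := dist_triangle _ _ _
    have h5 : dist x₀ z - min (t : ℝ) (dist x₀ z) ≤ dist y z := by
      rcases le_total (t : ℝ) (dist x₀ z) with h6 | h6
      · rw [min_eq_left h6]
        linarith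
      · rw [min_eq_right h6, sub_self]
        exact hd
    rw [h1]
    have h7 := dist_triangle_right y (seg hX x₀ z t) z
    linarith

private theorem GF_lip {X : Type} [MetricSpace X] (hX : IsCAT0 X) (x₀ y z : X) (t : ℝ≥0) :
    dist (seg hX x₀ y t) (seg hX x₀ z t) ≤ 2 * dist y z := by
  rcases le_total (dist x₀ y) (dist x₀ z) with h | h
  · exact GF_aux hX x₀ y z t h
  · rw [dist_comm, dist_comm y z]
    exact GF_aux hX x₀ z y t h

theorem continuous_pt {X : Type} [MetricSpace X] (hX : IsCAT0 X) (x₀ : X) :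
    Continuous (pt hX x₀) := by
  rw [continuous_iff_continuousAt]
  intro y
  refine (tendsto_xbar_iff (pt hX x₀) (pt hX x₀ y)).2 fun t => ?_
  have hl : LipschitzWith 2 (fun z : X => seg hX x₀ z t) :=
    LipschitzWith.of_dist_le_mul fun z w => by
      have := GF_lip hX x₀ z w t
      simpa using this
  exact hl.continuous.tendsto y

theorem continuous_eval {X : Type} [MetricSpace X] (x₀ : X) :
    Continuous (fun q : Ray X x₀ × ℝ≥0 => q.1.1 q.2) := by
  rw [continuous_iff_continuousAt]
  rintro ⟨c₀, t₀⟩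
  have h1 : Tendsto (fun c : Ray X x₀ => c.1 t₀) (𝓝 c₀) (𝓝 (c₀.1 t₀)) :=
    (tendsto_ray_iff (fun c : Ray X x₀ => c) c₀).1 tendsto_id t₀
  have h2 : Tendsto (fun q : Ray X x₀ × ℝ≥0 => dist (q.1.1 t₀) (c₀.1 t₀)) (𝓝 (c₀, t₀)) (𝓝 0) :=
    tendsto_iff_dist_tendsto_zero.1 (h1.comp (continuous_fst.tendsto (c₀, t₀)))
  have h3 : Tendsto (fun q : Ray X x₀ × ℝ≥0 => dist q.2 t₀) (𝓝 (c₀, t₀)) (𝓝 0) :=
    tendsto_iff_dist_tendsto_zero.1 (continuous_snd.tendsto (c₀, t₀))
  refine tendsto_iff_dist_tendsto_zero.2 (squeeze_zero (fun _ => dist_nonneg) (fun q => ?_)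
    (by simpa using h3.add h2))
  have h4 := dist_triangle (q.1.1 q.2) (q.1.1 t₀) (c₀.1 t₀)
  have h5 : dist (q.1.1 q.2) (q.1.1 t₀) = dist q.2 t₀ := q.1.2.2 q.2 t₀
  rw [h5] at h4
  exact h4

end LibCW70
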