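import Pool.Agent.LibCW70.B0
import Pool.Agent.LibCE75.A2
import Pool.Agent.LibCE75.B2

set_option autoImplicit false

/-!
# Board CW70, row GG1.  MP_6fa1a0_gt (cell-like equivalence of CAT(0) boundaries)
A point of the compactification is a point of X or a ray.
-/

namespace LibCW70

open Set Metric Topology Filter LibCE75
open scoped NNReal

theorem xbar_cases {X : Type} [MetricSpace X] (hX : IsCAT0 X) {x₀ : X} (b : Xbar X x₀) :
    (∃ y : X, b = pt hX x₀ y) ∨ ∃ c : Ray X x₀, b = c.toXbar := by
  by_cases hall : ∀ t : ℝ≥0, dist x₀ (b.1 t) = t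
  · exact Or.inr (exists_ray b hall)
  · left
    push Not at hall
    obtain ⟨t, ht⟩ := hall
    have hlt : dist x₀ (b.1 t) < t := by
      have h1 := (b.2 t t le_rfl).1
      have h2 : dist x₀ (b.1 t) ≤ t := by
        rw [h1]; exact min_le_left _ _
      exact lt_of_le_of_ne h2 ht
    obtain ⟨y, hy⟩ : ∃ y : X, y = b.1 t := ⟨_, rfl⟩
    rw [← hy] at hlt
    refine ⟨y, Subtype.ext (funext fun s => ?_)⟩
    show b.1 s = seg hX x₀ y s
    have hseg : LibCE75.Btw x₀ (seg hX x₀ y s) y := by
      unfold LibCE75.Btw
      rw [dist_left_seg, dist_seg_right]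
      ring
    rcases le_total s t with hst | hst
    · obtain ⟨h1, h2⟩ := b.2 s t hst
      rw [← hy] at h1 h2
      refine btw_unique hX ?_ hseg ?_
      · unfold LibCE75.Btw
        rw [h2]; ring
      · rw [h1, dist_left_seg]
    · obtain ⟨h1, h2⟩ := b.2 t s hst
      rw [← hy] at h1 h2
      have hst' : (t : ℝ) ≤ s := hst
      have h3 : dist x₀ (b.1 s) = dist x₀ y := by
        rcases le_total (t : ℝ) (dist x₀ (b.1 s)) with h | h
        · rw [min_eq_left h] at h1
          linarith
        · rw [min_eq_right h] at h1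
          exact h1.symm
      have h4 : b.1 s = y := by
        rw [h3, sub_self] at h2
        exact (dist_eq_zero.1 h2).symm
      rw [h4]
      refine btw_unique hX ?_ hseg ?_
      · unfold LibCE75.Btw
        rw [dist_self, add_zero]
      · rw [dist_left_seg, min_eq_right (by linarith)]

end LibCW70
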