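import Pool.Agent.LibCW70.B0
import Pool.Agent.LibCE75.A2
import Pool.Agent.LibCE75.B2

set_option autoImplicit false

/-!
# Board CW70, row GG2 (MEDIUM).  MP_6fa1a0_gt (cell-like equivalence of CAT(0) boundaries)
Chair: helper70.  Deliver the whole file as CW70_GG2.lean (team-store put), statements unchanged,
auxiliary lemmas private (names starting with GG2_), no sorry, no axiom, no straight double quotation mark.

The closure of a closed set Y in the compactification meets X in Y.
PLAN. Closure = limit along a filter (mem_closure_iff_clusterPt, or mem_closure_iff_nhds: every neighbourhood of pt y meets pt (image) Y). The sets {b | dist (b.1 T) y' < eps} are open (evaluation at T is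
continuous). Put T = dist x₀ y + 1 (NNReal), (pt hX x₀ y).1 T = y (dist_seg_right). For eps in (0,1) there is z in Y with dist ((pt hX x₀ z).1 T) y < eps: then
min T (dist x₀ z) = dist x₀ ((pt z).1 T) < dist x₀ y + 1 = T so dist x₀ z < T and (pt z).1 T = z (dist_seg_right = 0), dist z y < eps. So y is in closure Y = Y.
-/

namespace LibCW70

open Set Metric Topology Filter LibCE75
open scoped NNReal

theorem mem_of_pt_mem_closure {X : Type} [MetricSpace X] (hX : IsCAT0 X) {x₀ : X} {Y : Set X}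
    (hY : IsClosed Y) {y : X} (h : pt hX x₀ y ∈ closure (pt hX x₀ '' Y)) : y ∈ Y := by
  have hT0 : (0 : ℝ) ≤ dist x₀ y + 1 := by
    have := dist_nonneg (x := x₀) (y := y)
    linarith
  obtain ⟨T, hT⟩ : ∃ T : ℝ≥0, (T : ℝ) = dist x₀ y + 1 := ⟨⟨dist x₀ y + 1, hT0⟩, rfl⟩
  have hyT : (pt hX x₀ y).1 T = y := by
    have h1 : dist ((pt hX x₀ y).1 T) y = dist x₀ y - min (T : ℝ) (dist x₀ y) :=
      dist_seg_right hX x₀ y T
    rw [hT, min_eq_right (by linarith), sub_self] at h1
    exact dist_eq_zero.1 h1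
  have hne : NeBot (𝓝[pt hX x₀ '' Y] (pt hX x₀ y)) := mem_closure_iff_nhdsWithin_neBot.1 h
  have hid : Tendsto (fun b : Xbar X x₀ => b) (𝓝[pt hX x₀ '' Y] (pt hX x₀ y))
      (𝓝 (pt hX x₀ y)) := tendsto_id.mono_left nhdsWithin_le_nhds
  have hev := (tendsto_xbar_iff _ _).1 hid T
  rw [hyT] at hev
  rw [← hY.closure_eq, Metric.mem_closure_iff]
  intro ε hε
  have h2 : ∀ᶠ b : Xbar X x₀ in 𝓝[pt hX x₀ '' Y] (pt hX x₀ y), dist (b.1 T) y < min ε 1 :=
    hev (Metric.ball_mem_nhds y (lt_min hε one_pos))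
  obtain ⟨b, hb1, hb2⟩ := (h2.and self_mem_nhdsWithin).exists
  obtain ⟨z, hz, rfl⟩ := hb2
  have h3 : dist x₀ ((pt hX x₀ z).1 T) = min (T : ℝ) (dist x₀ z) := dist_left_seg hX x₀ z T
  have h4 : dist ((pt hX x₀ z).1 T) z = dist x₀ z - min (T : ℝ) (dist x₀ z) :=
    dist_seg_right hX x₀ z T
  have h5 : dist x₀ ((pt hX x₀ z).1 T) ≤ dist x₀ y + dist y ((pt hX x₀ z).1 T) :=
    dist_triangle _ _ _
  have h6 : dist ((pt hX x₀ z).1 T) y < 1 := hb1.trans_le (min_le_right _ _)
  have h7 : dist ((pt hX x₀ z).1 T) y < ε := hb1.trans_le (min_le_left _ _)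
  rw [dist_comm] at h6
  have h8 : min (T : ℝ) (dist x₀ z) < T := by rw [← h3, hT]; linarith
  have h9 : dist x₀ z < T := by
    rcases min_lt_iff.1 h8 with h | h
    · exact absurd h (lt_irrefl _)
    · exact h
  rw [min_eq_right h9.le, sub_self] at h4
  have h10 : (pt hX x₀ z).1 T = z := dist_eq_zero.1 h4
  rw [h10] at h7
  exact ⟨z, hz, by rw [dist_comm]; exact h7⟩

end LibCW70
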