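import Pool.Agent.LibCW70.GA
import Pool.Agent.LibCE75.B2

set_option autoImplicit false

/-!
# Board CW70, row GG3 (MEDIUM).  MP_6fa1a0_gt (cell-like equivalence of CAT(0) boundaries)
Chair: helper70.  Deliver the whole file as CW70_GG3.lean (team-store put), statements unchanged,
auxiliary lemmas private (names starting with GG3_), no sorry, no axiom, no straight double quotation mark.

Limit rays of a set near to H are in the limit set of H.
PLAN. For t fixed and y in Y: (pt hX x₀ y).1 t = seg hX x₀ y t is between x₀ and y (dist_left_seg, dist_seg_right), so by infDist_btw infDist (seg hX x₀ y t) H <= max (infDist x₀ H) D =: C.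
So pt (image) Y is contained in the closed set {b : Xbar | infDist (b.1 t) H <= C} (evaluation is continuous), closure_minimal; so infDist (c.1 t) H <= C for all t (c.toXbar.1 = c.1 by rfl).
-/

namespace LibCW70

open Set Metric Topology Filter LibCE75
open scoped NNReal

theorem lim_of_mem_closure {X : Type} [MetricSpace X] (hX : IsCAT0 X) {x₀ : X} {H Y : Set X}
    (hH : CC H) {D : ℝ} (hY : ∀ y ∈ Y, infDist y H ≤ D) {c : Ray X x₀}
    (h : c.toXbar ∈ closure (pt hX x₀ '' Y)) : c ∈ Lim x₀ H := by
  refine ⟨max (infDist x₀ H) D, fun t => ?_⟩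
  have hcl : IsClosed {b : Xbar X x₀ | infDist (b.1 t) H ≤ max (infDist x₀ H) D} := by
    have ht : Continuous fun b : Xbar X x₀ => b.1 t :=
      (continuous_apply t).comp continuous_subtype_val
    exact isClosed_le ((continuous_infDist_pt H).comp ht) continuous_const
  have hsub : pt hX x₀ '' Y ⊆ {b : Xbar X x₀ | infDist (b.1 t) H ≤ max (infDist x₀ H) D} := by
    rintro _ ⟨y, hy, rfl⟩
    have hb : LibCE75.Btw x₀ (seg hX x₀ y t) y := by
      unfold LibCE75.Btw
      rw [dist_left_seg, dist_seg_right]
      ring
    exact (infDist_btw hX hH hb).trans (max_le_max_left _ (hY y hy))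
  exact closure_minimal hsub hcl h

end LibCW70
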