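import Pool.Agent.LibCW70.GF
import Pool.Agent.LibCE75.B3
import Pool.Agent.LibCE75.B5

set_option autoImplicit false

/-!
# Board CW70, row GH (MEDIUM/LONG).  MP_6fa1a0_gt (cell-like equivalence of CAT(0) boundaries)
Chair: helper70.  Deliver the whole file as CW70_GH.lean (team-store put), statements unchanged,
auxiliary lemmas private (names starting with GH_), no sorry, no axiom, no straight double quotation mark.

The boundary contracts in the compactification along the rays from a point y.
PLAN. h (s, c) = pt hX x₀ ((b c).1 (1/s - 1)) for s > 0 (parameter in NNReal: Real.toNNReal (1/s - 1)), h (0, c) = c.toXbar. h (1, c) = pt hX x₀ ((b c).1 0) = pt hX x₀ y ((b c).2.1).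
Continuity at (s₀, c₀), s₀ > 0: near (s₀, c₀) h is the composition of (s,c) |-> (b c, toNNReal (1/s-1)) (continuous at s₀ <> 0), continuous_eval and continuous_pt (use ContinuousAt.congr, eventually s <> 0).
At (0, c₀): Tendsto along nhds (0, c₀); split by s = 0 or s > 0 (for instance tendsto along the comap of the two sets, Tendsto.if' / tendsto sup of nhdsWithin; nhds = nhdsWithin s=0 sup nhdsWithin s<>0):
on s = 0 it is toXbar, continuous (toXbar_closedEmbedding in LibCE75.B1 or directly); on s > 0 use tendsto_pt (LibCE75.B3) with l = nhdsWithin (0,c₀) {q | q.1 <> 0}, y q = (b q.2).1 (tau q), xi q = q.2,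
tau q = toNNReal (1/q.1 - 1) -> infinity, C = dist x₀ y, since dist ((b c).1 t) (c.1 t) <= dist x₀ y (hb, dist_comm).
-/

namespace LibCW70

open Set Metric Topology Filter LibCE75
open scoped NNReal

theorem contraction {X : Type} [MetricSpace X] [ProperSpace X] (hX : IsCAT0 X) (x₀ y : X)
    (b : Ray X x₀ ≃ₜ Ray X y)
    (hb : ∀ (c : Ray X x₀) (t : ℝ≥0), dist (c.1 t) ((b c).1 t) ≤ dist x₀ y) :
    ∃ h : unitInterval × Ray X x₀ → Xbar X x₀, Continuous h ∧ (∀ c, h (0, c) = c.toXbar) ∧
      (∀ c, h (1, c) = pt hX x₀ y) ∧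
      ∀ (s : unitInterval) (c : Ray X x₀), s ≠ 0 → ∃ t : ℝ≥0, h (s, c) = pt hX x₀ ((b c).1 t) := by
  classical
  have hcp := continuous_pt hX x₀
  have hev := continuous_eval (X := X) y
  let τ : unitInterval → ℝ≥0 := fun s => Real.toNNReal (1 / (s : ℝ) - 1)
  let h : unitInterval × Ray X x₀ → Xbar X x₀ := fun q =>
    if q.1 = 0 then q.2.toXbar else pt hX x₀ ((b q.2).1 (τ q.1))
  have h0 : ∀ q : unitInterval × Ray X x₀, q.1 = 0 → h q = q.2.toXbar := fun q hq => if_pos hq
  have h1 : ∀ q : unitInterval × Ray X x₀, q.1 ≠ 0 →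
      h q = pt hX x₀ ((b q.2).1 (τ q.1)) := fun q hq => if_neg hq
  refine ⟨h, ?_, fun c => h0 (0, c) rfl, fun c => ?_, fun s c hs => ⟨τ s, h1 (s, c) hs⟩⟩
  · rw [continuous_iff_continuousAt]
    rintro ⟨s₀, c₀⟩
    by_cases hs : s₀ = 0
    · subst hs
      have hsplit : 𝓝 ((0 : unitInterval), c₀) =
          𝓝[{q : unitInterval × Ray X x₀ | q.1 = 0}] (0, c₀) ⊔
            𝓝[{q : unitInterval × Ray X x₀ | q.1 = 0}ᶜ] (0, c₀) := by
        rw [← nhdsWithin_union, Set.union_compl_self, nhdsWithin_univ]
      have hval : h (0, c₀) = c₀.toXbar := h0 (0, c₀) rfl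
      rw [ContinuousAt, hval, hsplit]
      refine Filter.Tendsto.sup ?_ ?_
      · have hc : Tendsto (fun q : unitInterval × Ray X x₀ => q.2.toXbar)
            (𝓝[{q : unitInterval × Ray X x₀ | q.1 = 0}] (0, c₀)) (𝓝 c₀.toXbar) :=
          (((toXbar_closedEmbedding x₀).continuous.comp continuous_snd).tendsto
            ((0 : unitInterval), c₀)).mono_left nhdsWithin_le_nhds
        refine hc.congr' ?_
        filter_upwards [self_mem_nhdsWithin] with q hq
        exact (h0 q hq).symm
      · have hξ : Tendsto (fun q : unitInterval × Ray X x₀ => q.2)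
            (𝓝[{q : unitInterval × Ray X x₀ | q.1 = 0}ᶜ] (0, c₀)) (𝓝 c₀) :=
          (continuous_snd.tendsto ((0 : unitInterval), c₀)).mono_left nhdsWithin_le_nhds
        have hτ : Tendsto (fun q : unitInterval × Ray X x₀ => τ q.1)
            (𝓝[{q : unitInterval × Ray X x₀ | q.1 = 0}ᶜ] (0, c₀)) atTop := by
          have e1 : Tendsto (fun q : unitInterval × Ray X x₀ => (q.1 : ℝ))
              (𝓝[{q : unitInterval × Ray X x₀ | q.1 = 0}ᶜ] (0, c₀)) (𝓝[>] 0) := by
            refine tendsto_nhdsWithin_iff.2 ⟨?_, ?_⟩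
            · have := ((continuous_subtype_val.comp continuous_fst).tendsto
                ((0 : unitInterval), c₀)).mono_left
                  (nhdsWithin_le_nhds (s := {q : unitInterval × Ray X x₀ | q.1 = 0}ᶜ))
              exact this
            · filter_upwards [self_mem_nhdsWithin] with q hq
              have hq' : q.1 ≠ 0 := hq
              exact unitInterval.pos_iff_ne_zero.2 hq'
          have e2 : Tendsto (fun q : unitInterval × Ray X x₀ => 1 / (q.1 : ℝ) - 1)
              (𝓝[{q : unitInterval × Ray X x₀ | q.1 = 0}ᶜ] (0, c₀)) atTop := by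
            have e3 := tendsto_inv_nhdsGT_zero.comp e1
            have e4 := tendsto_atTop_add_const_right _ (-1 : ℝ) e3
            refine e4.congr fun q => ?_
            simp only [Function.comp_apply, one_div]
            ring
          exact tendsto_real_toNNReal_atTop.comp e2
        have key := tendsto_pt hX (y := fun q : unitInterval × Ray X x₀ => (b q.2).1 (τ q.1))
          (ξ := fun q : unitInterval × Ray X x₀ => q.2) (τ := fun q => τ q.1) (ξ₀ := c₀)
          (C := dist x₀ y) (l := 𝓝[{q : unitInterval × Ray X x₀ | q.1 = 0}ᶜ] (0, c₀)) hξ hτ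
          (Eventually.of_forall fun q => by rw [dist_comm]; exact hb q.2 (τ q.1))
        refine key.congr' ?_
        filter_upwards [self_mem_nhdsWithin] with q hq
        exact (h1 q hq).symm
    · have hne : ∀ᶠ q : unitInterval × Ray X x₀ in 𝓝 (s₀, c₀), q.1 ≠ 0 :=
        (continuous_fst.tendsto (s₀, c₀)).eventually_ne hs
      have hs' : (s₀ : ℝ) ≠ 0 := fun e => hs (Subtype.ext e)
      have e1 : ContinuousAt (fun q : unitInterval × Ray X x₀ => 1 / (q.1 : ℝ) - 1) (s₀, c₀) := by
        refine ContinuousAt.sub (ContinuousAt.div continuousAt_const ?_ hs') continuousAt_const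
        exact (continuous_subtype_val.comp continuous_fst).continuousAt
      have e2 : ContinuousAt (fun q : unitInterval × Ray X x₀ => τ q.1) (s₀, c₀) :=
        continuous_real_toNNReal.continuousAt.comp e1
      have e3 : ContinuousAt (fun q : unitInterval × Ray X x₀ => (b q.2, τ q.1)) (s₀, c₀) :=
        (b.continuous.comp continuous_snd).continuousAt.prodMk e2
      have e4 : ContinuousAt (fun q : unitInterval × Ray X x₀ =>
          pt hX x₀ ((b q.2).1 (τ q.1))) (s₀, c₀) :=
        ContinuousAt.comp (g := fun r : Ray X y × ℝ≥0 => pt hX x₀ (r.1.1 r.2))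
          (f := fun q : unitInterval × Ray X x₀ => (b q.2, τ q.1))
          (hcp.comp hev).continuousAt e3
      refine e4.congr ?_
      filter_upwards [hne] with q hq
      exact (h1 q hq).symm
  · have e1 : h (1, c) = pt hX x₀ ((b c).1 (τ 1)) := h1 (1, c) one_ne_zero
    have e2 : τ 1 = 0 := by
      show Real.toNNReal (1 / ((1 : unitInterval) : ℝ) - 1) = 0
      simp
    rw [e1, e2, (b c).2.1]

end LibCW70
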