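import Pool.Agent.LibCW70.GG1
import Pool.Agent.LibCW70.GG2
import Pool.Agent.LibCW70.GG3
import Pool.Agent.LibCE75.B1

set_option autoImplicit false

/-!
# Board CW70, row GI1 (MEDIUM).  MP_6fa1a0_gt (cell-like equivalence of CAT(0) boundaries)
Chair: helper70.  Deliver the whole file as CW70_GI1.lean (team-store put), statements unchanged,
auxiliary lemmas private (names starting with GI1_), no sorry, no axiom, no straight double quotation mark.

Compactness: the closures of the sets Y_T shrink to the common limit set.
PLAN. Y T = {y | for i in T, infDist y (H i) <= D}, K T = closure (pt (image) Y T): closed in the compact space Xbar X x₀ (xbar_compact), antitone in T. The intersection of all K T is in U: a point b of it is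
pt y or a ray (xbar_cases). If b = pt y: y is in Y T for all T (Y T is closed: cc_common in GA; mem_of_pt_mem_closure), so infDist y (H i) <= D for all i (T = {i}): contradiction with hemp.
If b = c.toXbar: for each i, T = {i}: lim_of_mem_closure, so c is in Lim x₀ (H i) and hP. Compactness: the closed sets K T intersected with the complement of U are a directed
family with empty intersection (IsCompact.elim_directed_family_closed_of_isCompact_isClosed_empty / exists_subset_nhds_of_isCompact'; directed: T union T'; Finset I is nonempty: use classical DecidableEq).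
-/

namespace LibCW70

open Set Metric Topology Filter LibCE75
open scoped NNReal

theorem closure_subset_of_open {X I : Type} [MetricSpace X] [ProperSpace X] (hX : IsCAT0 X)
    (x₀ : X) (H : I → Set X) (hH : ∀ i, CC (H i)) (D : ℝ)
    (hne : ∀ T : Finset I, ∃ y, ∀ i ∈ T, infDist y (H i) ≤ D)
    (hemp : ¬ ∃ y, ∀ i, infDist y (H i) ≤ D) (U : Set (Xbar X x₀)) (hU : IsOpen U)
    (hP : ∀ c : Ray X x₀, (∀ i, c ∈ Lim x₀ (H i)) → c.toXbar ∈ U) :
    ∃ T : Finset I, closure (pt hX x₀ '' {y | ∀ i ∈ T, infDist y (H i) ≤ D}) ⊆ U := by
  classical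
  haveI : CompactSpace (Xbar X x₀) := xbar_compact x₀
  have hcap : (Uᶜ ∩ ⋂ T : Finset I,
      closure (pt hX x₀ '' {y | ∀ i ∈ T, infDist y (H i) ≤ D})) = ∅ := by
    rw [Set.eq_empty_iff_forall_notMem]
    rintro b ⟨hbU, hb⟩
    rw [mem_iInter] at hb
    rcases xbar_cases hX b with ⟨y, rfl⟩ | ⟨c, rfl⟩
    · refine hemp ⟨y, fun i => ?_⟩
      have hcc := cc_common hX H hH D (↑({i} : Finset I) : Set I) (by
        obtain ⟨z, hz⟩ := hne {i}
        exact ⟨z, fun j hj => hz j (Finset.mem_coe.1 hj)⟩)
      have h1 : pt hX x₀ y ∈ closure (pt hX x₀ ''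
          {y | ∀ j ∈ (↑({i} : Finset I) : Set I), infDist y (H j) ≤ D}) := by
        have h2 := hb {i}
        simpa only [Finset.mem_coe] using h2
      have h3 := mem_of_pt_mem_closure hX hcc.cl h1
      exact h3 i (by simp)
    · refine hbU (hP c fun i => ?_)
      refine lim_of_mem_closure hX (hH i) (Y := {y | ∀ j ∈ ({i} : Finset I), infDist y (H j) ≤ D})
        (D := D) (fun y hy => hy i (by simp)) (hb {i})
  obtain ⟨T, hT⟩ := hU.isClosed_compl.isCompact.elim_directed_family_closed
    (fun T : Finset I => closure (pt hX x₀ '' {y | ∀ i ∈ T, infDist y (H i) ≤ D}))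
    (fun T => isClosed_closure) hcap (by
      intro T T'
      refine ⟨T ∪ T', ?_, ?_⟩
      · exact closure_mono (image_mono fun y hy i hi => hy i (Finset.mem_union_left _ hi))
      · exact closure_mono (image_mono fun y hy i hi => hy i (Finset.mem_union_right _ hi)))
  refine ⟨T, fun b hb => ?_⟩
  by_contra hbU
  have : b ∈ (∅ : Set (Xbar X x₀)) := by
    rw [← hT]
    exact ⟨hbU, hb⟩
  exact this

end LibCW70
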