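import Pool.Agent.LibCW70.GI1
import Pool.Agent.LibCW70.GH
import Pool.Agent.LibCW70.GC

set_option autoImplicit false

/-!
# Board CW70, row GI2 (MEDIUM/LONG).  MP_6fa1a0_gt (cell-like equivalence of CAT(0) boundaries)
Chair: helper70.  Deliver the whole file as CW70_GI2.lean (team-store put), statements unchanged,
auxiliary lemmas private (names starting with GI2_), no sorry, no axiom, no straight double quotation mark.

The common limit set has the shape of a point.
PLAN. P = {c | for all i, c in Lim x₀ (H i)}. Compact: closed (isClosed_lim, isClosed_iInter) in the compact space Ray X x₀ (ray_compact in LibCE75.B1). Nonempty: otherwise closure_subset_of_open with U = empty set gives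
T with K_T empty, but Y_T is not empty (hne T). Embedding: Xbar X x₀ is compact metrizable (xbar_compact, xbar_metrizable), so it embeds in the Hilbert cube: search Mathlib for
exists_closed_embedding_to_hilbert_cube (Topology/MetricSpace/HausdorffAlexandroff or similar); E : Xbar -> (Nat -> unitInterval). e = E comp toXbar comp Subtype.val (embeddings compose;
toXbar_closedEmbedding). Given U open with range e in U: U' = preimage of U by E is open and contains all c.toXbar, c in P: closure_subset_of_open gives T with closure (pt (image) Y_T) in U'. Take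
y in Y_T (hne T), b from base_change (LibCE75.B5) for x₀, y, h from contraction (GH). Homotopy: (s, c) |-> E (h (s, c)), p = E (pt hX x₀ y). Values in U: for s = 0 it is c.toXbar, in U' by hP;
for s <> 0: h (s,c) = pt ((b c).1 t) and (b c).1 t is in Y_T: b c is in Lim y (H i) for each i (lim_iff_of_dist), so infDist ((b c).1 t) (H i) <= infDist y (H i) <= D (lim_le), so pt of it is in
pt (image) Y_T (subset_closure).
-/

namespace LibCW70

open Set Metric Topology Filter LibCE75
open scoped NNReal

private theorem GI2_cube (Z : Type) [TopologicalSpace Z] [CompactSpace Z]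
    [TopologicalSpace.MetrizableSpace Z] : ∃ F : Z → (ℕ → unitInterval), IsEmbedding F := by
  letI := TopologicalSpace.metrizableSpaceMetric Z
  exact Metric.PiNatEmbed.exists_embedding_to_hilbert_cube (X := Z)

theorem shape_common {X I : Type} [MetricSpace X] [ProperSpace X] (hX : IsCAT0 X)
    (x₀ : X) (H : I → Set X) (hH : ∀ i, CC (H i)) (D : ℝ)
    (hne : ∀ T : Finset I, ∃ y, ∀ i ∈ T, infDist y (H i) ≤ D)
    (hemp : ¬ ∃ y, ∀ i, infDist y (H i) ≤ D) :
    ShapeOfPoint ↥{c : Ray X x₀ | ∀ i, c ∈ Lim x₀ (H i)} := by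
  have hXc : CompactSpace (Xbar X x₀) := xbar_compact x₀
  have hXm : TopologicalSpace.MetrizableSpace (Xbar X x₀) := xbar_metrizable hX x₀
  have hRc : CompactSpace (Ray X x₀) := ray_compact x₀
  have hPcl : IsClosed {c : Ray X x₀ | ∀ i, c ∈ Lim x₀ (H i)} := by
    have : {c : Ray X x₀ | ∀ i, c ∈ Lim x₀ (H i)} = ⋂ i, Lim x₀ (H i) := by
      ext c
      constructor
      · intro h
        exact mem_iInter.2 h
      · intro h
        exact mem_iInter.1 h
    rw [this]
    exact isClosed_iInter fun i => isClosed_lim hX (hH i) x₀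
  refine ⟨isCompact_iff_compactSpace.mp hPcl.isCompact, ?_, ?_⟩
  · by_contra hcon
    have hno : ∀ c : Ray X x₀, (∀ i, c ∈ Lim x₀ (H i)) → c.toXbar ∈ (∅ : Set (Xbar X x₀)) :=
      fun c hc => (hcon ⟨⟨c, hc⟩⟩).elim
    obtain ⟨T, hT⟩ := closure_subset_of_open hX x₀ H hH D hne hemp ∅ isOpen_empty hno
    obtain ⟨y, hy⟩ := hne T
    exact hT (subset_closure ⟨y, hy, rfl⟩)
  · obtain ⟨E, hE⟩ := GI2_cube (Xbar X x₀)
    refine ⟨fun c => E (Ray.toXbar c.1), ?_, ?_⟩
    · exact hE.comp ((toXbar_closedEmbedding x₀).isEmbedding.comp IsEmbedding.subtypeVal)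
    · intro U hU hrange
      have hno : ∀ c : Ray X x₀, (∀ i, c ∈ Lim x₀ (H i)) → c.toXbar ∈ E ⁻¹' U :=
        fun c hc => hrange ⟨⟨c, hc⟩, rfl⟩
      obtain ⟨T, hT⟩ := closure_subset_of_open hX x₀ H hH D hne hemp (E ⁻¹' U)
        (hU.preimage hE.continuous) hno
      obtain ⟨y, hy⟩ := hne T
      obtain ⟨b, hb⟩ := base_change hX x₀ y
      obtain ⟨h, hcont, h0, h1, hs⟩ := contraction hX x₀ y b hb
      refine ⟨fun q => E (h (q.1, q.2.1)), E (pt hX x₀ y), ?_, ?_, ?_, ?_⟩
      · exact hE.continuous.comp (hcont.comp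
          (continuous_fst.prodMk (continuous_subtype_val.comp continuous_snd)))
      · intro c
        show E (h (0, c.1)) = E (Ray.toXbar c.1)
        rw [h0]
      · intro c
        show E (h (1, c.1)) = E (pt hX x₀ y)
        rw [h1]
      · rintro ⟨s, c⟩
        show E (h (s, c.1)) ∈ U
        by_cases hs0 : s = 0
        · rw [hs0, h0]
          exact hno c.1 c.2
        · obtain ⟨t, ht⟩ := hs s c.1 hs0
          rw [ht]
          refine hT (subset_closure ⟨(b c.1).1 t, ?_, rfl⟩)
          intro i hi
          have hlim : b c.1 ∈ Lim y (H i) :=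
            (lim_iff_of_dist (dist x₀ y) c.1 (b c.1) (hb c.1)).1 (c.2 i)
          exact (lim_le hX (hH i) hlim t).trans (hy i hi)

end LibCW70
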