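import Pool.Agent.LibCW70.GI2

set_option autoImplicit false

/-!
# Board CW70, row GJ (MEDIUM/LONG).  MP_6fa1a0_gt (cell-like equivalence of CAT(0) boundaries)
Chair: helper70.  Deliver the whole file as CW70_GJ.lean (team-store put), statements unchanged,
auxiliary lemmas private (names starting with GJ_), no sorry, no axiom, no straight double quotation mark.

The fibre of the resolution over a ray.
PLAN. I = {q : J × Bool // xi not in Lim x₁ (H₁ q.1 (!q.2))}, H i = H₂ i.1.1 i.1.2. The set in the statement equals {eta | for all i, eta in Lim x₂ (H i)}: (subset) for i = (j, s): the s' given by j has xi in Lim (H₁ j s'), so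
s' <> !s, s' = s. (superset) given j: if xi is in Lim of both H₁ j true, H₁ j false, take s with eta in Lim (H₂ j s) (lim_cover for X₂); otherwise xi is not in Lim (H₁ j (!s)) for some s, then xi in Lim (H₁ j s)
(lim_cover) and eta in Lim (H₂ j s) by (j,s) in I. So ShapeOfPoint follows from shape_common (GI2) (rewrite the set, or Homeomorph.setCongr and ShapeOfPoint.homeo) with D = D' given by hf 0:
hne: T finite: for each i = (j,s) in T, infDist (xi.1 t) (H₁ j (!s)) tends to infinity (tendsto_of_not_lim), so for large t (Filter.eventually_all_finset) xi.1 t is not in H₁ j (!s), so in H₁ j s (cover): infDist = 0 <= 0,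
y = f (xi.1 t). hemp: y with infDist y (H₂ j s) <= D for all (j,s) in I; x = g y; hg D gives D'' with infDist x (H₁ j s) <= D'' for all (j,s) in I. Let c' = b xi be the ray from x (base_change). w₁.sep x (max D'' 0): R. Take
t >= R, t >= 0: dist x (c'.1 t) = t (ray_dist), so (j, s) with max D'' 0 < infDist x (H₁ j s), c'.1 t not in H₁ j (!s). x is not in H₁ j s (infDist_zero_of_mem), so x in H₁ j (!s), infDist x (H₁ j (!s)) = 0 <
infDist (c'.1 t) (H₁ j (!s)) (IsClosed.notMem_iff_infDist_pos), so c' is not in Lim x (H₁ j (!s)) (lim_le), so xi is not in Lim x₁ (H₁ j (!s)) (lim_iff_of_dist with base_change), (j,s) in I: contradiction.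
-/

namespace LibCW70

open Set Metric Topology Filter LibCE75
open scoped NNReal

private theorem GJ_other {b s : Bool} (h : b ≠ !s) : b = s := by
  cases b <;> cases s <;> simp_all

private theorem GJ_set {X₁ X₂ J : Type} [MetricSpace X₁] [MetricSpace X₂]
    (hX₁ : IsCAT0 X₁) (hX₂ : IsCAT0 X₂) {x₁ : X₁} (x₂ : X₂)
    {H₁ : J → Bool → Set X₁} {H₂ : J → Bool → Set X₂} (w₁ : Walls H₁) (w₂ : Walls H₂)
    (ξ : Ray X₁ x₁) :
    {η : Ray X₂ x₂ | ∀ i : {q : J × Bool // ξ ∉ Lim x₁ (H₁ q.1 (!q.2))},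
      η ∈ Lim x₂ (H₂ i.1.1 i.1.2)} =
    {η : Ray X₂ x₂ | ∀ j, ∃ s, ξ ∈ Lim x₁ (H₁ j s) ∧ η ∈ Lim x₂ (H₂ j s)} := by
  ext η
  simp only [Set.mem_ofPred_eq]
  constructor
  · intro h j
    by_cases hb : ∀ s, ξ ∈ Lim x₁ (H₁ j s)
    · rcases lim_cover hX₂ (w₂.cc j true) (w₂.cc j false)
        (fun x => by simpa using w₂.cover j true x) η with h1 | h1
      · exact ⟨true, hb true, h1⟩
      · exact ⟨false, hb false, h1⟩
    · push Not at hb
      obtain ⟨s, hs⟩ := hb
      refine ⟨!s, ?_, h ⟨(j, !s), by simpa using hs⟩⟩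
      rcases lim_cover hX₁ (w₁.cc j s) (w₁.cc j (!s)) (fun x => w₁.cover j s x) ξ with h1 | h1
      · exact absurd h1 hs
      · exact h1
  · rintro h ⟨⟨j, s⟩, hi⟩
    obtain ⟨s', h1, h2⟩ := h j
    have : s' = s := GJ_other (by
      rintro rfl
      exact hi h1)
    subst this
    exact h2

theorem fibre_shape {X₁ X₂ J : Type} [MetricSpace X₁] [MetricSpace X₂] [ProperSpace X₁]
    [ProperSpace X₂] (hX₁ : IsCAT0 X₁) (hX₂ : IsCAT0 X₂) {x₁ : X₁} (x₂ : X₂)
    {H₁ : J → Bool → Set X₁} {H₂ : J → Bool → Set X₂} (w₁ : Walls H₁) (w₂ : Walls H₂)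
    {f : X₁ → X₂} {g : X₂ → X₁} (hf : Ctl H₁ H₂ f) (hg : Ctl H₂ H₁ g) (ξ : Ray X₁ x₁) :
    ShapeOfPoint ↥{η : Ray X₂ x₂ | ∀ j, ∃ s, ξ ∈ Lim x₁ (H₁ j s) ∧ η ∈ Lim x₂ (H₂ j s)} := by
  obtain ⟨D, hD⟩ := hf 0
  have key : ShapeOfPoint ↥{η : Ray X₂ x₂ |
      ∀ i : {q : J × Bool // ξ ∉ Lim x₁ (H₁ q.1 (!q.2))}, η ∈ Lim x₂ (H₂ i.1.1 i.1.2)} := by
    refine shape_common hX₂ x₂ (fun i : {q : J × Bool // ξ ∉ Lim x₁ (H₁ q.1 (!q.2))} =>
      H₂ i.1.1 i.1.2) (fun i => w₂.cc _ _) D ?_ ?_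
    · intro T
      have h1 : ∀ i ∈ T, ∀ᶠ t : ℝ≥0 in atTop, ξ.1 t ∈ H₁ i.1.1 i.1.2 := by
        intro i _
        have h2 := tendsto_of_not_lim hX₁ (w₁.cc i.1.1 (!i.1.2)) i.2
        filter_upwards [h2.eventually_gt_atTop 0] with t ht
        rcases w₁.cover i.1.1 i.1.2 (ξ.1 t) with h3 | h3
        · exact h3
        · rw [infDist_zero_of_mem h3] at ht
          exact absurd ht (lt_irrefl _)
      obtain ⟨t, ht⟩ := ((Filter.eventually_all_finset T).2 h1).exists
      refine ⟨f (ξ.1 t), fun i hi => hD _ _ _ ?_⟩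
      rw [infDist_zero_of_mem (ht i hi)]
    · rintro ⟨y, hy⟩
      obtain ⟨D'', hD''⟩ := hg D
      obtain ⟨b, hb⟩ := base_change hX₁ x₁ (g y)
      obtain ⟨R, hR⟩ := w₁.sep (g y) (max D'' 0)
      have hd := ray_dist (b ξ) (Real.toNNReal R)
      obtain ⟨j, s, h1, h2⟩ := hR ((b ξ).1 (Real.toNNReal R)) (by
        rw [hd]
        exact Real.le_coe_toNNReal R)
      have h3 : g y ∉ H₁ j s := by
        intro h
        rw [infDist_zero_of_mem h] at h1
        exact absurd h1 (not_lt.2 (le_max_right _ _))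
      have h4 : g y ∈ H₁ j (!s) := (w₁.cover j s (g y)).resolve_left h3
      have h5 : b ξ ∉ Lim (g y) (H₁ j (!s)) := by
        intro h
        have h6 := lim_le hX₁ (w₁.cc j (!s)) h (Real.toNNReal R)
        rw [infDist_zero_of_mem h4] at h6
        exact absurd h6 (not_le.2
          (((w₁.cc j (!s)).cl.notMem_iff_infDist_pos (w₁.cc j (!s)).ne).1 h2))
      have h6 : ξ ∉ Lim x₁ (H₁ j (!s)) := by
        intro h
        exact h5 ((lim_iff_of_dist (dist x₁ (g y)) ξ (b ξ) (hb ξ)).1 h)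
      have h7 := hD'' j s y (hy ⟨(j, s), h6⟩)
      exact absurd (h1.trans_le h7) (not_lt.2 (le_max_left _ _))
  rw [GJ_set hX₁ hX₂ x₂ w₁ w₂ ξ] at key
  exact key

end LibCW70
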