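import Pool.Agent.LibCW70.GJ
import Pool.Agent.LibCE75.B1
import Pool.Agent.LibCE75.S1

set_option autoImplicit false

/-!
# Board CW70, row GK (MEDIUM).  MP_6fa1a0_gt (cell-like equivalence of CAT(0) boundaries)
Chair: helper70.  Deliver the whole file as CW70_GK.lean (team-store put), statements unchanged,
auxiliary lemmas private (names starting with GK_), no sorry, no axiom, no straight double quotation mark.

Theorem 1: walls and coarse control give a cell-like equivalence.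
PLAN. Z = {q : Ray X₁ x₁ × Ray X₂ x₂ // for all j, there is s, q.1 in Lim x₁ (H₁ j s) and q.2 in Lim x₂ (H₂ j s)} with the subtype topology. The set is closed: intersection over j of the union over s : Bool of closed sets
(isClosed_lim, preimages under continuous_fst / continuous_snd, isClosed_iInter; Bool: Set.iUnion over a finite type, isClosed_iUnion_of_finite, or write it as true or false). Product of compact metrizable spaces
(ray_compact, ray_metrizable in LibCE75.B1), so Z is compact and metrizable. f₁ q = q.1.1, f₂ q = q.1.2. The fibre of f₁ over xi is homeomorphic to the set in GJ (fibre_shape) by q |-> q.1.2, inverse eta |-> ((xi, eta), _); ShapeOfPoint.homeo.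
The fibre of f₂ over eta: apply fibre_shape with 1 and 2 exchanged (the set has the two conditions in the other order: and_comm).
-/

namespace LibCW70

open Set Metric Topology Filter LibCE75
open scoped NNReal

/-- The resolution. -/
private def GK_Z {X₁ X₂ J : Type} [MetricSpace X₁] [MetricSpace X₂] (x₁ : X₁) (x₂ : X₂)
    (H₁ : J → Bool → Set X₁) (H₂ : J → Bool → Set X₂) : Set (Ray X₁ x₁ × Ray X₂ x₂) :=
  {q | ∀ j, ∃ s, q.1 ∈ Lim x₁ (H₁ j s) ∧ q.2 ∈ Lim x₂ (H₂ j s)}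

private theorem GK_closed {X₁ X₂ J : Type} [MetricSpace X₁] [MetricSpace X₂]
    (hX₁ : IsCAT0 X₁) (hX₂ : IsCAT0 X₂) (x₁ : X₁) (x₂ : X₂)
    {H₁ : J → Bool → Set X₁} {H₂ : J → Bool → Set X₂} (w₁ : Walls H₁) (w₂ : Walls H₂) :
    IsClosed (GK_Z x₁ x₂ H₁ H₂) := by
  have hZ : GK_Z x₁ x₂ H₁ H₂ = ⋂ j, ⋃ s, ((Prod.fst ⁻¹' Lim x₁ (H₁ j s)) ∩
      (Prod.snd ⁻¹' Lim x₂ (H₂ j s))) := by
    ext q
    simp only [GK_Z, mem_ofPred_eq, mem_iInter, mem_iUnion, mem_inter_iff, mem_preimage]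
  rw [hZ]
  refine isClosed_iInter fun j => isClosed_iUnion_of_finite fun s => ?_
  exact ((isClosed_lim hX₁ (w₁.cc j s) x₁).preimage continuous_fst).inter
    ((isClosed_lim hX₂ (w₂.cc j s) x₂).preimage continuous_snd)

/-- The fibre over `ξ`. -/
private def GK_homeo₁ {X₁ X₂ J : Type} [MetricSpace X₁] [MetricSpace X₂] (x₁ : X₁) (x₂ : X₂)
    (H₁ : J → Bool → Set X₁) (H₂ : J → Bool → Set X₂) (ξ : Ray X₁ x₁) :
    ↥{η : Ray X₂ x₂ | ∀ j, ∃ s, ξ ∈ Lim x₁ (H₁ j s) ∧ η ∈ Lim x₂ (H₂ j s)} ≃ₜ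
      ↥((fun q : ↥(GK_Z x₁ x₂ H₁ H₂) => q.1.1) ⁻¹' {ξ}) where
  toFun η := ⟨⟨(ξ, η.1), η.2⟩, rfl⟩
  invFun z := ⟨z.1.1.2, fun j => by
    obtain ⟨s, h1, h2⟩ := z.1.2 j
    exact ⟨s, (show z.1.1.1 = ξ from z.2) ▸ h1, h2⟩⟩
  left_inv η := rfl
  right_inv z := by
    refine Subtype.ext (Subtype.ext (Prod.ext ?_ rfl))
    exact (show z.1.1.1 = ξ from z.2).symm
  continuous_toFun := by
    refine Continuous.subtype_mk (Continuous.subtype_mk ?_ _) _
    exact continuous_const.prodMk continuous_subtype_val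
  continuous_invFun := by
    refine Continuous.subtype_mk ?_ _
    exact continuous_snd.comp (continuous_subtype_val.comp continuous_subtype_val)

/-- The fibre over `η`. -/
private def GK_homeo₂ {X₁ X₂ J : Type} [MetricSpace X₁] [MetricSpace X₂] (x₁ : X₁) (x₂ : X₂)
    (H₁ : J → Bool → Set X₁) (H₂ : J → Bool → Set X₂) (η : Ray X₂ x₂) :
    ↥{ξ : Ray X₁ x₁ | ∀ j, ∃ s, η ∈ Lim x₂ (H₂ j s) ∧ ξ ∈ Lim x₁ (H₁ j s)} ≃ₜ
      ↥((fun q : ↥(GK_Z x₁ x₂ H₁ H₂) => q.1.2) ⁻¹' {η}) where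
  toFun ξ := ⟨⟨(ξ.1, η), fun j => by
    obtain ⟨s, h1, h2⟩ := ξ.2 j
    exact ⟨s, h2, h1⟩⟩, rfl⟩
  invFun z := ⟨z.1.1.1, fun j => by
    obtain ⟨s, h1, h2⟩ := z.1.2 j
    exact ⟨s, (show z.1.1.2 = η from z.2) ▸ h2, h1⟩⟩
  left_inv ξ := rfl
  right_inv z := by
    refine Subtype.ext (Subtype.ext (Prod.ext rfl ?_))
    exact (show z.1.1.2 = η from z.2).symm
  continuous_toFun := by
    refine Continuous.subtype_mk (Continuous.subtype_mk ?_ _) _
    exact continuous_subtype_val.prodMk continuous_const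
  continuous_invFun := by
    refine Continuous.subtype_mk ?_ _
    exact continuous_fst.comp (continuous_subtype_val.comp continuous_subtype_val)

theorem core {X₁ X₂ J : Type} [MetricSpace X₁] [MetricSpace X₂] [ProperSpace X₁]
    [ProperSpace X₂] (hX₁ : IsCAT0 X₁) (hX₂ : IsCAT0 X₂) (x₁ : X₁) (x₂ : X₂)
    {H₁ : J → Bool → Set X₁} {H₂ : J → Bool → Set X₂} (w₁ : Walls H₁) (w₂ : Walls H₂)
    {f : X₁ → X₂} {g : X₂ → X₁} (hf : Ctl H₁ H₂ f) (hg : Ctl H₂ H₁ g) :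
    CellLikeEquivalent (Ray X₁ x₁) (Ray X₂ x₂) := by
  have c1 : CompactSpace (Ray X₁ x₁) := ray_compact x₁
  have c2 : CompactSpace (Ray X₂ x₂) := ray_compact x₂
  have m1 : TopologicalSpace.MetrizableSpace (Ray X₁ x₁) := ray_metrizable hX₁ x₁
  have m2 : TopologicalSpace.MetrizableSpace (Ray X₂ x₂) := ray_metrizable hX₂ x₂
  have hcl : IsClosed (GK_Z x₁ x₂ H₁ H₂) := GK_closed hX₁ hX₂ x₁ x₂ w₁ w₂
  have cZ : CompactSpace ↥(GK_Z x₁ x₂ H₁ H₂) := isCompact_iff_compactSpace.mp hcl.isCompact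
  refine ⟨↥(GK_Z x₁ x₂ H₁ H₂), inferInstance, cZ, inferInstance, fun q => q.1.1,
    fun q => q.1.2, ⟨continuous_fst.comp continuous_subtype_val, fun ξ => ?_⟩,
    ⟨continuous_snd.comp continuous_subtype_val, fun η => ?_⟩⟩
  · exact (fibre_shape hX₁ hX₂ x₂ w₁ w₂ hf hg ξ).homeo (GK_homeo₁ x₁ x₂ H₁ H₂ ξ)
  · exact (fibre_shape hX₂ hX₁ x₁ w₂ w₁ hg hf η).homeo (GK_homeo₂ x₁ x₂ H₁ H₂ η)

end LibCW70
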