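import Pool.Agent.LibCW70.B0

set_option autoImplicit false

/-!
# Board CW70, row HA (MEDIUM).  MP_6fa1a0_gt (cell-like equivalence of CAT(0) boundaries)
Chair: helper70.  Deliver the whole file as CW70_HA.lean (team-store put), statements unchanged,
auxiliary lemmas private (names starting with HA_), no sorry, no axiom, no straight double quotation mark.

A uniform choice of the convex sets near the frontiers.
PLAN. The set 𝓡 = union over s in S of Sep 𝓗 s is finite (hw.Sfin, hw.fin). For A in 𝓗 choose Y₀ A, C₀ A from (h A) (CoarseCvx), classical choice. Y₀ A is not empty, so by its last clause there is g in Fr S A: s in S with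
not (g in A iff g s in A), so tr g⁻¹ A is in Sep 𝓗 s (mem_tr, hw.inv): for each A in 𝓗 there is g A with tr (g A)⁻¹ A in 𝓡. Put B = tr (g A)⁻¹ A, Y A = g A • Y₀ B (image of Y₀ B under x |-> g A • x), C = max over the finite set 𝓡 of |C₀ B|
(exists by Finite.bddAbove of the image, or induction). CC: nonempty; closed: the image under an isometry with inverse = preimage of Y₀ B under x |-> (g A)⁻¹ • x, which is continuous (hG.isom; Isometry.of_dist_eq); convex: Btw is invariant.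
al: g' in Fr S A iff (g A)⁻¹ g' in Fr S B (mem_Fr_tr with A = tr (g A) B: tr_tr_inv), infDist (g' • x₀) (g A • Y₀ B) = infDist ((g A)⁻¹ g' • x₀) (Y₀ B) (infDist_image of an isometry: Metric.infDist_image). be: in the same way.
-/

namespace LibCW70

open Set Metric Topology Filter LibCE75
open scoped NNReal

theorem exists_adapted {G X : Type} [Group G] [MetricSpace X] [MulAction G X]
    (hG : Geometric G X) (x₀ : X) {S : Set G} {𝓗 : Set (Set G)} (hw : WallG S 𝓗)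
    (h : ∀ A ∈ 𝓗, CoarseCvx x₀ (Fr S A)) :
    ∃ (Y : Set G → Set X) (C : ℝ), 0 ≤ C ∧ Adapted x₀ S 𝓗 Y C := by
  classical
  -- the finite set of representatives
  have hRfin : (⋃ s ∈ S, Sep 𝓗 s).Finite := hw.Sfin.biUnion fun s _ => hw.fin s
  have hch : ∀ B : Set G, ∃ (Y : Set X) (C : ℝ), B ∈ 𝓗 → CC Y ∧
      (∀ g ∈ Fr S B, infDist (g • x₀) Y ≤ C) ∧ ∀ y ∈ Y, ∃ g ∈ Fr S B, dist y (g • x₀) ≤ C := by
    intro B
    by_cases hB : B ∈ 𝓗
    · obtain ⟨Y, C, h1⟩ := h B hB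
      exact ⟨Y, C, fun _ => h1⟩
    · exact ⟨∅, 0, fun h => absurd h hB⟩
  choose Y₀ C₀ h₀ using hch
  have hrep : ∀ A : Set G, ∃ g : G, A ∈ 𝓗 → tr g⁻¹ A ∈ ⋃ s ∈ S, Sep 𝓗 s := by
    intro A
    by_cases hA : A ∈ 𝓗
    · obtain ⟨hc, -, hb⟩ := h₀ A hA
      obtain ⟨y, hy⟩ := hc.ne
      obtain ⟨g, ⟨s, hs, hn⟩, -⟩ := hb y hy
      refine ⟨g, fun _ => ?_⟩
      simp only [mem_iUnion]
      refine ⟨s, hs, hw.inv _ _ hA, ?_⟩
      simpa [mem_tr] using hn
    · exact ⟨1, fun h => absurd h hA⟩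
  choose r hr using hrep
  obtain ⟨C, hC⟩ : ∃ C : ℝ, ∀ B ∈ ⋃ s ∈ S, Sep 𝓗 s, C₀ B ≤ C := by
    obtain ⟨C, hC⟩ := (hRfin.image C₀).bddAbove
    exact ⟨C, fun B hB => hC (mem_image_of_mem _ hB)⟩
  have hiso : ∀ g : G, Isometry fun x : X => g • x := fun g =>
    Isometry.of_dist_eq fun x y => hG.isom g x y
  refine ⟨fun A => (fun x => r A • x) '' Y₀ (tr (r A)⁻¹ A), max C 0, le_max_right _ _, ?_, ?_, ?_⟩
  · intro A hA
    have hB : tr (r A)⁻¹ A ∈ 𝓗 := hw.inv _ _ hA
    obtain ⟨hc, -, -⟩ := h₀ _ hB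
    refine ⟨hc.ne.image _, ?_, ?_⟩
    · have : (fun x => r A • x) '' Y₀ (tr (r A)⁻¹ A) =
          (fun x => (r A)⁻¹ • x) ⁻¹' Y₀ (tr (r A)⁻¹ A) := by
        ext x
        constructor
        · rintro ⟨y, hy, rfl⟩
          simpa using hy
        · intro hx
          exact ⟨(r A)⁻¹ • x, hx, by simp⟩
      rw [this]
      exact hc.cl.preimage (hiso _).continuous
    · rintro _ ⟨x, hx, rfl⟩ _ ⟨y, hy, rfl⟩ z hz
      refine ⟨(r A)⁻¹ • z, ?_, by simp⟩
      apply hc.cvx x hx y hy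
      unfold LibCE75.Btw at hz ⊢
      have e1 : dist x ((r A)⁻¹ • z) = dist (r A • x) z := by
        rw [← hG.isom (r A) x ((r A)⁻¹ • z), smul_inv_smul]
      have e2 : dist ((r A)⁻¹ • z) y = dist z (r A • y) := by
        rw [← hG.isom (r A) ((r A)⁻¹ • z) y, smul_inv_smul]
      have e3 : dist (r A • x) (r A • y) = dist x y := hG.isom _ _ _
      rw [e1, e2, ← e3]
      exact hz
  · intro A hA g hg
    have hB : tr (r A)⁻¹ A ∈ 𝓗 := hw.inv _ _ hA
    obtain ⟨-, ha, -⟩ := h₀ _ hB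
    have hg' : (r A)⁻¹ * g ∈ Fr S (tr (r A)⁻¹ A) := by
      rw [mem_Fr_tr]
      simpa using hg
    have h1 := ha _ hg'
    have h2 : infDist (g • x₀) ((fun x => r A • x) '' Y₀ (tr (r A)⁻¹ A)) =
        infDist (((r A)⁻¹ * g) • x₀) (Y₀ (tr (r A)⁻¹ A)) := by
      have := infDist_image (hiso (r A)) (x := ((r A)⁻¹ * g) • x₀) (t := Y₀ (tr (r A)⁻¹ A))
      rw [← this]
      congr 1
      simp [smul_smul]
    rw [h2]
    exact h1.trans ((hC _ (hr A hA)).trans (le_max_left _ _))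
  · rintro A hA _ ⟨y, hy, rfl⟩
    have hB : tr (r A)⁻¹ A ∈ 𝓗 := hw.inv _ _ hA
    obtain ⟨-, -, hb⟩ := h₀ _ hB
    obtain ⟨g, hg, hd⟩ := hb y hy
    refine ⟨r A * g, ?_, ?_⟩
    · rw [mem_Fr_tr] at hg
      simpa using hg
    · have h1 : dist (r A • y) ((r A * g) • x₀) = dist y (g • x₀) := by
        rw [mul_smul]
        exact hG.isom _ _ _
      rw [h1]
      exact hd.trans ((hC _ (hr A hA)).trans (le_max_left _ _))

end LibCW70
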