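import Pool.Agent.LibCW70.B0
import Pool.Agent.LibCE75.A4

set_option autoImplicit false

/-!
# Board CW70, row HB0 (MEDIUM).  MP_6fa1a0_gt (cell-like equivalence of CAT(0) boundaries)
Chair: helper70.  Deliver the whole file as CW70_HB0.lean (team-store put), statements unchanged,
auxiliary lemmas private (names starting with HB0_), no sorry, no axiom, no straight double quotation mark.

Elements near to each other and on different sides of A are near to the frontier of A.
PLAN. Claim: for every u : G there is L with: for all A, g: not (g in A iff g u in A) -> there is k in Fr S A with dist (g • x₀) (k • x₀) <= L. Submonoid.closure_induction (u in closure S = top): u = s in S: k = g (L = 0). u = 1: impossible. u = v w: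
either g and g v are separated (L v) or g v and g v w are separated: k with dist ((g v) • x₀) (k • x₀) <= L w, and dist (g • x₀) ((g v) • x₀) = dist x₀ (v • x₀) (dist_smul_smul in B0), so L = max (L v) (L w + dist x₀ (v • x₀)).
Then the set {u | dist x₀ (u • x₀) <= r} is finite (finite_near, LibCE75.A4); L = upper bound of the L u over it (choose, Set.Finite.bddAbove of the image). For g, h apply it with u = g⁻¹ h: dist (g • x₀) (h • x₀) = dist x₀ ((g⁻¹ h) • x₀).
-/

namespace LibCW70

open Set Metric Topology Filter LibCE75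
open scoped NNReal

private theorem HB0_word {G X : Type} [Group G] [MetricSpace X] [MulAction G X]
    (hG : Geometric G X) (x₀ : X) {S : Set G} (hgen : Submonoid.closure S = ⊤) (u : G) :
    ∃ L : ℝ, ∀ (A : Set G) (g : G), ¬ (g ∈ A ↔ g * u ∈ A) →
      ∃ k ∈ Fr S A, dist (g • x₀) (k • x₀) ≤ L := by
  have hu : u ∈ Submonoid.closure S := by rw [hgen]; trivial
  induction hu using Submonoid.closure_induction with
  | mem s hs =>
    exact ⟨0, fun A g h => ⟨g, ⟨s, hs, h⟩, by rw [dist_self]⟩⟩
  | one =>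
    exact ⟨0, fun A g h => absurd (by rw [mul_one]) h⟩
  | mul v w _ _ hv hw =>
    obtain ⟨L₁, h₁⟩ := hv
    obtain ⟨L₂, h₂⟩ := hw
    refine ⟨max L₁ (L₂ + dist x₀ (v • x₀)), fun A g h => ?_⟩
    by_cases hc : g ∈ A ↔ g * v ∈ A
    · have hd : ¬ (g * v ∈ A ↔ g * v * w ∈ A) := by
        intro h'
        apply h
        rw [hc, h', mul_assoc]
      obtain ⟨k, hk, hk'⟩ := h₂ A (g * v) hd
      refine ⟨k, hk, le_max_of_le_right ?_⟩
      have e1 : dist (g • x₀) ((g * v) • x₀) = dist x₀ (v • x₀) := by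
        rw [dist_smul_smul hG, inv_mul_cancel_left]
      have e2 := dist_triangle (g • x₀) ((g * v) • x₀) (k • x₀)
      linarith
    · obtain ⟨k, hk, hk'⟩ := h₁ A g hc
      exact ⟨k, hk, le_max_of_le_left hk'⟩

theorem exists_near_frontier {G X : Type} [Group G] [MetricSpace X] [MulAction G X]
    (hX : IsCAT0 X) (hG : Geometric G X) (x₀ : X) {S : Set G}
    (hgen : Submonoid.closure S = ⊤) (r : ℝ) :
    ∃ L : ℝ, ∀ (A : Set G) (g h : G), dist (g • x₀) (h • x₀) ≤ r → ¬ (g ∈ A ↔ h ∈ A) →
      ∃ k ∈ Fr S A, dist (g • x₀) (k • x₀) ≤ L := by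
  choose L hL using HB0_word hG x₀ hgen
  have hfin : {u : G | dist x₀ (u • x₀) ≤ r}.Finite := finite_near hX hG x₀ x₀ r
  obtain ⟨M, hM⟩ := (hfin.image L).bddAbove
  refine ⟨M, fun A g h hd hn => ?_⟩
  have hu : g⁻¹ * h ∈ {u : G | dist x₀ (u • x₀) ≤ r} := by
    show dist x₀ ((g⁻¹ * h) • x₀) ≤ r
    rw [← dist_smul_smul hG]
    exact hd
  have hn' : ¬ (g ∈ A ↔ g * (g⁻¹ * h) ∈ A) := by
    rw [mul_inv_cancel_left]
    exact hn
  obtain ⟨k, hk, hk'⟩ := hL (g⁻¹ * h) A g hn'
  exact ⟨k, hk, hk'.trans (hM ⟨_, hu, rfl⟩)⟩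

end LibCW70
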