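import Pool.Agent.LibCW70.HA
import Pool.Agent.LibCW70.HB0

set_option autoImplicit false

/-!
# Board CW70, row HB (SHORT/MEDIUM).  MP_6fa1a0_gt (cell-like equivalence of CAT(0) boundaries)
Chair: helper70.  Deliver the whole file as CW70_HB.lean (team-store put), statements unchanged,
auxiliary lemmas private (names starting with HB_), no sorry, no axiom, no straight double quotation mark.

The standing assumptions hold.
PLAN. Y, C from exists_adapted (HA); R from exists_cover (LibCE75.A4), 0 <= R; L from exists_near_frontier (HB0) with r = 2 R + 2. D = max 0 (R + 1 + |L| + C). side: A in 𝓗, g, h within R + 1 of x, on different sides (by contradiction):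
dist (g x₀) (h x₀) <= 2R+2, so k in Fr S A with dist (g x₀) (k x₀) <= L, so infDist x (Y A) <= dist x (k x₀) + infDist (k x₀) (Y A) <= R + 1 + L + C <= D (infDist_le_infDist_add_dist, Adapted.al).
-/

namespace LibCW70

open Set Metric Topology Filter LibCE75
open scoped NNReal

theorem exists_sided {G X : Type} [Group G] [MetricSpace X] [MulAction G X]
    (hX : IsCAT0 X) (hG : Geometric G X) (x₀ : X) {S : Set G} {𝓗 : Set (Set G)}
    (hw : WallG S 𝓗) (h : ∀ A ∈ 𝓗, CoarseCvx x₀ (Fr S A)) :
    ∃ (Y : Set G → Set X) (C R D : ℝ), Sided x₀ S 𝓗 Y C R D := by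
  obtain ⟨Y, C, hC, had⟩ := exists_adapted hG x₀ hw h
  obtain ⟨R, hR, hcov⟩ := exists_cover hG x₀
  obtain ⟨L, hL⟩ := exists_near_frontier hX hG x₀ hw.Sgen (2 * R + 2)
  refine ⟨Y, C, R, max 0 (R + 1 + |L| + C), ?_⟩
  refine { cat := hX, geom := hG, wall := hw, ad := had, C0 := hC, R0 := hR, cover := hcov,
           D0 := le_max_left _ _, side := ?_ }
  intro A hA x hx g h' hg hh
  by_contra hne
  have h1 : dist (g • x₀) (h' • x₀) ≤ 2 * R + 2 := by
    have h0 := dist_triangle_left (g • x₀) (h' • x₀) x
    linarith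
  obtain ⟨k, hk, hk2⟩ := hL A g h' h1 hne
  have h2 : infDist (k • x₀) (Y A) ≤ C := had.al A hA k hk
  have h3 : infDist x (Y A) ≤ infDist (k • x₀) (Y A) + dist x (k • x₀) :=
    infDist_le_infDist_add_dist
  have h4 : dist x (k • x₀) ≤ dist x (g • x₀) + dist (g • x₀) (k • x₀) := dist_triangle _ _ _
  have h5 := le_abs_self L
  have h6 := le_max_right 0 (R + 1 + |L| + C)
  linarith

end LibCW70
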