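import Pool.Agent.LibCW70.B0

set_option autoImplicit false

/-!
# Board CW70, row HC (MEDIUM).  MP_6fa1a0_gt (cell-like equivalence of CAT(0) boundaries)
Chair: helper70.  Deliver the whole file as CW70_HC.lean (team-store put), statements unchanged,
auxiliary lemmas private (names starting with HC_), no sorry, no axiom, no straight double quotation mark.

The half spaces in X are closed, not empty, cover X.
PLAN. cover: if infDist x (Y A) <= D then x is in both. Otherwise take g₀ with dist x (g₀ x₀) <= R (h.cover) and by h.side all g within R + 1 are on the same side as g₀: cases g₀ in A. subset: Y A in HS: infDist = 0 <= D (h.D0). nonempty: (h.ad.cc A hA).ne.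
closed: the complement is {D < infDist x (Y A)} intersected with {x | there is g with dist x (g x₀) < R + 1 and not (g in A iff s = true)}: indeed if x is not in HS, then D < infDist and some g within R+1 violates; by side g₀ from h.cover (dist <= R < R+1) also violates.
Both sets are open (isOpen_lt with continuity of infDist; union over g of open balls), IsOpen.inter, isOpen_compl_iff.
-/

namespace LibCW70

open Set Metric Topology Filter LibCE75
open scoped NNReal

theorem hs_cover {G X : Type} [Group G] [MetricSpace X] [MulAction G X] {x₀ : X}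
    {S : Set G} {𝓗 : Set (Set G)} {Y : Set G → Set X} {C R D : ℝ} (h : Sided x₀ S 𝓗 Y C R D) {A : Set G} (hA : A ∈ 𝓗) (s : Bool) (x : X) :
    x ∈ HS x₀ Y R D A s ∨ x ∈ HS x₀ Y R D A (!s) := by
  by_cases hD : infDist x (Y A) ≤ D
  · exact Or.inl (Or.inl hD)
  · obtain ⟨g₀, hg₀⟩ := h.cover x
    have hs : ∀ g : G, dist x (g • x₀) ≤ R + 1 → (g ∈ A ↔ g₀ ∈ A) := fun g hg =>
      h.side A hA x (not_le.1 hD) g g₀ hg (by linarith)
    by_cases hg : g₀ ∈ A ↔ s = true
    · exact Or.inl (Or.inr fun g hg' => (hs g hg').trans hg)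
    · refine Or.inr (Or.inr fun g hg' => (hs g hg').trans ?_)
      by_cases h1 : g₀ ∈ A <;> cases s <;> simp_all

theorem subset_hs {G X : Type} [Group G] [MetricSpace X] [MulAction G X] {x₀ : X}
    {S : Set G} {𝓗 : Set (Set G)} {Y : Set G → Set X} {C R D : ℝ} (h : Sided x₀ S 𝓗 Y C R D) {A : Set G} (hA : A ∈ 𝓗) (s : Bool) : Y A ⊆ HS x₀ Y R D A s := by
  intro y hy
  left
  rw [infDist_zero_of_mem hy]
  exact h.D0

theorem hs_closed {G X : Type} [Group G] [MetricSpace X] [MulAction G X] {x₀ : X}
    {S : Set G} {𝓗 : Set (Set G)} {Y : Set G → Set X} {C R D : ℝ} (h : Sided x₀ S 𝓗 Y C R D) {A : Set G} (hA : A ∈ 𝓗) (s : Bool) : IsClosed (HS x₀ Y R D A s) := by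
  have h1 : (HS x₀ Y R D A s)ᶜ = {x | D < infDist x (Y A)} ∩
      ⋃ (g : G) (_ : ¬ (g ∈ A ↔ s = true)), {x | dist x (g • x₀) < R + 1} := by
    ext x
    simp only [HS, mem_compl_iff, mem_ofPred_eq, not_or, not_le, not_forall, mem_inter_iff,
      mem_iUnion, exists_prop]
    constructor
    · rintro ⟨hD, g, hg, hgs⟩
      refine ⟨hD, ?_⟩
      obtain ⟨g₀, hg₀⟩ := h.cover x
      refine ⟨g₀, fun h2 => hgs ?_, by linarith⟩
      exact (h.side A hA x hD g g₀ hg (by linarith)).trans h2
    · rintro ⟨hD, g, hgs, hg⟩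
      exact ⟨hD, g, hg.le, hgs⟩
  rw [← isOpen_compl_iff, h1]
  refine (isOpen_lt continuous_const (continuous_infDist_pt _)).inter ?_
  refine isOpen_iUnion fun g => isOpen_iUnion fun _ => ?_
  exact isOpen_lt (continuous_id.dist continuous_const) continuous_const

end LibCW70
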