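import Pool.Agent.LibCW70.HD0
import Pool.Agent.LibCW70.GA

set_option autoImplicit false

/-!
# Board CW70, row HD (MEDIUM).  MP_6fa1a0_gt (cell-like equivalence of CAT(0) boundaries)
Chair: helper70.  Deliver the whole file as CW70_HD.lean (team-store put), statements unchanged,
auxiliary lemmas private (names starting with HD_), no sorry, no axiom, no straight double quotation mark.

The half spaces in X are convex.
PLAN. p, q in HS, z between p and q, z not in HS. exists_cross gives p' with Btw z p' p, infDist p' (Y A) <= D, and q' with Btw z q' q, infDist q' (Y A) <= D. Then Btw p' z q': dist p' z + dist z q' = (dist p z - dist p p') + (dist z q - dist q' q) = dist p q - dist p p' - dist q' q <= dist p' q'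
(triangle inequality), and >= dist p' q'. So by infDist_btw (GA, CC (Y A) = h.ad.cc A hA) infDist z (Y A) <= D, z in HS: contradiction.
-/

namespace LibCW70

open Set Metric Topology Filter LibCE75
open scoped NNReal

theorem hs_cvx {G X : Type} [Group G] [MetricSpace X] [MulAction G X] {x₀ : X}
    {S : Set G} {𝓗 : Set (Set G)} {Y : Set G → Set X} {C R D : ℝ} (h : Sided x₀ S 𝓗 Y C R D) {A : Set G} (hA : A ∈ 𝓗) (s : Bool) : Cvx (HS x₀ Y R D A s) := by
  intro p hp q hq z hz
  by_contra hzn
  obtain ⟨p', hp1, hp2⟩ := exists_cross h hA hp hzn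
  obtain ⟨q', hq1, hq2⟩ := exists_cross h hA hq hzn
  apply hzn
  left
  have hb : LibCE75.Btw p' z q' := by
    unfold LibCE75.Btw at *
    have t1 : dist p q ≤ dist p p' + dist p' q' + dist q' q := dist_triangle4 _ _ _ _
    have t2 := dist_triangle p' z q'
    rw [dist_comm p p'] at t1
    rw [dist_comm z p] at hp1
    rw [dist_comm p' z] at t2 ⊢
    linarith
  exact (infDist_btw h.cat (h.ad.cc A hA) hb).trans (max_le hp2 hq2)

end LibCW70
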