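import Pool.Agent.LibCW70.B0
import Pool.Agent.LibCE75.A2

set_option autoImplicit false

/-!
# Board CW70, row HD0 (MEDIUM/LONG).  MP_6fa1a0_gt (cell-like equivalence of CAT(0) boundaries)
Chair: helper70.  Deliver the whole file as CW70_HD0.lean (team-store put), statements unchanged,
auxiliary lemmas private (names starting with HD0_), no sorry, no axiom, no straight double quotation mark.

A geodesic that changes the side passes near Y A.
PLAN. Suppose that no q between z and p has infDist q (Y A) <= D. Path gamma t = seg h.cat z p (toNNReal t), t real in [0, dist z p] (or any continuous parametrisation: h.cat.geodesic), all its points are between z and p (dist_left_seg, dist_seg_right in LibCE75.Defs),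
gamma 0 = z, gamma (dist z p) = p. So D < infDist (gamma t) (Y A) for all t. Define P t := for all g with dist (gamma t) (g • x₀) <= R + 1: g in A iff s = true. The sets {t | exists g, dist (gamma t) (g x₀) < R + 1 and (g in A iff s)} and
{t | exists g, dist (gamma t) (g x₀) < R + 1 and not (g in A iff s)} are open (relative), cover (h.cover, R < R + 1), and are disjoint by h.side. z is in the second (z not in HS: some g within R+1 violates; by h.side also g₀ from h.cover with dist <= R),
p in the first (p in HS and D < infDist p (Y A), g₀ from h.cover). Contradiction with the connectedness of [0, dist z p] (isPreconnected_Icc, or IsPreconnected of the segment's image, IsPreconnected.subset_or_subset / isPreconnected_iff_subset_of_disjoint).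
-/

namespace LibCW70

open Set Metric Topology Filter LibCE75
open scoped NNReal

theorem exists_cross {G X : Type} [Group G] [MetricSpace X] [MulAction G X] {x₀ : X}
    {S : Set G} {𝓗 : Set (Set G)} {Y : Set G → Set X} {C R D : ℝ} (h : Sided x₀ S 𝓗 Y C R D) {A : Set G} (hA : A ∈ 𝓗) {s : Bool} {p z : X}
    (hp : p ∈ HS x₀ Y R D A s) (hz : z ∉ HS x₀ Y R D A s) :
    ∃ q, Btw z q p ∧ infDist q (Y A) ≤ D := by
  by_contra hcon
  push Not at hcon
  obtain ⟨γ, h0, h1, hγ⟩ := h.cat.geodesic z p
  have hd : (0 : ℝ) ≤ dist z p := dist_nonneg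
  have hbtw : ∀ t ∈ Icc (0 : ℝ) (dist z p), Btw z (γ t) p := by
    intro t ht
    have e1 := hγ 0 ⟨le_refl _, hd⟩ t ht
    have e2 := hγ t ht (dist z p) ⟨hd, le_refl _⟩
    rw [h0, zero_sub, abs_neg, abs_of_nonneg ht.1] at e1
    rw [h1, abs_sub_comm, abs_of_nonneg (sub_nonneg.2 ht.2)] at e2
    show dist z (γ t) + dist (γ t) p = dist z p
    rw [e1, e2]
    ring
  have hfar : ∀ t ∈ Icc (0 : ℝ) (dist z p), D < infDist (γ t) (Y A) := fun t ht =>
    hcon _ (hbtw t ht)
  have hcont : Continuous (fun t : Icc (0 : ℝ) (dist z p) => γ t) := by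
    refine Isometry.continuous ?_
    refine Isometry.of_dist_eq fun s t => ?_
    rw [hγ s s.2 t t.2]
    rfl
  have hU : ∀ P : G → Prop, IsOpen {t : Icc (0 : ℝ) (dist z p) | ∃ g : G, dist (γ t) (g • x₀) < R + 1 ∧ P g} := by
    intro P
    have e : {t : Icc (0 : ℝ) (dist z p) | ∃ g : G, dist (γ t) (g • x₀) < R + 1 ∧ P g} =
        ⋃ (g : G) (_ : P g), {t : Icc (0 : ℝ) (dist z p) | dist (γ t) (g • x₀) < R + 1} := by
      ext t
      simp only [mem_setOf_eq, mem_iUnion, exists_prop]
      exact ⟨fun ⟨g, a, b⟩ => ⟨g, b, a⟩, fun ⟨g, a, b⟩ => ⟨g, b, a⟩⟩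
    rw [e]
    refine isOpen_iUnion fun g => isOpen_iUnion fun _ => ?_
    exact isOpen_lt (hcont.dist continuous_const) continuous_const
  have hconn : IsPreconnected (univ : Set (Icc (0 : ℝ) (dist z p))) := by
    haveI : PreconnectedSpace (Icc (0 : ℝ) (dist z p)) := Subtype.preconnectedSpace isPreconnected_Icc
    exact isPreconnected_univ
  have hzt : (0 : ℝ) ∈ Icc (0 : ℝ) (dist z p) := ⟨le_refl _, hd⟩
  have hpt : dist z p ∈ Icc (0 : ℝ) (dist z p) := ⟨hd, le_refl _⟩
  have hres := hconn _ _ (hU fun g => (g ∈ A ↔ s = true)) (hU fun g => ¬ (g ∈ A ↔ s = true))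
    (fun t _ => by
      obtain ⟨g, hg⟩ := h.cover (γ t)
      by_cases hc : (g ∈ A ↔ s = true)
      · exact Or.inl ⟨g, by linarith, hc⟩
      · exact Or.inr ⟨g, by linarith, hc⟩)
    ⟨⟨dist z p, hpt⟩, mem_univ _, by
      obtain ⟨g, hg⟩ := h.cover p
      refine ⟨g, ?_, ?_⟩
      · show dist (γ (dist z p)) (g • x₀) < R + 1
        rw [h1]
        linarith
      · rcases hp with hp | hp
        · have := hfar _ hpt
          rw [h1] at this
          exact absurd hp (not_le.2 this)
        · exact hp g (by linarith)⟩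
    ⟨⟨0, hzt⟩, mem_univ _, by
      obtain ⟨g, hg⟩ := h.cover z
      refine ⟨g, ?_, ?_⟩
      · show dist (γ 0) (g • x₀) < R + 1
        rw [h0]
        linarith
      · intro hc
        refine hz (Or.inr fun g' hg' => ?_)
        have hfz := hfar _ hzt
        rw [h0] at hfz
        exact (h.side A hA z hfz g' g hg' (by linarith)).trans hc⟩
  obtain ⟨t, _, ⟨g, hg1, hg2⟩, ⟨g', hg1', hg2'⟩⟩ := hres
  exact hg2' ((h.side A hA (γ t) (hfar t t.2) g' g hg1'.le hg1.le).trans hg2)

end LibCW70
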