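import Pool.Agent.LibCW70.HD0
import Pool.Agent.LibCW70.HC
import Pool.Agent.LibCE75.A4

set_option autoImplicit false

/-!
# Board CW70, row HF (MEDIUM/LONG).  MP_6fa1a0_gt (cell-like equivalence of CAT(0) boundaries)
Chair: helper70.  Deliver the whole file as CW70_HF.lean (team-store put), statements unchanged,
auxiliary lemmas private (names starting with HF_), no sorry, no axiom, no straight double quotation mark.

The coarse maps between two spaces are controlled.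
PLAN. f x = g x • x₂ where g x is chosen with dist x (g x • x₁) <= R₁ (h₁.cover). Given E (the D of Ctl). Put E' = max E 0, r = R₁ + E' + 2 + D₁ + C₁; the set {u | dist x₁ (u • x₁) <= r} is finite (finite_near), so there is r' >= 0 with dist x₂ (u • x₂) <= r' for all these u. D' = r' + C₂.
Let infDist x (HS₁ A s) <= E, g = g x. Case 1: D₁ < infDist x (Y₁ A) and x in HS₁ A s. Then g in A iff s = true. g • x₂ is in HS₂ A s: if D₂ < infDist (g x₂) (Y₂ A) then by h₂.side (at the point g x₂, with the elements g and any g' within R₂ + 1; dist (g x₂) (g x₂) = 0 <= R₂ + 1)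
g' in A iff g in A. So infDist = 0 <= D'. Case 2: otherwise infDist x (Y₁ A) <= E' + 1 + D₁: if x is not in HS₁ A s, take p in HS₁ A s with dist x p < E' + 1 (infDist_lt_iff, nonempty by subset_hs) and q between x and p with infDist q (Y₁ A) <= D₁ (exists_cross), dist x q <= dist x p.
Then y in Y₁ A with dist x y < E' + 2 + D₁, k in Fr S A with dist y (k x₁) <= C₁ (h₁.ad.be), so dist (g x₁) (k x₁) <= r, dist (g x₂) (k x₂) = dist x₂ ((g⁻¹ k) • x₂) <= r' (dist_smul_smul), infDist (g x₂) (Y₂ A) <= r' + C₂ (h₂.ad.al), and Y₂ A in HS₂ A s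
(infDist_le_infDist_of_subset).
-/

namespace LibCW70

open Set Metric Topology Filter LibCE75
open scoped NNReal

theorem exists_ctl {G X₁ X₂ : Type} [Group G] [MetricSpace X₁] [MetricSpace X₂]
    [MulAction G X₁] [MulAction G X₂] {x₁ : X₁} {x₂ : X₂} {S : Set G} {𝓗 : Set (Set G)}
    {Y₁ : Set G → Set X₁} {C₁ R₁ D₁ : ℝ} (h₁ : Sided x₁ S 𝓗 Y₁ C₁ R₁ D₁)
    {Y₂ : Set G → Set X₂} {C₂ R₂ D₂ : ℝ} (h₂ : Sided x₂ S 𝓗 Y₂ C₂ R₂ D₂) :
    ∃ f : X₁ → X₂, Ctl (fun (A : ↥𝓗) s => HS x₁ Y₁ R₁ D₁ (A : Set G) s)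
      (fun (A : ↥𝓗) s => HS x₂ Y₂ R₂ D₂ (A : Set G) s) f := by
  choose g hg using h₁.cover
  refine ⟨fun x => g x • x₂, ?_⟩
  intro E
  obtain ⟨r', hr'0, hr'⟩ : ∃ r' : ℝ, 0 ≤ r' ∧ ∀ u : G,
      dist x₁ (u • x₁) ≤ R₁ + (max E 0 + 2 + D₁) + C₁ → dist x₂ (u • x₂) ≤ r' := by
    have hfin := finite_near h₁.cat h₁.geom x₁ x₁ (R₁ + (max E 0 + 2 + D₁) + C₁)
    obtain ⟨M, hM⟩ := (hfin.image (fun u : G => dist x₂ (u • x₂))).bddAbove
    exact ⟨max M 0, le_max_right _ _, fun u hu =>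
      (hM ⟨u, hu, rfl⟩).trans (le_max_left _ _)⟩
  refine ⟨r' + C₂, ?_⟩
  rintro ⟨A, hA⟩ s x hx
  change infDist x (HS x₁ Y₁ R₁ D₁ A s) ≤ E at hx
  change infDist (g x • x₂) (HS x₂ Y₂ R₂ D₂ A s) ≤ r' + C₂
  by_cases hc : D₁ < infDist x (Y₁ A) ∧ x ∈ HS x₁ Y₁ R₁ D₁ A s
  · obtain ⟨h1, h2⟩ := hc
    have h3 : ∀ g' : G, dist x (g' • x₁) ≤ R₁ + 1 → (g' ∈ A ↔ s = true) := by
      rcases h2 with h2 | h2
      · exact absurd h1 (not_lt.2 h2)
      · exact h2
    have h4 : g x ∈ A ↔ s = true := h3 (g x) ((hg x).trans (by linarith))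
    have hmem : g x • x₂ ∈ HS x₂ Y₂ R₂ D₂ A s := by
      by_cases h5 : infDist (g x • x₂) (Y₂ A) ≤ D₂
      · exact Or.inl h5
      · refine Or.inr fun g' hg' => ?_
        have h6 := h₂.side A hA (g x • x₂) (not_le.1 h5) g' (g x) hg'
          (by rw [dist_self]; linarith [h₂.R0])
        exact h6.trans h4
    rw [infDist_zero_of_mem hmem]
    exact add_nonneg hr'0 h₂.C0
  · have hne : (Y₁ A).Nonempty := (h₁.ad.cc A hA).ne
    obtain ⟨y, hy, hxy⟩ : ∃ y ∈ Y₁ A, dist x y < max E 0 + 2 + D₁ := by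
      by_cases hx' : x ∈ HS x₁ Y₁ R₁ D₁ A s
      · have h1 : infDist x (Y₁ A) ≤ D₁ := by
          by_contra h
          exact hc ⟨not_le.1 h, hx'⟩
        have h2 : infDist x (Y₁ A) < max E 0 + 2 + D₁ := by
          linarith [le_max_right E 0]
        exact (infDist_lt_iff hne).1 h2
      · have hne' : (HS x₁ Y₁ R₁ D₁ A s).Nonempty := hne.mono (subset_hs h₁ hA s)
        have h1 : infDist x (HS x₁ Y₁ R₁ D₁ A s) < max E 0 + 1 := by
          linarith [le_max_left E 0]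
        obtain ⟨p, hp, hxp⟩ := (infDist_lt_iff hne').1 h1
        obtain ⟨q, hq, hqD⟩ := exists_cross h₁ hA hp hx'
        have h2 : infDist q (Y₁ A) < D₁ + 1 := by linarith
        obtain ⟨y, hy, hqy⟩ := (infDist_lt_iff hne).1 h2
        refine ⟨y, hy, ?_⟩
        have h3 : dist x q + dist q p = dist x p := hq
        have h4 : 0 ≤ dist q p := dist_nonneg
        have h5 := dist_triangle x q y
        linarith
    obtain ⟨k, hk, hyk⟩ := h₁.ad.be A hA y hy
    have h1 : dist x₁ (((g x)⁻¹ * k) • x₁) ≤ R₁ + (max E 0 + 2 + D₁) + C₁ := by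
      rw [← h₁.geom.isom (g x), smul_smul, mul_inv_cancel_left]
      have h2 := dist_triangle (g x • x₁) x (k • x₁)
      have h3 := dist_triangle x y (k • x₁)
      have h4 := hg x
      rw [dist_comm] at h4
      linarith
    have h2 := hr' _ h1
    rw [← h₂.geom.isom (g x), smul_smul, mul_inv_cancel_left] at h2
    have h3 := h₂.ad.al A hA k hk
    have h4 : infDist (g x • x₂) (Y₂ A) ≤ infDist (k • x₂) (Y₂ A) + dist (g x • x₂) (k • x₂) :=
      infDist_le_infDist_add_dist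
    have h5 : infDist (g x • x₂) (HS x₂ Y₂ R₂ D₂ A s) ≤ infDist (g x • x₂) (Y₂ A) :=
      infDist_le_infDist_of_subset (subset_hs h₂ hA s) (h₂.ad.cc A hA).ne
    linarith

end LibCW70
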