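import Pool.Agent.LibCW70.HG1
import Pool.Agent.LibCW70.HD0
import Pool.Agent.LibCW70.HC
import Pool.Agent.LibCE75.A4

set_option autoImplicit false

/-!
# Board CW70, row HG (MEDIUM/LONG).  MP_6fa1a0_gt (cell-like equivalence of CAT(0) boundaries)
Chair: helper70.  Deliver the whole file as CW70_HG.lean (team-store put), statements unchanged,
auxiliary lemmas private (names starting with HG_), no sorry, no axiom, no straight double quotation mark.

Far points are separated with a margin.
PLAN. Let r = max E 0 + 1 + D, n from near_ncard r, M = {u | (Sep 𝓗 u).ncard <= 2 n} finite (h.wall.prop), so there is ρ with dist x₀ (u x₀) <= ρ for u in M. R' = ρ + 2 R + 1. Let R' <= dist x y, g, k : G with dist x (g x₀) <= R, dist y (k x₀) <= R. Then u = g⁻¹ k has dist x₀ (u x₀) = dist (g x₀) (k x₀) >= R' - 2R > ρ,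
so u is not in M, so more than 2n sets of 𝓗 separate g and k (sep_pair_ncard); at most 2n sets A of 𝓗 have infDist x (Y A) <= r or infDist y (Y A) <= r (ncard_union_le), so there is A in 𝓗 which separates g and k, with r < infDist x (Y A), r < infDist y (Y A) (Set.exists_mem_notMem_of_ncard_lt_ncard or
by contradiction with ncard_le_ncard, finite). Let s : Bool with (k in A iff s = true) (s = decide (k in A)). y not in HS A (!s): infDist y (Y A) > r >= D, and the element k within R + 1 of y violates. E < infDist x (HS A s): otherwise there is p in HS A s with dist x p < max E 0 + 1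
(nonempty: subset_hs, infDist_lt_iff). x is not in HS A s: infDist x (Y A) > D and g violates (g, k on different sides). exists_cross gives q between x and p, infDist q (Y A) <= D, dist x q <= dist x p, so infDist x (Y A) <= dist x p + D < r (infDist_le_infDist_add_dist): contradiction.
-/

namespace LibCW70

open Set Metric Topology Filter LibCE75
open scoped NNReal

theorem hs_sep {G X : Type} [Group G] [MetricSpace X] [MulAction G X] {x₀ : X}
    {S : Set G} {𝓗 : Set (Set G)} {Y : Set G → Set X} {C R D : ℝ} (h : Sided x₀ S 𝓗 Y C R D) (x : X) (E : ℝ) :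
    ∃ R' : ℝ, ∀ y : X, R' ≤ dist x y → ∃ A ∈ 𝓗, ∃ s : Bool,
      E < infDist x (HS x₀ Y R D A s) ∧ y ∉ HS x₀ Y R D A (!s) := by
  classical
  obtain ⟨a, ha⟩ : ∃ a : ℝ, a = max E 0 + 1 := ⟨_, rfl⟩
  have haE : E < a := by
    have := le_max_left E 0
    linarith
  have ha0 : 0 < a := by
    have := le_max_right E 0
    linarith
  obtain ⟨n, hn⟩ := near_ncard h (a + D)
  have hM := h.wall.prop (2 * n)
  obtain ⟨ρ, hρ⟩ := (hM.image (fun u : G => dist x₀ (u • x₀))).bddAbove
  have hR0 := h.R0
  have hD0 := h.D0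
  refine ⟨ρ + 2 * R + 1, fun y hy => ?_⟩
  obtain ⟨g, hg⟩ := h.cover x
  obtain ⟨k, hk⟩ := h.cover y
  have hfar : ρ < dist x₀ ((g⁻¹ * k) • x₀) := by
    rw [← dist_smul_smul h.geom]
    have h1 := dist_triangle x (g • x₀) y
    have h2 := dist_triangle (g • x₀) (k • x₀) y
    rw [dist_comm (k • x₀) y] at h2
    linarith
  have hcard : 2 * n < (Sep 𝓗 (g⁻¹ * k)).ncard := by
    by_contra hc
    push Not at hc
    have h1 : dist x₀ ((g⁻¹ * k) • x₀) ≤ ρ := hρ ⟨g⁻¹ * k, hc, rfl⟩
    linarith
  rw [← sep_pair_ncard h.wall] at hcard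
  obtain ⟨hfx, hnx⟩ := hn x
  obtain ⟨hfy, hny⟩ := hn y
  have hlt : ({A | A ∈ 𝓗 ∧ infDist x (Y A) ≤ a + D} ∪
      {A | A ∈ 𝓗 ∧ infDist y (Y A) ≤ a + D}).ncard <
      {A | A ∈ 𝓗 ∧ ¬ (g ∈ A ↔ k ∈ A)}.ncard := by
    have h1 := ncard_union_le {A | A ∈ 𝓗 ∧ infDist x (Y A) ≤ a + D}
      {A | A ∈ 𝓗 ∧ infDist y (Y A) ≤ a + D}
    omega
  obtain ⟨A, ⟨hA, hsep⟩, hAn⟩ := exists_mem_notMem_of_ncard_lt_ncard hlt (hfx.union hfy)
  have hx : a + D < infDist x (Y A) := by
    by_contra hc
    push Not at hc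
    exact hAn (Or.inl ⟨hA, hc⟩)
  have hy' : a + D < infDist y (Y A) := by
    by_contra hc
    push Not at hc
    exact hAn (Or.inr ⟨hA, hc⟩)
  obtain ⟨s, hs⟩ : ∃ s : Bool, (k ∈ A ↔ s = true) := ⟨decide (k ∈ A), by simp⟩
  refine ⟨A, hA, s, ?_, ?_⟩
  · by_contra hc
    push Not at hc
    have hne : (HS x₀ Y R D A s).Nonempty := (h.ad.cc A hA).ne.mono (subset_hs h hA s)
    obtain ⟨p, hp, hxp⟩ := (infDist_lt_iff hne).1 (hc.trans_lt haE)
    have hz : x ∉ HS x₀ Y R D A s := by
      rintro (h1 | h1)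
      · linarith
      · have h2 := h1 g (by linarith)
        exact hsep (h2.trans hs.symm)
    obtain ⟨q, hq, hqD⟩ := exists_cross h hA hp hz
    have h3 : dist x q + dist q p = dist x p := hq
    have h4 : infDist x (Y A) ≤ infDist q (Y A) + dist x q := infDist_le_infDist_add_dist
    have h5 : 0 ≤ dist q p := dist_nonneg
    linarith
  · rintro (h1 | h1)
    · linarith
    · have h2 := h1 k (by linarith)
      rw [hs] at h2
      cases s <;> simp at h2

end LibCW70
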