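import Pool.Agent.LibCW70.B0
import Pool.Agent.LibCE75.A4

set_option autoImplicit false

/-!
# Board CW70, row HG1 (MEDIUM).  MP_6fa1a0_gt (cell-like equivalence of CAT(0) boundaries)
Chair: helper70.  Deliver the whole file as CW70_HG1.lean (team-store put), statements unchanged,
auxiliary lemmas private (names starting with HG1_), no sorry, no axiom, no straight double quotation mark.

Few convex sets Y A are near a given point.
PLAN. Let N = {u : G | dist x₀ (u • x₀) <= R + r + 1 + C}, finite (finite_near), and 𝓢 = union over s in S of Sep 𝓗 s, finite. Given x, g with dist x (g x₀) <= R. If A in 𝓗 and infDist x (Y A) <= r then there is y in Y A with dist x y < r + 1 (h.ad.cc A: nonempty, infDist_lt_iff), k in Fr S A with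
dist y (k x₀) <= C, so u = g⁻¹ k is in N (dist_smul_smul), and A is in the set of sets separating g u and g u s for some s in S: by sep_pair it is in tr (g u) (image) Sep 𝓗 s. So the set of these A is contained in the union over u in N, s in S of tr (g u) (image) Sep 𝓗 s, that is in the
image of the finite set N × 𝓢 under (u, B) |-> tr (g u) B: finite with ncard <= n := ncard (N × 𝓢) (independent of x) (Set.ncard_image_le, Set.ncard_le_ncard, Set.Finite.prod).
-/

namespace LibCW70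

open Set Metric Topology Filter LibCE75
open scoped NNReal

theorem near_ncard {G X : Type} [Group G] [MetricSpace X] [MulAction G X] {x₀ : X}
    {S : Set G} {𝓗 : Set (Set G)} {Y : Set G → Set X} {C R D : ℝ} (h : Sided x₀ S 𝓗 Y C R D) (r : ℝ) :
    ∃ n : ℕ, ∀ x : X, {A | A ∈ 𝓗 ∧ infDist x (Y A) ≤ r}.Finite ∧
      {A | A ∈ 𝓗 ∧ infDist x (Y A) ≤ r}.ncard ≤ n := by
  classical
  have hN : {u : G | dist x₀ (u • x₀) ≤ R + (r + 1) + C}.Finite :=
    finite_near h.cat h.geom x₀ x₀ (R + (r + 1) + C)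
  have hS : (⋃ s ∈ S, Sep 𝓗 s).Finite := h.wall.Sfin.biUnion fun s _ => h.wall.fin s
  have hP : ({u : G | dist x₀ (u • x₀) ≤ R + (r + 1) + C} ×ˢ (⋃ s ∈ S, Sep 𝓗 s)).Finite :=
    hN.prod hS
  refine ⟨({u : G | dist x₀ (u • x₀) ≤ R + (r + 1) + C} ×ˢ (⋃ s ∈ S, Sep 𝓗 s)).ncard,
    fun x => ?_⟩
  obtain ⟨g, hg⟩ := h.cover x
  have hsub : {A | A ∈ 𝓗 ∧ infDist x (Y A) ≤ r} ⊆
      (fun z : G × Set G => tr (g * z.1) z.2) ''
        ({u : G | dist x₀ (u • x₀) ≤ R + (r + 1) + C} ×ˢ (⋃ s ∈ S, Sep 𝓗 s)) := by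
    rintro A ⟨hA, hAr⟩
    obtain ⟨y, hy, hxy⟩ := (infDist_lt_iff (h.ad.cc A hA).ne).mp (lt_of_le_of_lt hAr (lt_add_one r))
    obtain ⟨k, hk, hyk⟩ := h.ad.be A hA y hy
    obtain ⟨s, hs, hn⟩ := hk
    have hmem : A ∈ {A | A ∈ 𝓗 ∧ ¬ (k ∈ A ↔ k * s ∈ A)} := ⟨hA, hn⟩
    rw [sep_pair h.wall, inv_mul_cancel_left] at hmem
    obtain ⟨B, hB, hBA⟩ := hmem
    refine ⟨(g⁻¹ * k, B), ⟨?_, mem_biUnion hs hB⟩, ?_⟩
    · change dist x₀ ((g⁻¹ * k) • x₀) ≤ R + (r + 1) + C
      rw [← dist_smul_smul h.geom g k x₀]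
      have h1 := dist_triangle (g • x₀) x (k • x₀)
      have h2 := dist_triangle x y (k • x₀)
      rw [dist_comm (g • x₀) x] at h1
      linarith
    · change tr (g * (g⁻¹ * k)) B = A
      rw [mul_inv_cancel_left]
      exact hBA
  have hfin := (hP.image (fun z : G × Set G => tr (g * z.1) z.2))
  exact ⟨hfin.subset hsub, (ncard_le_ncard hsub hfin).trans (ncard_image_le hP)⟩

end LibCW70
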