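import Pool.Agent.LibCW70.B0
import Pool.Agent.LibCE75.A1
import Pool.Agent.LibCE75.A2
import Pool.Agent.LibCE75.A4

set_option autoImplicit false

/-!
# Board CW70, row KA (MEDIUM).  MP_6fa1a0_gt (cell-like equivalence of CAT(0) boundaries)
Chair: helper70.  Deliver the whole file as CW70_KA.lean (team-store put), statements unchanged,
auxiliary lemmas private (names starting with KA_), no sorry, no axiom, no straight double quotation mark.

Centralizers of finite sets are coarsely convex.
PLAN. L = upper bound of dist x₀ (f • x₀), f in F (finite), L >= 0. Y = {y | for f in F, dist y (f • y) <= L}. CC: x₀ is in Y; closed (isometries are continuous; isClosed_le); convex: z between p and q with ratio s: z and f • z are the points with ratio s on [p,q] and [f p, f q] (hG.isom), so by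
convex_dist (LibCE75.A1) dist z (f z) <= (1-s) dist p (f p) + s dist q (f q) <= L (see a2_ratio in LibCE75.A2 for the ratio; dist p q = 0 trivial). c in centralizer: c • x₀ is in Y: dist (c x₀) (f c x₀) = dist (c x₀) (c f x₀) = dist x₀ (f x₀) <= L, so infDist = 0.
For the last clause: R from exists_cover. y in Y, g with dist y (g x₀) <= R: then for f in F, dist (g x₀) (f g x₀) <= L + 2R, that is g⁻¹ f g is in the finite set N = {u | dist x₀ (u x₀) <= L + 2R} (finite_near). The map phi_g : F -> N, f |-> g⁻¹ f g has finitely many values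
(functions from the finite type F to the finite type N; Finite (F -> N)). For each value phi which is phi_u for some u choose u_phi; if phi_g = phi_u then g u⁻¹ commutes with all f in F (g⁻¹ f g = u⁻¹ f u), so c = g u⁻¹ is in the centralizer, and dist y (c x₀) <= R + dist (g x₀) (g u⁻¹ x₀)
= R + dist x₀ (u⁻¹ x₀) <= R + max over phi =: C.
-/

namespace LibCW70

open Set Metric Topology Filter LibCE75
open scoped NNReal

private theorem KA_cvx {G X : Type} [Group G] [MetricSpace X] [MulAction G X]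
    (hX : IsCAT0 X) (hG : Geometric G X) (f : G) {L : ℝ} {p q z : X} (hp : dist p (f • p) ≤ L)
    (hq : dist q (f • q) ≤ L) (hz : LibCE75.Btw p z q) : dist z (f • z) ≤ L := by
  rcases (dist_nonneg (x := p) (y := q)).eq_or_lt with h0 | h0
  · have h1 : dist p z = 0 := by
      unfold LibCE75.Btw at hz
      have := dist_nonneg (x := p) (y := z)
      have := dist_nonneg (x := z) (y := q)
      linarith
    rw [← dist_eq_zero.1 h1]
    exact hp
  · have hz' : dist p z + dist z q = dist p q := hz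
    have hzq := dist_nonneg (x := z) (y := q)
    have hs1 : dist p z = dist p z / dist p q * dist p q := by
      field_simp
    have hs2 : dist z q = (1 - dist p z / dist p q) * dist p q := by
      rw [sub_mul, ← hs1]
      linarith
    have hs : dist p z / dist p q ∈ Icc (0 : ℝ) 1 :=
      ⟨div_nonneg dist_nonneg dist_nonneg, (div_le_one h0).2 (by linarith)⟩
    have h := convex_dist hX p q (f • p) (f • q) z (f • z) _ hs hs1 hs2
      (by rw [hG.isom, hG.isom]; exact hs1) (by rw [hG.isom, hG.isom]; exact hs2)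
    obtain ⟨s, hs'⟩ : ∃ s : ℝ, s = dist p z / dist p q := ⟨_, rfl⟩
    rw [← hs'] at h hs
    have h2 : (1 - s) * dist p (f • p) ≤ (1 - s) * L :=
      mul_le_mul_of_nonneg_left hp (by linarith [hs.2])
    have h3 : s * dist q (f • q) ≤ s * L := mul_le_mul_of_nonneg_left hq hs.1
    linarith

theorem coarseCvx_centralizer {G X : Type} [Group G] [MetricSpace X] [MulAction G X]
    (hX : IsCAT0 X) (hG : Geometric G X) (x₀ : X) {F : Set G} (hF : F.Finite) :
    CoarseCvx x₀ (Set.centralizer F) := by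
  obtain ⟨L, hL⟩ := (hF.image fun f => dist x₀ (f • x₀)).bddAbove
  have hL' : ∀ f ∈ F, dist x₀ (f • x₀) ≤ L := fun f hf => hL (mem_image_of_mem _ hf)
  obtain ⟨R, hR0, hR⟩ := exists_cover hG x₀
  have hN := finite_near hX hG x₀ x₀ (R + L + R)
  have : Finite F := hF
  have hT : ((fun (g : G) (f : F) => g⁻¹ * (f : G) * g) ''
      {g | ∀ f ∈ F, dist x₀ ((g⁻¹ * f * g) • x₀) ≤ R + L + R}).Finite := by
    refine (Set.Finite.pi' (fun _ : F => hN)).subset ?_
    rintro _ ⟨g, hg, rfl⟩ f
    exact hg f f.2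
  obtain ⟨C', hC'⟩ := (hT.image fun φ => dist x₀ ((Function.invFunOn
    (fun (g : G) (f : F) => g⁻¹ * (f : G) * g)
      {g | ∀ f ∈ F, dist x₀ ((g⁻¹ * f * g) • x₀) ≤ R + L + R} φ)⁻¹ • x₀)).bddAbove
  refine ⟨{y | ∀ f ∈ F, dist y (f • y) ≤ L}, R + max C' 0, ⟨⟨x₀, hL'⟩, ?_, ?_⟩, ?_, ?_⟩
  · have h1 : {y : X | ∀ f ∈ F, dist y (f • y) ≤ L} =
        ⋂ f ∈ F, {y : X | dist y (f • y) ≤ L} := by
      ext y
      simp
    rw [h1]
    refine isClosed_biInter fun f _ => isClosed_le ?_ continuous_const
    exact continuous_id.dist (Isometry.of_dist_eq (hG.isom f)).continuous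
  · intro p hp q hq z hz f hf
    exact KA_cvx hX hG f (hp f hf) (hq f hf) hz
  · intro c hc
    have h1 : c • x₀ ∈ {y : X | ∀ f ∈ F, dist y (f • y) ≤ L} := by
      intro f hf
      have h2 : f * c = c * f := Set.mem_centralizer_iff.1 hc f hf
      rw [smul_smul, h2, ← smul_smul, hG.isom]
      exact hL' f hf
    rw [infDist_zero_of_mem h1]
    exact add_nonneg hR0 (le_max_right _ _)
  · intro y hy
    obtain ⟨g, hg⟩ := hR y
    have hgA : g ∈ {g | ∀ f ∈ F, dist x₀ ((g⁻¹ * f * g) • x₀) ≤ R + L + R} := by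
      intro f hf
      have h1 : dist x₀ ((g⁻¹ * f * g) • x₀) = dist (g • x₀) (f • g • x₀) := by
        rw [← hG.isom g x₀, smul_smul, smul_smul]
        congr 2
        group
      rw [h1]
      have h2 := dist_triangle4 (g • x₀) y (f • y) (f • g • x₀)
      rw [hG.isom f, dist_comm (g • x₀) y] at h2
      have h3 := hy f hf
      linarith
    obtain ⟨u, hu⟩ : ∃ u, u = Function.invFunOn
      (fun (g : G) (f : F) => g⁻¹ * (f : G) * g)
        {g | ∀ f ∈ F, dist x₀ ((g⁻¹ * f * g) • x₀) ≤ R + L + R}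
        (fun f : F => g⁻¹ * (f : G) * g) := ⟨_, rfl⟩
    have hex : ∃ a ∈ {g | ∀ f ∈ F, dist x₀ ((g⁻¹ * f * g) • x₀) ≤ R + L + R},
        (fun (g : G) (f : F) => g⁻¹ * (f : G) * g) a = fun f : F => g⁻¹ * (f : G) * g :=
      ⟨g, hgA, rfl⟩
    have hu1 := Function.invFunOn_eq hex
    rw [← hu] at hu1
    have hu2 : dist x₀ (u⁻¹ • x₀) ≤ C' := by
      apply hC'
      refine ⟨fun f : F => g⁻¹ * (f : G) * g, ⟨g, hgA, rfl⟩, ?_⟩
      simp only [← hu]
    refine ⟨g * u⁻¹, ?_, ?_⟩
    · rw [Set.mem_centralizer_iff]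
      intro f hf
      have h1 : u⁻¹ * f * u = g⁻¹ * f * g := congrFun hu1 ⟨f, hf⟩
      have h2 : g * (u⁻¹ * f * u) * u⁻¹ = g * (g⁻¹ * f * g) * u⁻¹ := by rw [h1]
      have h3 : g * (u⁻¹ * f * u) * u⁻¹ = g * u⁻¹ * f := by group
      have h4 : g * (g⁻¹ * f * g) * u⁻¹ = f * (g * u⁻¹) := by group
      rw [← h4, ← h2, h3]
    · have h1 : dist (g • x₀) ((g * u⁻¹) • x₀) = dist x₀ (u⁻¹ • x₀) := by
        rw [← smul_smul, hG.isom]
      have h2 := dist_triangle y (g • x₀) ((g * u⁻¹) • x₀)
      rw [h1] at h2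
      have h3 := le_max_left C' 0
      linarith

end LibCW70
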