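import Pool.Agent.LibCW70.B0

set_option autoImplicit false

/-!
# Board CW70, row KB (SHORT/MEDIUM).  MP_6fa1a0_gt (cell-like equivalence of CAT(0) boundaries)
Chair: helper70.  Deliver the whole file as CW70_KB.lean (team-store put), statements unchanged,
auxiliary lemmas private (names starting with KB_), no sorry, no axiom, no straight double quotation mark.

Coarse convexity is stable under finite Hausdorff distance.
PLAN. Same Y, C' = C + max over k in K of dist x₀ (k • x₀) (finite; 0 if K is empty). g in E', k in K with g k in E: infDist (g x₀) Y <= infDist ((g k) x₀) Y + dist (g x₀) ((g k) x₀) and dist (g x₀) ((g k) x₀) = dist x₀ (k x₀) (dist_smul_smul, group; infDist_le_infDist_add_dist). y in Y: g in E with dist y (g x₀) <= C, k with g k in E'.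
-/

namespace LibCW70

open Set Metric Topology Filter LibCE75
open scoped NNReal

theorem CoarseCvx.of_near {G X : Type} [Group G] [MetricSpace X] [MulAction G X]
    (hG : Geometric G X) {x₀ : X} {E E' K : Set G} (hK : K.Finite) (h : CoarseCvx x₀ E)
    (h1 : ∀ g ∈ E', ∃ k ∈ K, g * k ∈ E) (h2 : ∀ g ∈ E, ∃ k ∈ K, g * k ∈ E') :
    CoarseCvx x₀ E' := by
  obtain ⟨Y, C, hY, ha, hb⟩ := h
  obtain ⟨M, hM⟩ : ∃ M : ℝ, ∀ k ∈ K, dist x₀ (k • x₀) ≤ M := by
    obtain ⟨M, hM⟩ := (hK.image (fun k => dist x₀ (k • x₀))).bddAbove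
    exact ⟨M, fun k hk => hM ⟨k, hk, rfl⟩⟩
  have hd : ∀ g k : G, dist (g • x₀) ((g * k) • x₀) = dist x₀ (k • x₀) := by
    intro g k
    rw [dist_smul_smul hG, inv_mul_cancel_left]
  refine ⟨Y, C + M, hY, fun g hg => ?_, fun y hy => ?_⟩
  · obtain ⟨k, hk, hgk⟩ := h1 g hg
    have h3 := infDist_le_infDist_add_dist (s := Y) (x := g • x₀) (y := (g * k) • x₀)
    have h4 := ha _ hgk
    have h5 := hd g k
    have h6 := hM k hk
    linarith
  · obtain ⟨g, hg, hgy⟩ := hb y hy
    obtain ⟨k, hk, hgk⟩ := h2 g hg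
    refine ⟨g * k, hgk, ?_⟩
    have h3 := dist_triangle y (g • x₀) ((g * k) • x₀)
    have h5 := hd g k
    have h6 := hM k hk
    linarith

end LibCW70
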