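import Pool.Agent.LibCW70.B0

set_option autoImplicit false

/-!
# Board CW70, row KD (MEDIUM).  MP_6fa1a0_gt (cell-like equivalence of CAT(0) boundaries)
Chair: helper70.  Deliver the whole file as CW70_KD.lean (team-store put), statements unchanged,
auxiliary lemmas private (names starting with KD_), no sorry, no axiom, no straight double quotation mark.

Subgroups of finite index.
PLAN. Geometric for the subgroup H of finite index (its action on X is the restricted one: h • x = (h : G) • x; Subgroup.smul_def or rfl). isom: clear. proper: the set is mapped injectively (Subtype.val) into the set of G (Set.Finite.preimage / Finite.of_injOn). cocompact: K compact with G K = X; G = union of finitely many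
right cosets H t (H has finite index: Finite (G / H) quotient; take the finite set T of representatives t with G = union H t; for instance T = range of (Quotient.out q)⁻¹ over q : G ⧸ H, g⁻¹ ∈ (out q) H, so g in H (out q)⁻¹). K' = union over t in T of preimages {x | ∃ t in T, ...}: for x there is g with g • x in K, g⁻¹ = out q * h⁻¹..., choose
write g = t * h with h in H, t in a finite set T of left coset representatives: then h • x = t⁻¹ • (g • x) is in the union of the compact sets t⁻¹ • K (image of the compact K under the continuous map x |-> t⁻¹ • x), finite union: compact (Set.Finite.isCompact_biUnion). ceUnique_of_finiteIndex: X₁, X₂ with G-actions, restrict to H.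
-/

namespace LibCW70

open Set Metric Topology Filter LibCE75
open scoped NNReal

theorem geometric_subgroup {G X : Type} [Group G] [MetricSpace X] [MulAction G X]
    (hG : Geometric G X) (H : Subgroup G) [H.FiniteIndex] : Geometric ↥H X := by
  classical
  refine ⟨fun h x y => hG.isom (h : G) x y, fun x => ?_, ?_⟩
  · obtain ⟨r, hr, hfin⟩ := hG.proper x
    refine ⟨r, hr, ?_⟩
    have h1 : {g : ↥H | ((fun y : X => g • y) '' ball x r ∩ ball x r).Nonempty} =
        (fun g : ↥H => (g : G)) ⁻¹' {g : G | ((fun y : X => g • y) '' ball x r ∩ ball x r).Nonempty} := by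
      ext g
      rfl
    rw [h1]
    exact hfin.preimage (Subtype.val_injective.injOn)
  · obtain ⟨K, hK, hcov⟩ := hG.cocompact
    have hcont : ∀ g : G, Continuous (fun x : X => g • x) := by
      intro g
      have : Isometry (fun x : X => g • x) := Isometry.of_dist_eq (hG.isom g)
      exact this.continuous
    haveI : Finite (G ⧸ H) := inferInstance
    refine ⟨⋃ q : G ⧸ H, (fun x : X => (Quotient.out q)⁻¹ • x) '' K, ?_, fun x => ?_⟩
    · exact isCompact_iUnion fun q => hK.image (hcont _)
    · obtain ⟨g, hg⟩ := hcov x
      -- `g = t * h`
      set q : G ⧸ H := (QuotientGroup.mk g : G ⧸ H) with hq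
      have hmem : (Quotient.out q)⁻¹ * g ∈ H := by
        rw [← QuotientGroup.eq]
        rw [hq]
        exact QuotientGroup.out_eq' _
      refine ⟨⟨(Quotient.out q)⁻¹ * g, hmem⟩, ?_⟩
      refine mem_iUnion.2 ⟨q, g • x, hg, ?_⟩
      show (Quotient.out q)⁻¹ • (g • x) = ((Quotient.out q)⁻¹ * g) • x
      rw [smul_smul]

theorem ceUnique_of_finiteIndex {G : Type} [Group G] (H : Subgroup G) [H.FiniteIndex]
    (h : CEUnique ↥H) : CEUnique G := by
  intro X₁ X₂ _ _ _ _ h1 h2 g1 g2 x₁ x₂
  exact h X₁ X₂ h1 h2 (geometric_subgroup g1 H) (geometric_subgroup g2 H) x₁ x₂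

end LibCW70
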