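import Pool.Agent.LibCW70.P9

set_option autoImplicit false

/-!
# Board CW70, row P10 (MEDIUM).  MP_6fa1a0_gt (cell-like equivalence of CAT(0) boundaries)
Chair: helper70.  Deliver the whole file as CW70_P10.lean (team-store put), statements unchanged,
auxiliary lemmas private (names starting with P10_), no sorry, no axiom, no straight double quotation mark.

The graph product with its half spaces satisfies WallG, each g <> 1 is separated from 1.
PLAN. exists_min: every g is gprod L for some L (gp_induction: L ++ [⟨v, s⟩]), take one of minimal length (Nat.find / WellFounded.min): MinWord. Sfin: gpGen is the union over the finite type V of the finite sets of v (image) S v. Sgen: closure_gen. inv: tr_tr. fin: gp_fin. prop: if (Sep g).ncard <= n, g = gprod L, L minimal: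
L.length <= n and (Sep (𝓗 v) a).ncard <= n for all ⟨v, a⟩ in L; the set T of all ⟨v, a⟩ with (Sep (𝓗 v) a).ncard <= n is finite (V finite, WallG.prop; Set.Finite.sigma or union of images), the lists of length <= n with entries in T are finite (List.finite_length_le for the subtype, or induction), g is in the image.
Second statement: g <> 1, g = gprod L minimal, L <> [] so 1 <= ncard, so Sep is nonempty.
-/

namespace LibCW70

open Set Filter LibCE75

private theorem P10_gprod_append {V : Type} {Γ : SimpleGraph V} {G : V → Type} [∀ v, Group (G v)]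
    (L : List (Σ v, G v)) (v : V) (s : G v) :
    gprod Γ G (L ++ [⟨v, s⟩]) = gprod Γ G L * GP.of Γ G v s := by
  simp [gprod]

private theorem P10_exists_word {V : Type} {Γ : SimpleGraph V} {G : V → Type} [∀ v, Group (G v)]
    (g : GP Γ G) : ∃ L : List (Σ v, G v), gprod Γ G L = g := by
  induction g using gp_induction with
  | one => exact ⟨[], by simp [gprod]⟩
  | mul w v s ih =>
    obtain ⟨L, hL⟩ := ih
    exact ⟨L ++ [⟨v, s⟩], by rw [P10_gprod_append, hL]⟩

private theorem P10_exists_min {V : Type} {Γ : SimpleGraph V} {G : V → Type} [∀ v, Group (G v)]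
    (g : GP Γ G) : ∃ L : List (Σ v, G v), gprod Γ G L = g ∧ MinWord Γ G L := by
  classical
  have hex : ∃ n : ℕ, ∃ L : List (Σ v, G v), gprod Γ G L = g ∧ L.length = n := by
    obtain ⟨L, hL⟩ := P10_exists_word g
    exact ⟨L.length, L, hL, rfl⟩
  obtain ⟨L, hL, hn⟩ := Nat.find_spec hex
  refine ⟨L, hL, ?_⟩
  intro L' hL'
  rw [hn]
  exact Nat.find_min' hex ⟨L', hL'.trans hL, rfl⟩

private theorem P10_lists_finite {α : Type} {T : Set α} (hT : T.Finite) (n : ℕ) :
    {L : List α | L.length ≤ n ∧ ∀ x ∈ L, x ∈ T}.Finite := by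
  induction n with
  | zero =>
    refine (Set.finite_singleton ([] : List α)).subset ?_
    rintro L ⟨h, -⟩
    simpa using h
  | succ n ih =>
    have h1 : ((fun q : α × List α => q.1 :: q.2) ''
        (T ×ˢ {L : List α | L.length ≤ n ∧ ∀ x ∈ L, x ∈ T})).Finite := (hT.prod ih).image _
    refine (h1.union (Set.finite_singleton ([] : List α))).subset ?_
    rintro L ⟨h, hx⟩
    cases L with
    | nil => right; rfl
    | cons a L =>
      left
      refine ⟨(a, L), ⟨hx a (by simp), ?_, ?_⟩, rfl⟩
      · simpa using h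
      · intro x hxL
        exact hx x (by simp [hxL])

theorem gp_wallG {V : Type} {Γ : SimpleGraph V} {G : V → Type} [∀ v, Group (G v)] [Finite V]
    {S : ∀ v, Set (G v)} {𝓗 : ∀ v, Set (Set (G v))} (hw : ∀ v, WallG (S v) (𝓗 v))
    (hne : ∀ v, ∀ g : G v, g ≠ 1 → (Sep (𝓗 v) g).Nonempty)
    {p : ∀ v, GP Γ G → G v} (hp : ∀ v, Proj Γ G v (p v)) :
    WallG (gpGen Γ S) (gpFam p 𝓗) ∧
      ∀ g : GP Γ G, g ≠ 1 → (Sep (gpFam p 𝓗) g).Nonempty := by
  refine ⟨⟨?_, ?_, ?_, ?_, ?_⟩, ?_⟩
  · have h : (⋃ v : V, (fun s => GP.of Γ G v s) '' S v).Finite :=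
      Set.finite_iUnion fun v => (hw v).Sfin.image _
    refine h.subset ?_
    rintro x ⟨v, s, hs, rfl⟩
    exact Set.mem_iUnion.2 ⟨v, s, hs, rfl⟩
  · exact closure_gen Γ G S fun v => (hw v).Sgen
  · rintro g A ⟨h, v, B, hB, rfl⟩
    exact ⟨g * h, v, B, hB, tr_tr g h _⟩
  · exact gp_fin hw hp
  · intro n
    have hT : {x : Σ v, G v | (Sep (𝓗 x.1) x.2).ncard ≤ n}.Finite := by
      have h : (⋃ v : V, (fun a : G v => (⟨v, a⟩ : Σ v, G v)) ''
          {a : G v | (Sep (𝓗 v) a).ncard ≤ n}).Finite :=
        Set.finite_iUnion fun v => ((hw v).prop n).image _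
      refine h.subset ?_
      rintro ⟨v, a⟩ ha
      exact Set.mem_iUnion.2 ⟨v, a, ha, rfl⟩
    refine ((P10_lists_finite hT n).image (gprod Γ G)).subset ?_
    intro g hg
    obtain ⟨L, hL, hmin⟩ := P10_exists_min g
    have hg' : (Sep (gpFam p 𝓗) (gprod Γ G L)).ncard ≤ n := by
      rw [hL]
      exact hg
    refine ⟨L, ⟨?_, ?_⟩, hL⟩
    · exact (length_le_ncard_gp hw hne hp L hmin).trans hg'
    · rintro ⟨v, a⟩ hx
      exact (ncard_le_ncard_gp hw hp L hmin v a hx).trans hg'
  · intro g hg
    obtain ⟨L, hL, hmin⟩ := P10_exists_min g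
    have hlen := length_le_ncard_gp hw hne hp L hmin
    rw [hL] at hlen
    have hLne : L ≠ [] := by
      rintro rfl
      apply hg
      rw [← hL]
      simp [gprod]
    have hpos : 0 < (Sep (gpFam p 𝓗) g).ncard :=
      lt_of_lt_of_le (List.length_pos_iff.2 hLne) hlen
    exact Set.nonempty_of_ncard_ne_zero hpos.ne'

end LibCW70
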