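import Pool.Agent.LibCW70.P5

set_option autoImplicit false

/-!
# Board CW70, row P12 (MEDIUM/LONG).  MP_6fa1a0_gt (cell-like equivalence of CAT(0) boundaries)
Chair: helper70.  Deliver the whole file as CW70_P12.lean (team-store put), statements unchanged,
auxiliary lemmas private (names starting with P12_), complete, no axiom, no straight double quotation mark.

The frontiers in a graph product are near to centralizers.
PLAN. B = tr g (p v ⁻¹ A), of = GP.of v. w in Fr (gpGen S) B iff g⁻¹ w in St v and p v (g⁻¹ w) in Fr (S v) A (gp_not_sep, gp_sep; gpGen). F from hF, K from NearCent F (Fr (S v) A). F' = {g (of f) g⁻¹ | f in F}, finite, contains g (of f) g⁻¹ <> 1 for f <> 1 (proj_of: of is injective).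
K' = {(of k) g⁻¹ | k in K} union {g (of k) | k in K}. (1) w in Fr B: x = g⁻¹ w = of (p x) * l, l in Lk (st_decomp), k in K with p x * k in centralizer F. Then x * of k = of (p x k) * l (lk_comm) commutes with of f for f in F, so w * ((of k) g⁻¹) = g (x of k) g⁻¹ commutes with g (of f) g⁻¹.
(2) c in centralizer F': c' = g⁻¹ c g commutes with of f, f in F; with f <> 1: c' in St v (mem_st_of_comm). c' = of (p c') * l; c' of f = of f c' gives p c' * f = f * p c' (apply p: proj_mul for c' in St and for of f in St, proj_of). So k in K with p c' * k in Fr A; g⁻¹ (c * (g of k)) = c' * of k is in St and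
p (c' * of k) = p c' * k (proj_mul, proj_of) is in Fr (S v) A, so c * (g * of k) in Fr B.
-/

namespace LibCW70

open Set Filter LibCE75

private theorem P12_mem {V : Type} {Γ : SimpleGraph V} {G : V → Type} [∀ v, Group (G v)]
    {S : ∀ v, Set (G v)} {v : V} {p : GP Γ G → G v} (hp : Proj Γ G v p) {A : Set (G v)}
    (g w : GP Γ G) : w ∈ Fr (gpGen Γ S) (tr g (p ⁻¹' A)) ↔
      g⁻¹ * w ∈ St Γ G v ∧ p (g⁻¹ * w) ∈ Fr (S v) A := by
  constructor
  · rintro ⟨x, ⟨u, s, hs, rfl⟩, hx⟩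
    by_cases hu : u = v
    · subst hu
      obtain ⟨h1, h2⟩ := (gp_sep hp s A g w).1 hx
      exact ⟨h1, s, hs, h2⟩
    · exact absurd (gp_not_sep hp hu s A g w) hx
  · rintro ⟨h1, s, hs, h2⟩
    exact ⟨GP.of Γ G v s, ⟨v, s, hs, rfl⟩, (gp_sep hp s A g w).2 ⟨h1, h2⟩⟩

theorem gp_nearCent {V : Type} {Γ : SimpleGraph V} {G : V → Type} [∀ v, Group (G v)]
    {S : ∀ v, Set (G v)} {v : V} {p : GP Γ G → G v} (hp : Proj Γ G v p) {A : Set (G v)}
    (hF : ∃ F : Set (G v), (∃ f ∈ F, f ≠ 1) ∧ NearCent F (Fr (S v) A)) (g : GP Γ G) :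
    ∃ F : Set (GP Γ G), (∃ f ∈ F, f ≠ 1) ∧ NearCent F (Fr (gpGen Γ S) (tr g (p ⁻¹' A))) := by
  obtain ⟨F, ⟨f₀, hf₀, hf₀1⟩, hFfin, K, hK, hK1, hK2⟩ := hF
  refine ⟨(fun f => g * GP.of Γ G v f * g⁻¹) '' F, ⟨_, ⟨f₀, hf₀, rfl⟩, ?_⟩, hFfin.image _,
    ((fun k => GP.of Γ G v k * g⁻¹) '' K) ∪ ((fun k => g * GP.of Γ G v k) '' K),
    (hK.image _).union (hK.image _), ?_, ?_⟩
  · intro h
    apply hf₀1
    have h1 : GP.of Γ G v f₀ = 1 := by
      have h2 : g * GP.of Γ G v f₀ * g⁻¹ = 1 := h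
      calc GP.of Γ G v f₀ = g⁻¹ * (g * GP.of Γ G v f₀ * g⁻¹) * g := by group
        _ = 1 := by rw [h2]; group
    rw [← proj_of hp f₀, h1, hp.one]
  · intro w hw
    obtain ⟨h1, h2⟩ := (P12_mem hp g w).1 hw
    obtain ⟨k, hk, hk'⟩ := hK1 _ h2
    refine ⟨_, Or.inl ⟨k, hk, rfl⟩, ?_⟩
    have hl := st_decomp hp h1
    set x := g⁻¹ * w with hx
    set l := (GP.of Γ G v (p x))⁻¹ * x with hl'
    have ex : x = GP.of Γ G v (p x) * l := by rw [hl']; group
    have ey : x * GP.of Γ G v k = GP.of Γ G v (p x * k) * l := by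
      conv_lhs => rw [ex]
      rw [mul_assoc, lk_comm hl, ← mul_assoc, ← map_mul]
    have hcomm : ∀ f ∈ F, GP.of Γ G v f * (x * GP.of Γ G v k) =
        x * GP.of Γ G v k * GP.of Γ G v f := by
      intro f hf
      rw [ey, ← mul_assoc, ← map_mul, Set.mem_centralizer_iff.1 hk' f hf, map_mul, mul_assoc,
        ← lk_comm hl, ← mul_assoc]
    rw [Set.mem_centralizer_iff]
    rintro _ ⟨f, hf, rfl⟩
    have e1 : w * (GP.of Γ G v k * g⁻¹) = g * (x * GP.of Γ G v k) * g⁻¹ := by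
      rw [hx]; group
    change g * GP.of Γ G v f * g⁻¹ * (w * (GP.of Γ G v k * g⁻¹)) =
      w * (GP.of Γ G v k * g⁻¹) * (g * GP.of Γ G v f * g⁻¹)
    rw [e1]
    calc g * GP.of Γ G v f * g⁻¹ * (g * (x * GP.of Γ G v k) * g⁻¹)
        = g * (GP.of Γ G v f * (x * GP.of Γ G v k)) * g⁻¹ := by group
      _ = g * (x * GP.of Γ G v k * GP.of Γ G v f) * g⁻¹ := by rw [hcomm f hf]
      _ = _ := by group
  · intro c hc
    rw [Set.mem_centralizer_iff] at hc
    have hcomm : ∀ f ∈ F, GP.of Γ G v f * (g⁻¹ * c * g) = g⁻¹ * c * g * GP.of Γ G v f := by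
      intro f hf
      have h1 : g * GP.of Γ G v f * g⁻¹ * c = c * (g * GP.of Γ G v f * g⁻¹) := hc _ ⟨f, hf, rfl⟩
      calc GP.of Γ G v f * (g⁻¹ * c * g) = g⁻¹ * (g * GP.of Γ G v f * g⁻¹ * c) * g := by group
        _ = g⁻¹ * (c * (g * GP.of Γ G v f * g⁻¹)) * g := by rw [h1]
        _ = _ := by group
    have hst : g⁻¹ * c * g ∈ St Γ G v := mem_st_of_comm hp hf₀1 (hcomm f₀ hf₀).symm
    have hcent : p (g⁻¹ * c * g) ∈ Set.centralizer F := by
      rw [Set.mem_centralizer_iff]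
      intro f hf
      have h1 := congrArg p (hcomm f hf)
      rw [proj_mul hp (of_mem_st Γ G v f), proj_mul hp hst, proj_of hp] at h1
      exact h1
    obtain ⟨k, hk, hk'⟩ := hK2 _ hcent
    refine ⟨_, Or.inr ⟨k, hk, rfl⟩, ?_⟩
    rw [P12_mem hp]
    have e1 : g⁻¹ * (c * (g * GP.of Γ G v k)) = g⁻¹ * c * g * GP.of Γ G v k := by group
    change g⁻¹ * (c * (g * GP.of Γ G v k)) ∈ St Γ G v ∧
      p (g⁻¹ * (c * (g * GP.of Γ G v k))) ∈ Fr (S v) A
    rw [e1, proj_mul hp hst, proj_of hp]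
    exact ⟨mul_mem hst (of_mem_st Γ G v k), hk'⟩

end LibCW70
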