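import Pool.Agent.LibCW70.B0

set_option autoImplicit false

/-!
# Board CW70, row P13 (SHORT/MEDIUM).  MP_6fa1a0_gt (cell-like equivalence of CAT(0) boundaries)
Chair: helper70.  Deliver the whole file as CW70_P13.lean (team-store put), statements unchanged,
auxiliary lemmas private (names starting with P13_), no sorry, no axiom, no straight double quotation mark.

Finite groups have strong walls.
PLAN. If G is trivial (Subsingleton): S = univ (or empty), 𝓗 = empty set: all conditions are clear (G finite; g <> 1 impossible). Otherwise S = univ, 𝓗 = all singletons: inv: tr g {a} = {g a}. fin: 𝓗 is finite (Set.toFinite). prop: Set.toFinite. For g <> 1: {1} separates. F = K = univ: Fr {a} is not empty (s = a⁻¹ b with b <> a, g = a):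
for g in Fr: k = g⁻¹, g k = 1 in the centralizer; for c in the centralizer: k = c⁻¹ a' with a' in Fr.
-/

namespace LibCW70

open Set Filter LibCE75

private theorem P13_tr_singleton {G : Type} [Group G] (g a : G) : tr g ({a} : Set G) = {g * a} := by
  ext x
  simp only [tr, Set.mem_setOf_eq, Set.mem_singleton_iff]
  constructor
  · intro h
    rw [← h]
    group
  · intro h
    rw [h]
    group

private theorem P13_closure_univ {G : Type} [Group G] :
    Submonoid.closure (Set.univ : Set G) = ⊤ := Submonoid.closure_univ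

private theorem P13_triv {G : Type} [Group G] [Finite G] (h : Subsingleton G) :
    StrongWalls G := by
  refine ⟨Set.univ, ∅, ⟨Set.toFinite _, P13_closure_univ, ?_, ?_, ?_⟩, ?_, ?_⟩
  · intro g A hA
    exact absurd hA (Set.notMem_empty A)
  · intro g
    exact Set.toFinite _
  · intro n
    exact Set.toFinite _
  · intro g hg
    exact absurd (Subsingleton.elim g 1) hg
  · intro A hA
    exact absurd hA (Set.notMem_empty A)

private theorem P13_Fr_ne {G : Type} [Group G] (a b : G) (hab : b ≠ a) :
    a ∈ Fr (Set.univ : Set G) ({a} : Set G) := by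
  refine ⟨a⁻¹ * b, Set.mem_univ _, ?_⟩
  intro h
  have h1 : a * (a⁻¹ * b) ∈ ({a} : Set G) := h.1 (Set.mem_singleton a)
  rw [Set.mem_singleton_iff, mul_inv_cancel_left] at h1
  exact hab h1

private theorem P13_nontriv {G : Type} [Group G] [Finite G] (h : Nontrivial G) :
    StrongWalls G := by
  refine ⟨Set.univ, {A | ∃ a : G, A = {a}},
    ⟨Set.toFinite _, P13_closure_univ, ?_, ?_, ?_⟩, ?_, ?_⟩
  · rintro g A ⟨a, rfl⟩
    exact ⟨g * a, P13_tr_singleton g a⟩
  · intro g
    exact Set.toFinite _
  · intro n
    exact Set.toFinite _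
  · intro g hg
    refine ⟨{1}, ⟨1, rfl⟩, ?_⟩
    intro h
    have h1 : g ∈ ({1} : Set G) := h.1 (Set.mem_singleton 1)
    exact hg (Set.mem_singleton_iff.1 h1)
  · rintro A ⟨a, rfl⟩
    obtain ⟨f, hf⟩ := exists_ne (1 : G)
    obtain ⟨b, hb⟩ := exists_ne a
    refine ⟨Set.univ, ⟨f, Set.mem_univ _, hf⟩, Set.toFinite _, Set.univ, Set.toFinite _, ?_, ?_⟩
    · intro g _
      refine ⟨g⁻¹, Set.mem_univ _, ?_⟩
      rw [mul_inv_cancel]
      rw [Set.mem_centralizer_iff]
      intro m _
      rw [mul_one, one_mul]
    · intro c _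
      refine ⟨c⁻¹ * a, Set.mem_univ _, ?_⟩
      rw [mul_inv_cancel_left]
      exact P13_Fr_ne a b hb

theorem strongWalls_of_finite (G : Type) [Group G] [Finite G] : StrongWalls G := by
  rcases subsingleton_or_nontrivial G with h | h
  · exact P13_triv h
  · exact P13_nontriv h

end LibCW70
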