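import Pool.Agent.LibCW70.P1

set_option autoImplicit false

/-!
# Board CW70, row P2 (MEDIUM/LONG).  MP_6fa1a0_gt (cell-like equivalence of CAT(0) boundaries)
Chair: helper70.  Deliver the whole file as CW70_P2.lean (team-store put), statements unchanged,
auxiliary lemmas private (names starting with P2_), no sorry, no axiom, no straight double quotation mark.

The projection of the graph product to the v-syllable at the beginning.
PLAN. G acts from the left on Ω = GP × G v: for r : G u define the permutation f u r of Ω: (w, a) |-> (w * (of u r)⁻¹, a * r⁻¹ if u = v and w in St v; a otherwise). (Handle u = v by cases: for u = v the map f v : G v →* Perm Ω, for u <> v the map f u : G u →* Perm Ω, (w,a) |-> (w (of r)⁻¹, a); define f by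
dite on u = v with cast, or prove existence of a family by: for all u, there is a hom f u with (u <> v -> formula) and (for e : u = v, formula), then choose.) It is a homomorphism in r since w in St v iff w (of v r)⁻¹ in St v (of v r in St v). Commutation for adjacent u, u': if both <> v clear (of_comm);
if u = v, u' adjacent to v: w in St iff w (of u' r')⁻¹ in St, since of u' r' in St v. (v is not adjacent to v.) exists_lift gives Φ : GP →* Perm Ω. Φ x (w, a) has first coordinate w x⁻¹ (gp_induction). p w = (Φ w⁻¹ (1, 1)).2. Then Φ (w of s)⁻¹ = Φ (of s⁻¹) Φ w⁻¹, Φ w⁻¹ (1,1) = (w, p w),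
so p (w * of v s) = p w * s if w in St v, else p w; p (w * of u s) = p w for u <> v.
-/

namespace LibCW70

open Set Filter LibCE75

section P2_aux

variable {V : Type} (Γ : SimpleGraph V) (G : V → Type) [∀ v, Group (G v)] (v : V)

open Classical in
/-- The permutation of `GP × G v` given by `x` and `b`. -/
private noncomputable def P2_E (x : GP Γ G) (b : G v) : Equiv.Perm (GP Γ G × G v) where
  toFun y := (y.1 * x⁻¹, if y.1 ∈ St Γ G v then y.2 * b⁻¹ else y.2)
  invFun y := (y.1 * x, if y.1 * x ∈ St Γ G v then y.2 * b else y.2)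
  left_inv y := by
    rcases y with ⟨w, a⟩
    by_cases h : w ∈ St Γ G v <;> simp [h]
  right_inv y := by
    rcases y with ⟨w, a⟩
    by_cases h : w * x ∈ St Γ G v <;> simp [h]

open Classical in
private theorem P2_E_apply (x : GP Γ G) (b : G v) (w : GP Γ G) (a : G v) :
    P2_E Γ G v x b (w, a) = (w * x⁻¹, if w ∈ St Γ G v then a * b⁻¹ else a) := rfl

private theorem P2_E_mul (x y : GP Γ G) (b c : G v) (h : y ∈ St Γ G v ∨ b = 1) :
    P2_E Γ G v x b * P2_E Γ G v y c = P2_E Γ G v (x * y) (b * c) := by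
  classical
  apply Equiv.ext
  rintro ⟨w, a⟩
  rw [Equiv.Perm.mul_apply, P2_E_apply, P2_E_apply, P2_E_apply]
  rcases h with h | h
  · have hw : w * y⁻¹ ∈ St Γ G v ↔ w ∈ St Γ G v :=
      Subgroup.mul_mem_cancel_right _ (inv_mem h)
    by_cases h1 : w ∈ St Γ G v
    · have h2 : w * y⁻¹ ∈ St Γ G v := hw.2 h1
      simp [h1, h2, mul_assoc]
    · have h2 : w * y⁻¹ ∉ St Γ G v := fun h3 => h1 (hw.1 h3)
      simp [h1, h2, mul_assoc]
  · subst h
    by_cases h1 : w ∈ St Γ G v <;> by_cases h2 : w * y⁻¹ ∈ St Γ G v <;>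
      simp [h1, h2, mul_assoc]

private theorem P2_mem_St {u : V} (g : G u) (h : u = v ∨ Γ.Adj v u) :
    GP.of Γ G u g ∈ St Γ G v :=
  Subgroup.subset_closure ⟨u, g, h, rfl⟩

open Classical in
/-- The map `G u →* G v`: the identity for `u = v`, trivial otherwise. -/
private noncomputable def P2_c (u : V) : G u →* G v :=
  (Pi.evalMonoidHom G v).comp (MonoidHom.mulSingle G u)

private theorem P2_c_same (s : G v) : P2_c G v v s = s := by
  classical
  simp [P2_c]

private theorem P2_c_other {u : V} (h : u ≠ v) (s : G u) : P2_c G v u s = 1 := by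
  classical
  simp only [P2_c, MonoidHom.comp_apply, Pi.evalMonoidHom_apply, MonoidHom.mulSingle_apply]
  exact Pi.mulSingle_eq_of_ne (Ne.symm h) s

private theorem P2_E_one : P2_E Γ G v 1 1 = 1 := by
  classical
  apply Equiv.ext
  rintro ⟨w, a⟩
  rw [P2_E_apply]
  simp

/-- The action of the vertex group `G u`. -/
private noncomputable def P2_f (u : V) : G u →* Equiv.Perm (GP Γ G × G v) where
  toFun r := P2_E Γ G v (GP.of Γ G u r) (P2_c G v u r)
  map_one' := by rw [map_one, map_one, P2_E_one]
  map_mul' r s := by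
    rw [map_mul, map_mul, P2_E_mul]
    by_cases h : u = v
    · exact Or.inl (P2_mem_St Γ G v s (Or.inl h))
    · exact Or.inr (P2_c_other G v h r)

private theorem P2_f_apply (u : V) (r : G u) :
    P2_f Γ G v u r = P2_E Γ G v (GP.of Γ G u r) (P2_c G v u r) := rfl

private theorem P2_f_comm (u u' : V) (hadj : Γ.Adj u u') (g : G u) (k : G u') :
    P2_f Γ G v u g * P2_f Γ G v u' k = P2_f Γ G v u' k * P2_f Γ G v u g := by
  rw [P2_f_apply, P2_f_apply, P2_E_mul, P2_E_mul, of_comm hadj]
  · congr 1
    by_cases h : u = v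
    · have h' : u' ≠ v := by
        rintro rfl
        exact hadj.ne h
      rw [P2_c_other G v h' k, mul_one, one_mul]
    · rw [P2_c_other G v h g, mul_one, one_mul]
  · by_cases h : u' = v
    · left
      exact P2_mem_St Γ G v g (Or.inr (h ▸ hadj.symm))
    · exact Or.inr (P2_c_other G v h k)
  · by_cases h : u = v
    · left
      exact P2_mem_St Γ G v k (Or.inr (h ▸ hadj))
    · exact Or.inr (P2_c_other G v h g)

end P2_aux

theorem exists_proj {V : Type} (Γ : SimpleGraph V) (G : V → Type) [∀ v, Group (G v)] (v : V) :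
    ∃ p : GP Γ G → G v, Proj Γ G v p := by
  classical
  obtain ⟨F, hF⟩ := exists_lift (P2_f Γ G v) (P2_f_comm Γ G v)
  have hfst : ∀ (x w : GP Γ G) (a : G v), (F x (w, a)).1 = w * x⁻¹ := by
    intro x
    induction x using gp_induction with
    | one => intro w a; simp
    | mul x u s ih =>
      intro w a
      rw [map_mul, Equiv.Perm.mul_apply, hF, P2_f_apply, P2_E_apply, ih, mul_inv_rev, mul_assoc]
  have hpair : ∀ w : GP Γ G, F w⁻¹ (1, 1) = (w, (F w⁻¹ (1, 1)).2) := by
    intro w
    apply Prod.ext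
    · rw [hfst]; simp
    · rfl
  have hstep : ∀ (w : GP Γ G) (u : V) (s : G u),
      (F (w * GP.of Γ G u s)⁻¹ (1, 1)).2 =
        if w ∈ St Γ G v then (F w⁻¹ (1, 1)).2 * P2_c G v u s else (F w⁻¹ (1, 1)).2 := by
    intro w u s
    have h1 : (w * GP.of Γ G u s)⁻¹ = GP.of Γ G u s⁻¹ * w⁻¹ := by
      rw [mul_inv_rev, map_inv]
    rw [h1, map_mul, Equiv.Perm.mul_apply, hpair w, hF, P2_f_apply, P2_E_apply]
    simp only [map_inv, inv_inv]
  refine ⟨fun w => (F w⁻¹ (1, 1)).2, ?_, ?_, ?_, ?_⟩
  · simp
  · intro w s hw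
    show (F (w * GP.of Γ G v s)⁻¹ (1, 1)).2 = (F w⁻¹ (1, 1)).2 * s
    rw [hstep, if_pos hw, P2_c_same]
  · intro w s hw
    show (F (w * GP.of Γ G v s)⁻¹ (1, 1)).2 = (F w⁻¹ (1, 1)).2
    rw [hstep, if_neg hw]
  · intro w u s hu
    show (F (w * GP.of Γ G u s)⁻¹ (1, 1)).2 = (F w⁻¹ (1, 1)).2
    rw [hstep, P2_c_other G v hu, mul_one, ite_self]

end LibCW70
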