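import Pool.Agent.LibCW70.GK
import Pool.Agent.LibCW70.HB
import Pool.Agent.LibCW70.HD
import Pool.Agent.LibCW70.HF
import Pool.Agent.LibCW70.HG
import Pool.Agent.LibCW70.KA
import Pool.Agent.LibCW70.KB
import Pool.Agent.LibCW70.KD
import Pool.Agent.LibCW70.C1
import Pool.Agent.LibCW70.C2c
import Pool.Agent.LibCW70.C3
import Pool.Agent.LibCW70.P2
import Pool.Agent.LibCW70.P10
import Pool.Agent.LibCW70.P12
import Pool.Agent.LibCW70.P13

set_option autoImplicit false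

/-! # Board CW70, assembly (helper70) -/

namespace LibCW70

open Set Metric Topology Filter LibCE75
open scoped NNReal

theorem hs_walls {G X : Type} [Group G] [MetricSpace X] [MulAction G X] {x₀ : X}
    {S : Set G} {𝓗 : Set (Set G)} {Y : Set G → Set X} {C R D : ℝ} (h : Sided x₀ S 𝓗 Y C R D) :
    Walls (fun (A : ↥𝓗) s => HS x₀ Y R D (A : Set G) s) := by
  refine ⟨fun A s => ⟨?_, hs_closed h A.2 s, hs_cvx h A.2 s⟩, fun A s x => hs_cover h A.2 s x,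
    fun x E => ?_⟩
  · exact (h.ad.cc _ A.2).ne.mono (subset_hs h A.2 s)
  · obtain ⟨R', hR'⟩ := hs_sep h x E
    refine ⟨R', fun y hy => ?_⟩
    obtain ⟨A, hA, s, h1, h2⟩ := hR' y hy
    exact ⟨⟨A, hA⟩, s, h1, h2⟩

/-- **Criterion.** -/
theorem criterion {G : Type} [Group G] {S : Set G} {𝓗 : Set (Set G)} (hw : WallG S 𝓗)
    {X₁ X₂ : Type} [MetricSpace X₁] [MetricSpace X₂] [MulAction G X₁] [MulAction G X₂]
    (hX₁ : IsCAT0 X₁) (hX₂ : IsCAT0 X₂) (hG₁ : Geometric G X₁) (hG₂ : Geometric G X₂)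
    (x₁ : X₁) (x₂ : X₂) (h₁ : ∀ A ∈ 𝓗, CoarseCvx x₁ (Fr S A))
    (h₂ : ∀ A ∈ 𝓗, CoarseCvx x₂ (Fr S A)) : CellLikeEquivalent (Ray X₁ x₁) (Ray X₂ x₂) := by
  haveI := properSpace_of_geometric hX₁ hG₁
  haveI := properSpace_of_geometric hX₂ hG₂
  obtain ⟨Y₁, C₁, R₁, D₁, s₁⟩ := exists_sided hX₁ hG₁ x₁ hw h₁
  obtain ⟨Y₂, C₂, R₂, D₂, s₂⟩ := exists_sided hX₂ hG₂ x₂ hw h₂
  obtain ⟨f, hf⟩ := exists_ctl s₁ s₂
  obtain ⟨g, hg⟩ := exists_ctl s₂ s₁
  exact core hX₁ hX₂ x₁ x₂ (hs_walls s₁) (hs_walls s₂) hf hg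

theorem ceUnique_of_centWalls {G : Type} [Group G] (h : CentWalls G) : CEUnique G := by
  obtain ⟨S, 𝓗, hw, hF⟩ := h
  intro X₁ X₂ _ _ _ _ hX₁ hX₂ hG₁ hG₂ x₁ x₂
  refine criterion hw hX₁ hX₂ hG₁ hG₂ x₁ x₂ ?_ ?_
  · intro A hA
    obtain ⟨F, hFf, K, hK, h1, h2⟩ := hF A hA
    exact (coarseCvx_centralizer hX₁ hG₁ x₁ hFf).of_near hG₁ hK h1 h2
  · intro A hA
    obtain ⟨F, hFf, K, hK, h1, h2⟩ := hF A hA
    exact (coarseCvx_centralizer hX₂ hG₂ x₂ hFf).of_near hG₂ hK h1 h2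

theorem StrongWalls.centWalls {G : Type} [Group G] (h : StrongWalls G) : CentWalls G := by
  obtain ⟨S, 𝓗, hw, -, hF⟩ := h
  exact ⟨S, 𝓗, hw, fun A hA => by
    obtain ⟨F, -, hFn⟩ := hF A hA
    exact ⟨F, hFn⟩⟩

theorem strongWalls_coxeter {B W : Type} [Finite B] [Group W] {M : CoxeterMatrix B}
    (cs : CoxeterSystem M W) : StrongWalls W := by
  obtain ⟨η, h⟩ := exists_coc cs
  have hw := wallG_coxeter h
  refine ⟨range cs.simple, fam cs η, hw, fun g hg => ?_, fun A hA => nearCent_coxeter h hA⟩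
  have h1 := length_le_ncard h g (hw.fin g)
  have h2 : 0 < cs.length g := by
    rw [Nat.pos_iff_ne_zero, Ne, cs.length_eq_zero_iff]
    exact hg
  exact nonempty_of_ncard_ne_zero (by omega)

theorem strongWalls_gp {V : Type} [Finite V] (Γ : SimpleGraph V) (G : V → Type)
    [∀ v, Group (G v)] (h : ∀ v, StrongWalls (G v)) : StrongWalls (GP Γ G) := by
  choose S 𝓗 hw hne hF using h
  choose p hp using fun v => exists_proj Γ G v
  obtain ⟨h1, h2⟩ := gp_wallG hw hne hp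
  refine ⟨gpGen Γ S, gpFam p 𝓗, h1, h2, ?_⟩
  rintro B ⟨g, v, A, hA, rfl⟩
  exact gp_nearCent (hp v) (hF v A hA) g

theorem main_coxeter (G : Type) [Group G] (W : Subgroup G) [W.FiniteIndex] (B : Type) [Finite B]
    (M : CoxeterMatrix B) (cs : CoxeterSystem M ↥W) : CEUnique G :=
  ceUnique_of_finiteIndex W (ceUnique_of_centWalls (strongWalls_coxeter cs).centWalls)

end LibCW70
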