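import Pool.Agent.LibCW70.Defs2

set_option autoImplicit false

/-!
# Board CW70, row P14 (MEDIUM).  MP_6fa1a0_gt (cell-like equivalence of CAT(0) boundaries)
Chair: helper70.  Deliver the whole file as CW70_P14.lean (team-store put), statements unchanged,
auxiliary lemmas private (names starting with P14_), no sorry, no axiom, no straight double quotation mark.

The infinite cyclic group has half spaces with finite frontiers.
PLAN. G = Multiplicative ℤ, S = {ofAdd 1, ofAdd (-1)}, 𝓗 = {A | there is k : ℤ, A = {x | k <= toAdd x}}. tr g of the k-th set is the (k + toAdd g)-th. Sgen: every x is ofAdd n; n >= 0: power of ofAdd 1; n < 0: power of ofAdd (-1) (or Submonoid.closure of S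
contains zpowers). Sep 𝓗 (ofAdd n) = images of the k with not (k <= 0 iff k <= n): {k | 0 < k <= n} or {k | n < k <= 0}: finite (image of Set.Ioc 0 n or Set.Ioc n 0), of cardinality |n| (k |-> {x | k <= toAdd x} is injective: Set.ncard_image_of_injective, Set.ncard of Ioc: Int.card_Ioc with
Set.ncard_coe_finset), nonempty for n <> 0. So {g | ncard <= n} is contained in the finite set {x | |toAdd x| <= n}. The frontier of the k-th set is contained in {k - 1, k} and contains k (s = ofAdd (-1)).
-/

namespace LibCW70

open Set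

/-- the half line from `k` -/
private def P14_hs (k : ℤ) : Set (Multiplicative ℤ) := {x | k ≤ Multiplicative.toAdd x}

private theorem P14_mem (k : ℤ) (x : Multiplicative ℤ) :
    x ∈ P14_hs k ↔ k ≤ Multiplicative.toAdd x := Iff.rfl

private theorem P14_inj : Function.Injective P14_hs := by
  intro k l h
  have h1 : Multiplicative.ofAdd k ∈ P14_hs l := by
    rw [← h]
    exact le_refl k
  have h2 : Multiplicative.ofAdd l ∈ P14_hs k := by
    rw [h]
    exact le_refl l
  exact le_antisymm h2 h1

private theorem P14_sep (g : Multiplicative ℤ) :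
    Sep (Set.range P14_hs) g =
      P14_hs '' Set.Ioc (min 0 (Multiplicative.toAdd g)) (max 0 (Multiplicative.toAdd g)) := by
  have key : ∀ k : ℤ, ¬ ((1 : Multiplicative ℤ) ∈ P14_hs k ↔ g ∈ P14_hs k) ↔
      k ∈ Set.Ioc (min 0 (Multiplicative.toAdd g)) (max 0 (Multiplicative.toAdd g)) := by
    intro k
    rw [P14_mem, P14_mem, toAdd_one, Set.mem_Ioc]
    omega
  ext A
  constructor
  · rintro ⟨⟨k, rfl⟩, hk⟩
    exact ⟨k, (key k).1 hk, rfl⟩
  · rintro ⟨k, hk, rfl⟩
    exact ⟨⟨k, rfl⟩, (key k).2 hk⟩

private theorem P14_wall :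
    WallG ({Multiplicative.ofAdd (1 : ℤ), Multiplicative.ofAdd (-1 : ℤ)} : Set (Multiplicative ℤ))
      (Set.range P14_hs) where
  Sfin := Set.toFinite _
  Sgen := by
    rw [eq_top_iff]
    intro x _
    obtain ⟨m, hm | hm⟩ := Int.eq_nat_or_neg (Multiplicative.toAdd x)
    · have h1 : x = Multiplicative.ofAdd (1 : ℤ) ^ m := by
        apply Multiplicative.toAdd.injective
        rw [toAdd_pow, toAdd_ofAdd, hm]
        simp
      rw [h1]
      exact Submonoid.pow_mem _ (Submonoid.subset_closure (by simp)) m
    · have h1 : x = Multiplicative.ofAdd (-1 : ℤ) ^ m := by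
        apply Multiplicative.toAdd.injective
        rw [toAdd_pow, toAdd_ofAdd, hm]
        simp
      rw [h1]
      exact Submonoid.pow_mem _ (Submonoid.subset_closure (by simp)) m
  inv := by
    rintro g _ ⟨k, rfl⟩
    refine ⟨k + Multiplicative.toAdd g, ?_⟩
    ext x
    rw [mem_tr, P14_mem, P14_mem, toAdd_mul, toAdd_inv]
    omega
  fin := by
    intro g
    rw [P14_sep]
    exact (Set.finite_Ioc _ _).image _
  prop := by
    intro n
    refine ((Set.finite_Icc (-(n : ℤ)) (n : ℤ)).image Multiplicative.ofAdd).subset ?_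
    intro g hg
    have h1 : (Sep (Set.range P14_hs) g).ncard ≤ n := hg
    rw [P14_sep, Set.ncard_image_of_injective _ P14_inj, ← Finset.coe_Ioc, Set.ncard_coe_finset,
      Int.card_Ioc] at h1
    refine ⟨Multiplicative.toAdd g, ?_, rfl⟩
    rw [Set.mem_Icc]
    omega

theorem finWalls_int : FinWalls (Multiplicative ℤ) := by
  refine ⟨_, _, P14_wall, ?_, ?_⟩
  · intro g hg
    rw [P14_sep]
    refine Set.Nonempty.image _ ⟨max 0 (Multiplicative.toAdd g), ?_⟩
    have h1 : Multiplicative.toAdd g ≠ 0 := fun h => hg (Multiplicative.toAdd.injective h)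
    rw [Set.mem_Ioc]
    omega
  · rintro _ ⟨k, rfl⟩
    constructor
    · refine (Set.toFinite {Multiplicative.ofAdd (k - 1), Multiplicative.ofAdd k}).subset ?_
      rintro g ⟨s, hs, hgs⟩
      rw [P14_mem, P14_mem, toAdd_mul] at hgs
      rcases hs with rfl | hs
      · left
        apply Multiplicative.toAdd.injective
        rw [toAdd_ofAdd] at hgs ⊢
        omega
      · rw [Set.mem_singleton_iff] at hs
        subst hs
        right
        apply Multiplicative.toAdd.injective
        rw [toAdd_ofAdd] at hgs ⊢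
        omega
    · refine ⟨Multiplicative.ofAdd k, Multiplicative.ofAdd (-1), by simp, ?_⟩
      rw [P14_mem, P14_mem, toAdd_mul, toAdd_ofAdd, toAdd_ofAdd]
      omega

end LibCW70
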