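import Pool.Agent.LibCW70.P3

set_option autoImplicit false

/-!
# Board CW70, row P5 (SHORT/MEDIUM).  MP_6fa1a0_gt (cell-like equivalence of CAT(0) boundaries)
Chair: helper70.  Deliver the whole file as CW70_P5.lean (team-store put), statements unchanged,
auxiliary lemmas private (names starting with P5_), no sorry, no axiom, no straight double quotation mark.

Which edges are separated by the half spaces of the graph product.
PLAN. Unfold mem_tr, mem_preimage; g⁻¹ * (w * of s) = (g⁻¹ * w) * of s (mul_assoc); Proj.other, Proj.same, Proj.far. gp_wall_eq: x: g⁻¹ x = (g⁻¹ w) (w⁻¹ x), proj_mul.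
-/

namespace LibCW70

open Set Filter LibCE75

theorem gp_not_sep {V : Type} {Γ : SimpleGraph V} {G : V → Type} [∀ v, Group (G v)] {v : V} {p : GP Γ G → G v}
    (hp : Proj Γ G v p) {u : V} (hu : u ≠ v) (s : G u) (A : Set (G v)) (g w : GP Γ G) :
    w ∈ tr g (p ⁻¹' A) ↔ w * GP.of Γ G u s ∈ tr g (p ⁻¹' A) := by
  rw [mem_tr, mem_tr, mem_preimage, mem_preimage, ← mul_assoc, hp.other _ _ _ hu]

theorem gp_sep {V : Type} {Γ : SimpleGraph V} {G : V → Type} [∀ v, Group (G v)] {v : V} {p : GP Γ G → G v}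
    (hp : Proj Γ G v p) (s : G v) (A : Set (G v)) (g w : GP Γ G) :
    ¬ (w ∈ tr g (p ⁻¹' A) ↔ w * GP.of Γ G v s ∈ tr g (p ⁻¹' A)) ↔
      g⁻¹ * w ∈ St Γ G v ∧ ¬ (p (g⁻¹ * w) ∈ A ↔ p (g⁻¹ * w) * s ∈ A) := by
  rw [mem_tr, mem_tr, mem_preimage, mem_preimage, ← mul_assoc]
  by_cases h : g⁻¹ * w ∈ St Γ G v
  · rw [hp.same _ _ h]
    exact ⟨fun h' => ⟨h, h'⟩, fun h' => h'.2⟩
  · rw [hp.far _ _ h]
    simp [h]

theorem gp_wall_eq {V : Type} {Γ : SimpleGraph V} {G : V → Type} [∀ v, Group (G v)] {v : V} {p : GP Γ G → G v}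
    (hp : Proj Γ G v p) {g w : GP Γ G} (h : g⁻¹ * w ∈ St Γ G v) (A : Set (G v)) :
    tr g (p ⁻¹' A) = tr w (p ⁻¹' (tr (p (g⁻¹ * w))⁻¹ A)) := by
  ext x
  rw [mem_tr, mem_tr, mem_preimage, mem_preimage, mem_tr, inv_inv, ← proj_mul hp h, mul_assoc,
    mul_inv_cancel_left]

end LibCW70
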