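import Pool.Agent.LibCW70.Defs2
import Pool.Agent.LibCW70.P5

set_option autoImplicit false

/-!
# Board CW70, row P15 (MEDIUM/LONG).  MP_6fa1a0_gt (cell-like equivalence of CAT(0) boundaries)
Chair: helper70.  Deliver the whole file as CW70_P15.lean (team-store put), statements unchanged,
auxiliary lemmas private (names starting with P15_), no sorry, no axiom, no straight double quotation mark.

The frontiers in a graph product are near to centralizers, case of a covered vertex and finite frontiers.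
PLAN. Write of_v = GP.of Γ G v. From hn there are g₀ and s in S v with not (g₀ in A iff g₀ s in A), so s <> 1. Claim: {c | c commutes with of_v s and of_u t} = Lk Γ G v. (superset) lk_comm, and Lk v <= Lk u since each neighbour of v is a neighbour of u (Subgroup.closure_mono), lk_comm for u.
(subset) mem_st_of_comm: c in St v and in St u. c = of_v (p c) * l with l in Lk v (st_decomp), l in Lk u <= St u (lk_le_st), so of_v (p c) in St u. The homomorphism GP →* G v (or →* GP) which is the identity on G v and trivial on the other vertex groups (exists_lift, f w = if w = v then cast else 1; or into GP: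
f w = GP.of w if w = v, else 1, classical; commutation: no two adjacent vertices are both v) kills St u (closure induction: w = u or w adjacent to u, so w <> v) and maps of_v a to of_v a, and of_v is injective (proj_of), so p c = 1 and c = l.
B = tr g (p ⁻¹ A). w in Fr (gpGen S) B iff g⁻¹ w in St v and p (g⁻¹ w) in Fr (S v) A (gp_not_sep, gp_sep; gpGen). F = {g of_v(s) g⁻¹, g of_u(t) g⁻¹}; c in centralizer F iff g⁻¹ c g in Lk v. K = {(of_v a)⁻¹ g⁻¹ | a in Fr (S v) A} union {g of_v(a₀)}, a₀ in Fr (S v) A. (1) w in Fr B, x = g⁻¹ w = of_v(a) l = l of_v(a),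
a = p x in Fr (S v) A: w (of_v a)⁻¹ g⁻¹ = g l g⁻¹. (2) c = g l g⁻¹: c g of_v(a₀) = g l of_v(a₀), l of_v(a₀) in St v, p (l of_v(a₀)) = p l * a₀ = a₀ (proj_mul, proj_lk, proj_of).
-/

namespace LibCW70

open Set Filter LibCE75

private theorem P15_fr {V : Type} {Γ : SimpleGraph V} {G : V → Type} [∀ v, Group (G v)]
    {S : ∀ v, Set (G v)} {v : V} {p : GP Γ G → G v} (hp : Proj Γ G v p) (A : Set (G v))
    (g w : GP Γ G) : w ∈ Fr (gpGen Γ S) (tr g (p ⁻¹' A)) ↔
      g⁻¹ * w ∈ St Γ G v ∧ p (g⁻¹ * w) ∈ Fr (S v) A := by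
  constructor
  · rintro ⟨x, ⟨v', s, hs, rfl⟩, hx⟩
    by_cases hv : v' = v
    · subst hv
      obtain ⟨h1, h2⟩ := (gp_sep hp s A g w).1 hx
      exact ⟨h1, s, hs, h2⟩
    · exact absurd (gp_not_sep hp hv s A g w) hx
  · rintro ⟨h1, s, hs, h2⟩
    exact ⟨GP.of Γ G v s, ⟨v, s, hs, rfl⟩, (gp_sep hp s A g w).2 ⟨h1, h2⟩⟩

private theorem P15_one {V : Type} (Γ : SimpleGraph V) (G : V → Type) [∀ v, Group (G v)] (v : V) :
    ∃ ρ : GP Γ G →* GP Γ G, (∀ g : G v, ρ (GP.of Γ G v g) = GP.of Γ G v g) ∧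
      ∀ (u : V) (g : G u), u ≠ v → ρ (GP.of Γ G u g) = 1 := by
  classical
  obtain ⟨ρ, hρ⟩ := exists_lift (Γ := Γ) (G := G) (H := GP Γ G)
    (fun u => if u = v then GP.of Γ G u else 1) (by
      intro u w huw g k
      by_cases h1 : u = v
      · by_cases h2 : w = v
        · exact absurd (h1.trans h2.symm) huw.ne
        · simp only [if_neg h2, MonoidHom.one_apply, mul_one, one_mul]
      · simp only [if_neg h1, MonoidHom.one_apply, mul_one, one_mul])
  refine ⟨ρ, fun g => ?_, fun u g h => ?_⟩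
  · rw [hρ, if_pos rfl]
  · rw [hρ, if_neg h]
    rfl

private theorem P15_lk {V : Type} {Γ : SimpleGraph V} {G : V → Type} [∀ v, Group (G v)]
    {v u : V} (hc : Cov Γ v u) {p : GP Γ G → G v} (hp : Proj Γ G v p)
    {q : GP Γ G → G u} (hq : Proj Γ G u q) {s : G v} (hs : s ≠ 1) {t : G u} (ht : t ≠ 1)
    (c : GP Γ G) : (c * GP.of Γ G v s = GP.of Γ G v s * c ∧ c * GP.of Γ G u t = GP.of Γ G u t * c) ↔
      c ∈ Lk Γ G v := by
  obtain ⟨hne, hadj, hcov⟩ := hc
  have hle : Lk Γ G v ≤ Lk Γ G u := by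
    unfold Lk
    apply Subgroup.closure_mono
    rintro x ⟨w, g, hw, rfl⟩
    exact ⟨w, g, hcov w hw, rfl⟩
  constructor
  · rintro ⟨h1, h2⟩
    have h3 := mem_st_of_comm hp hs h1
    have h4 := mem_st_of_comm hq ht h2
    have h5 := st_decomp hp h3
    have h6 : GP.of Γ G v (p c) ∈ St Γ G u := by
      have h7 := lk_le_st Γ G u (hle h5)
      have h8 : GP.of Γ G v (p c) = c * ((GP.of Γ G v (p c))⁻¹ * c)⁻¹ := by
        rw [mul_inv_rev, inv_inv, mul_inv_cancel_left]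
      rw [h8]
      exact (St Γ G u).mul_mem h4 ((St Γ G u).inv_mem h7)
    obtain ⟨ρ, hρ1, hρ2⟩ := P15_one Γ G v
    have h9 : St Γ G u ≤ ρ.ker := by
      unfold St
      rw [Subgroup.closure_le]
      rintro x ⟨w, g, hw, rfl⟩
      rw [SetLike.mem_coe, MonoidHom.mem_ker]
      apply hρ2
      rintro rfl
      rcases hw with hw | hw
      · exact hne hw.symm
      · exact hadj hw.symm
    have h10 := MonoidHom.mem_ker.mp (h9 h6)
    rw [hρ1] at h10
    rw [h10, inv_one, one_mul] at h5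
    exact h5
  · intro h
    exact ⟨lk_comm h s, lk_comm (hle h) t⟩

theorem gp_nearCent_cov {V : Type} {Γ : SimpleGraph V} {G : V → Type} [∀ v, Group (G v)]
    {S : ∀ v, Set (G v)} {v u : V} (hc : Cov Γ v u) {p : GP Γ G → G v} (hp : Proj Γ G v p)
    {q : GP Γ G → G u} (hq : Proj Γ G u q) {t : G u} (ht : t ≠ 1) {A : Set (G v)}
    (hf : (Fr (S v) A).Finite) (hn : (Fr (S v) A).Nonempty) (g : GP Γ G) :
    ∃ F : Set (GP Γ G), (∃ f ∈ F, f ≠ 1) ∧ NearCent F (Fr (gpGen Γ S) (tr g (p ⁻¹' A))) := by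
  classical
  obtain ⟨a₀, ha₀⟩ := hn
  obtain ⟨s, hsS, hs⟩ := ha₀
  have ha₀ : a₀ ∈ Fr (S v) A := ⟨s, hsS, hs⟩
  have hs1 : s ≠ 1 := by
    rintro rfl
    apply hs
    rw [mul_one]
  have hof : GP.of Γ G v s ≠ 1 := by
    intro h
    apply hs1
    rw [← proj_of hp s, h, hp.one]
  have hcent : ∀ c : GP Γ G, c ∈ Set.centralizer ({g * GP.of Γ G v s * g⁻¹,
      g * GP.of Γ G u t * g⁻¹} : Set (GP Γ G)) ↔ g⁻¹ * c * g ∈ Lk Γ G v := by
    intro c
    have hconj : ∀ y : GP Γ G, g * y * g⁻¹ * c = c * (g * y * g⁻¹) ↔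
        g⁻¹ * c * g * y = y * (g⁻¹ * c * g) := by
      intro y
      constructor
      · intro h
        have h1 : g⁻¹ * (g * y * g⁻¹ * c) * g = g⁻¹ * (c * (g * y * g⁻¹)) * g := by rw [h]
        have h2 : g⁻¹ * (g * y * g⁻¹ * c) * g = y * (g⁻¹ * c * g) := by group
        have h3 : g⁻¹ * (c * (g * y * g⁻¹)) * g = g⁻¹ * c * g * y := by group
        rw [← h2, ← h3, h1]
      · intro h
        have h1 : g * (g⁻¹ * c * g * y) * g⁻¹ = g * (y * (g⁻¹ * c * g)) * g⁻¹ := by rw [h]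
        have h2 : g * (g⁻¹ * c * g * y) * g⁻¹ = c * (g * y * g⁻¹) := by group
        have h3 : g * (y * (g⁻¹ * c * g)) * g⁻¹ = g * y * g⁻¹ * c := by group
        rw [← h2, ← h3, h1]
    rw [Set.mem_centralizer_iff, ← P15_lk hc hp hq hs1 ht]
    constructor
    · intro h
      exact ⟨(hconj _).1 (h _ (Or.inl rfl)), (hconj _).1 (h _ (Or.inr rfl))⟩
    · rintro ⟨h1, h2⟩ m hm
      rcases hm with rfl | rfl
      · exact (hconj _).2 h1
      · exact (hconj _).2 h2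
  refine ⟨{g * GP.of Γ G v s * g⁻¹, g * GP.of Γ G u t * g⁻¹}, ⟨g * GP.of Γ G v s * g⁻¹, Or.inl rfl,
    ?_⟩, Set.toFinite _, (fun a => (GP.of Γ G v a)⁻¹ * g⁻¹) '' Fr (S v) A ∪ {g * GP.of Γ G v a₀},
    (hf.image _).union (Set.finite_singleton _), ?_, ?_⟩
  · intro h
    apply hof
    rwa [mul_inv_eq_one, mul_eq_left] at h
  · intro w hw
    obtain ⟨h1, h2⟩ := (P15_fr hp A g w).1 hw
    refine ⟨(GP.of Γ G v (p (g⁻¹ * w)))⁻¹ * g⁻¹, Or.inl ⟨_, h2, rfl⟩, ?_⟩
    rw [hcent]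
    have h3 := st_decomp hp h1
    have h4 := lk_comm h3 (p (g⁻¹ * w))
    have h5 : g⁻¹ * (w * ((GP.of Γ G v (p (g⁻¹ * w)))⁻¹ * g⁻¹)) * g =
        (GP.of Γ G v (p (g⁻¹ * w)))⁻¹ * (g⁻¹ * w) := by
      have h6 : g⁻¹ * w = (GP.of Γ G v (p (g⁻¹ * w)))⁻¹ * (g⁻¹ * w) * GP.of Γ G v (p (g⁻¹ * w)) := by
        rw [h4, mul_inv_cancel_left]
      calc g⁻¹ * (w * ((GP.of Γ G v (p (g⁻¹ * w)))⁻¹ * g⁻¹)) * g =
            g⁻¹ * w * (GP.of Γ G v (p (g⁻¹ * w)))⁻¹ := by group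
        _ = (GP.of Γ G v (p (g⁻¹ * w)))⁻¹ * (g⁻¹ * w) := by
            rw [mul_inv_eq_iff_eq_mul]
            exact h6
    rw [h5]
    exact h3
  · intro c hcc
    rw [hcent] at hcc
    refine ⟨g * GP.of Γ G v a₀, Or.inr rfl, ?_⟩
    rw [P15_fr hp]
    have h1 : g⁻¹ * (c * (g * GP.of Γ G v a₀)) = g⁻¹ * c * g * GP.of Γ G v a₀ := by group
    rw [h1]
    have h2 := lk_le_st Γ G v hcc
    refine ⟨(St Γ G v).mul_mem h2 (of_mem_st Γ G v a₀), ?_⟩
    rw [proj_mul hp h2, proj_lk hp hcc, proj_of hp, one_mul]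
    exact ha₀

end LibCW70
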