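import Pool.Agent.LibCW70.Main
import Pool.Agent.LibCW70.P14
import Pool.Agent.LibCW70.P15

set_option autoImplicit false

/-! # Board CW70, assembly of the part on graph products (helper70) -/

namespace LibCW70

open Set Metric Topology Filter LibCE75
open scoped NNReal

theorem strongWalls_gp_cov {V : Type} [Finite V] (Γ : SimpleGraph V) (G : V → Type)
    [∀ v, Group (G v)] (h : ∀ v, StrongWalls (G v) ∨
      (FinWalls (G v) ∧ ∃ u, Cov Γ v u ∧ Nontrivial (G u))) : StrongWalls (GP Γ G) := by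
  have h' : ∀ v, ∃ (S : Set (G v)) (𝓗 : Set (Set (G v))), WallG S 𝓗 ∧
      (∀ g : G v, g ≠ 1 → (Sep 𝓗 g).Nonempty) ∧
      ((∀ A ∈ 𝓗, ∃ F : Set (G v), (∃ f ∈ F, f ≠ 1) ∧ NearCent F (Fr S A)) ∨
        ((∀ A ∈ 𝓗, (Fr S A).Finite ∧ (Fr S A).Nonempty) ∧
          ∃ u, Cov Γ v u ∧ Nontrivial (G u))) := by
    intro v
    rcases h v with ⟨S, 𝓗, hw, hne, hF⟩ | ⟨⟨S, 𝓗, hw, hne, hF⟩, hu⟩
    · exact ⟨S, 𝓗, hw, hne, Or.inl hF⟩
    · exact ⟨S, 𝓗, hw, hne, Or.inr ⟨hF, hu⟩⟩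
  choose S 𝓗 hw hne hF using h'
  choose p hp using fun v => exists_proj Γ G v
  obtain ⟨h1, h2⟩ := gp_wallG hw hne hp
  refine ⟨gpGen Γ S, gpFam p 𝓗, h1, h2, ?_⟩
  rintro B ⟨g, v, A, hA, rfl⟩
  rcases hF v with hF1 | ⟨hF1, u, hc, hu⟩
  · exact gp_nearCent (hp v) (hF1 A hA) g
  · obtain ⟨t, ht⟩ := exists_ne (1 : G u)
    exact gp_nearCent_cov hc (hp v) (hp u) ht (hF1 A hA).1 (hF1 A hA).2 g

end LibCW70
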