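import Pool.Agent.LibCW70.Defs2

set_option autoImplicit false

/-! # Board CW70: transport along isomorphisms (helper70) -/

namespace LibCW70

open Set Metric Topology Filter LibCE75
open scoped NNReal

theorem ceUnique_congr {G G' : Type} [Group G] [Group G'] (e : G ≃* G') (h : CEUnique G') :
    CEUnique G := by
  intro X₁ X₂ m₁ m₂ a₁ a₂ hX₁ hX₂ hG₁ hG₂ x₁ x₂
  have key : ∀ (X : Type) [MetricSpace X] [a : MulAction G X], Geometric G X →
      @Geometric G' X _ _ (MulAction.compHom X e.symm.toMonoidHom) := by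
    intro X _ a hG
    letI a' : MulAction G' X := MulAction.compHom X e.symm.toMonoidHom
    have hsm : ∀ (g : G') (x : X), g • x = e.symm g • x := fun g x => rfl
    refine ⟨fun g x y => ?_, fun x => ?_, ?_⟩
    · rw [hsm, hsm]
      exact hG.isom _ _ _
    · obtain ⟨r, hr, hfin⟩ := hG.proper x
      refine ⟨r, hr, ?_⟩
      have h2 : {g : G' | ((fun y : X => g • y) '' ball x r ∩ ball x r).Nonempty} =
          e '' {g : G | ((fun y : X => g • y) '' ball x r ∩ ball x r).Nonempty} := by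
        ext g
        constructor
        · intro hg
          exact ⟨e.symm g, hg, e.apply_symm_apply g⟩
        · rintro ⟨g₀, hg₀, rfl⟩
          have h3 : (fun y : X => e g₀ • y) = fun y : X => g₀ • y := by
            funext y
            rw [hsm, e.symm_apply_apply]
          change ((fun y : X => e g₀ • y) '' ball x r ∩ ball x r).Nonempty
          rw [h3]
          exact hg₀
      rw [h2]
      exact hfin.image _
    · obtain ⟨K, hK, hcov⟩ := hG.cocompact
      refine ⟨K, hK, fun x => ?_⟩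
      obtain ⟨g, hg⟩ := hcov x
      refine ⟨e g, ?_⟩
      rw [hsm, e.symm_apply_apply]
      exact hg
  exact @h X₁ X₂ m₁ m₂ (MulAction.compHom X₁ e.symm.toMonoidHom)
    (MulAction.compHom X₂ e.symm.toMonoidHom) hX₁ hX₂ (key X₁ hG₁) (key X₂ hG₂) x₁ x₂

theorem finWalls_congr {G G' : Type} [Group G] [Group G'] (e : G ≃* G') (h : FinWalls G) :
    FinWalls G' := by
  obtain ⟨S, 𝓗, hw, hne, hF⟩ := h
  have hmem : ∀ (A : Set G) (x : G), e x ∈ e '' A ↔ x ∈ A := fun A x =>
    e.injective.mem_set_image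
  have himg : Function.Injective (fun A : Set G => (e '' A : Set G')) :=
    e.injective.image_injective
  have htr : ∀ (g : G) (A : Set G), tr (e g) (e '' A) = e '' tr g A := by
    intro g A
    ext x
    obtain ⟨y, rfl⟩ := e.surjective x
    rw [hmem, mem_tr, mem_tr, ← map_inv, ← map_mul, hmem]
  have hSep : ∀ g : G, Sep ((fun A : Set G => (e '' A : Set G')) '' 𝓗) (e g) =
      (fun A : Set G => (e '' A : Set G')) '' Sep 𝓗 g := by
    intro g
    ext B
    constructor
    · rintro ⟨⟨A, hA, rfl⟩, hB⟩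
      refine ⟨A, ⟨hA, ?_⟩, rfl⟩
      have hB' : ¬ ((1 : G') ∈ e '' A ↔ e g ∈ e '' A) := hB
      rwa [← map_one e, hmem, hmem] at hB'
    · rintro ⟨A, ⟨hA, hB⟩, rfl⟩
      refine ⟨⟨A, hA, rfl⟩, ?_⟩
      change ¬ ((1 : G') ∈ e '' A ↔ e g ∈ e '' A)
      rwa [← map_one e, hmem, hmem]
  have hFr : ∀ A : Set G, Fr (e '' S) (e '' A) = e '' Fr S A := by
    intro A
    ext x
    obtain ⟨y, rfl⟩ := e.surjective x
    rw [hmem, mem_Fr, mem_Fr]
    constructor
    · rintro ⟨_, ⟨s, hs, rfl⟩, hn⟩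
      refine ⟨s, hs, ?_⟩
      rwa [← map_mul, hmem, hmem] at hn
    · rintro ⟨s, hs, hn⟩
      refine ⟨e s, ⟨s, hs, rfl⟩, ?_⟩
      rwa [← map_mul, hmem, hmem]
  refine ⟨e '' S, (fun A : Set G => (e '' A : Set G')) '' 𝓗,
    ⟨hw.Sfin.image _, ?_, ?_, ?_, ?_⟩, ?_, ?_⟩
  · have h1 : Submonoid.closure (e '' S) = (Submonoid.closure S).map e.toMonoidHom := by
      rw [MonoidHom.map_mclosure]
      rfl
    rw [h1, hw.Sgen, eq_top_iff]
    intro x _
    exact ⟨e.symm x, trivial, e.apply_symm_apply x⟩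
  · rintro g _ ⟨A, hA, rfl⟩
    obtain ⟨g, rfl⟩ := e.surjective g
    exact ⟨tr g A, hw.inv g A hA, (htr g A).symm⟩
  · intro g
    obtain ⟨g, rfl⟩ := e.surjective g
    rw [hSep]
    exact (hw.fin g).image _
  · intro n
    refine ((hw.prop n).image e).subset ?_
    intro g hg
    obtain ⟨g, rfl⟩ := e.surjective g
    have hg' : (Sep ((fun A : Set G => (e '' A : Set G')) '' 𝓗) (e g)).ncard ≤ n := hg
    rw [hSep, ncard_image_of_injective _ himg] at hg'
    exact ⟨g, hg', rfl⟩
  · intro g hg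
    obtain ⟨g, rfl⟩ := e.surjective g
    rw [hSep]
    refine (hne g ?_).image _
    rintro rfl
    exact hg (map_one e)
  · rintro _ ⟨A, hA, rfl⟩
    change (Fr (e '' S) (e '' A)).Finite ∧ (Fr (e '' S) (e '' A)).Nonempty
    rw [hFr]
    exact ⟨(hF A hA).1.image _, (hF A hA).2.image _⟩

end LibCW70
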