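import Pool.Agent.LibCW70.Main2
import Pool.Agent.LibCW70.T1

set_option autoImplicit false

/-! # Board CW70, final statements (helper70) -/

namespace LibCW70

open Set Metric Topology Filter LibCE75
open scoped NNReal

/-- Graph products of finite groups, Coxeter groups, and infinite cyclic groups at covered
vertices. -/
theorem main_graphProducts (G : Type) [Group G] (H : Subgroup G) [H.FiniteIndex]
    (V : Type) [Finite V] (Γ : SimpleGraph V) (P : V → Type) [∀ v, Group (P v)]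
    (hP : ∀ v, Finite (P v) ∨
      (∃ (B : Type) (_ : Finite B) (M : CoxeterMatrix B), Nonempty (CoxeterSystem M (P v))) ∨
      (Nonempty (P v ≃* Multiplicative ℤ) ∧
        ∃ u, u ≠ v ∧ ¬ Γ.Adj v u ∧ (∀ w, Γ.Adj v w → Γ.Adj u w) ∧ Nontrivial (P u)))
    (hH : Nonempty (↥H ≃* GP Γ P)) : CEUnique G := by
  obtain ⟨e⟩ := hH
  refine ceUnique_of_finiteIndex H (ceUnique_congr e (ceUnique_of_centWalls ?_))
  refine (strongWalls_gp_cov Γ P fun v => ?_).centWalls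
  rcases hP v with h | ⟨B, _, M, ⟨cs⟩⟩ | ⟨⟨f⟩, u, h1, h2, h3, h4⟩
  · haveI := h
    exact Or.inl (strongWalls_of_finite (P v))
  · exact Or.inl (strongWalls_coxeter cs)
  · exact Or.inr ⟨finWalls_congr f.symm finWalls_int, u, ⟨h1, h2, h3⟩, h4⟩

/-- The wall criterion. -/
theorem main_criterion (G : Type) [Group G] (H : Subgroup G) [H.FiniteIndex] (S : Set ↥H)
    (𝓗 : Set (Set ↥H)) (hw : WallG S 𝓗) (X₁ X₂ : Type) [MetricSpace X₁] [MetricSpace X₂]
    [MulAction G X₁] [MulAction G X₂] (hX₁ : IsCAT0 X₁) (hX₂ : IsCAT0 X₂)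
    (hG₁ : Geometric G X₁) (hG₂ : Geometric G X₂) (x₁ : X₁) (x₂ : X₂)
    (hF : ∀ A ∈ 𝓗, (∃ F : Set ↥H, NearCent F (Fr S A)) ∨
      (CoarseCvx x₁ (Fr S A) ∧ CoarseCvx x₂ (Fr S A))) :
    CellLikeEquivalent (Ray X₁ x₁) (Ray X₂ x₂) := by
  have g₁ := geometric_subgroup hG₁ H
  have g₂ := geometric_subgroup hG₂ H
  refine criterion hw hX₁ hX₂ g₁ g₂ x₁ x₂ ?_ ?_
  · intro A hA
    rcases hF A hA with ⟨F, hFf, K, hK, h1, h2⟩ | h
    · exact (coarseCvx_centralizer hX₁ g₁ x₁ hFf).of_near g₁ hK h1 h2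
    · exact h.1
  · intro A hA
    rcases hF A hA with ⟨F, hFf, K, hK, h1, h2⟩ | h
    · exact (coarseCvx_centralizer hX₂ g₂ x₂ hFf).of_near g₂ hK h1 h2
    · exact h.2

end LibCW70
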