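import Pool.Agent.LibCW70.B0

set_option autoImplicit false

/-!
# Board CW70, row P1 (MEDIUM).  MP_6fa1a0_gt (cell-like equivalence of CAT(0) boundaries)
Chair: helper70.  Deliver the whole file as CW70_P1.lean (team-store put), statements unchanged,
auxiliary lemmas private (names starting with P1_), no sorry, no axiom, no straight double quotation mark.

Basic facts on graph products: relations, universal property, generation, induction.
PLAN. GP Γ G = CoprodI G / normalClosure (gpRel Γ G), GP.of v = mk comp CoprodI.of. of_comm: the commutator of of g, of k is in the normal closure (QuotientGroup.eq, Subgroup.subset_normalClosure), so trivial in the quotient. exists_lift: Monoid.CoprodI.lift f : CoprodI G →* H kills gpRel (hf), so the normal closure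
(Subgroup.normalClosure_le_normal with the kernel), QuotientGroup.lift; value on of by Monoid.CoprodI.lift_of. gp_induction: w = mk x, Monoid.CoprodI induction (Monoid.CoprodI.induction_left or induction_on: one, of, mul): apply it on the statement for all w, P w -> P (w * mk x).
closure_gen: by gp_induction every w is in the closure: of v s is in the closure for every s : G v since the comap of the closure under GP.of v contains S v (Submonoid.closure_le, Submonoid.map / comap).
-/

namespace LibCW70

open Set Filter LibCE75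

theorem of_comm {V : Type} {Γ : SimpleGraph V} {G : V → Type} [∀ v, Group (G v)] {u v : V} (h : Γ.Adj u v)
    (g : G u) (k : G v) :
    GP.of Γ G u g * GP.of Γ G v k = GP.of Γ G v k * GP.of Γ G u g := by
  have h1 : (Monoid.CoprodI.of g * Monoid.CoprodI.of k * (Monoid.CoprodI.of g)⁻¹ *
      (Monoid.CoprodI.of k)⁻¹ : Monoid.CoprodI G) ∈ Subgroup.normalClosure (gpRel Γ G) :=
    Subgroup.subset_normalClosure ⟨u, v, g, k, h, rfl⟩
  have h2 : QuotientGroup.mk' (Subgroup.normalClosure (gpRel Γ G))
      (Monoid.CoprodI.of g * Monoid.CoprodI.of k * (Monoid.CoprodI.of g)⁻¹ *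
      (Monoid.CoprodI.of k)⁻¹ : Monoid.CoprodI G) = 1 :=
    (QuotientGroup.eq_one_iff _).2 h1
  rw [map_mul, map_mul, map_mul, map_inv, map_inv] at h2
  have h3 := mul_inv_eq_one.1 h2
  exact mul_inv_eq_iff_eq_mul.1 h3

theorem exists_lift {V : Type} {Γ : SimpleGraph V} {G : V → Type} [∀ v, Group (G v)] {H : Type} [Group H]
    (f : ∀ v, G v →* H) (hf : ∀ u v, Γ.Adj u v → ∀ (g : G u) (k : G v), f u g * f v k = f v k * f u g) :
    ∃ F : GP Γ G →* H, ∀ (v : V) (g : G v), F (GP.of Γ G v g) = f v g := by
  have hk : Subgroup.normalClosure (gpRel Γ G) ≤ (Monoid.CoprodI.lift f).ker := by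
    refine Subgroup.normalClosure_le_normal ?_
    rintro x ⟨u, v, g, k, h, rfl⟩
    show Monoid.CoprodI.lift f _ = 1
    rw [map_mul, map_mul, map_mul, map_inv, map_inv, Monoid.CoprodI.lift_of,
      Monoid.CoprodI.lift_of, hf u v h g k]
    group
  refine ⟨QuotientGroup.lift (Subgroup.normalClosure (gpRel Γ G)) (Monoid.CoprodI.lift f) hk,
    fun v g => ?_⟩
  show QuotientGroup.lift (Subgroup.normalClosure (gpRel Γ G)) (Monoid.CoprodI.lift f) hk
    (QuotientGroup.mk' _ (Monoid.CoprodI.of g)) = f v g
  rw [QuotientGroup.mk'_apply, QuotientGroup.lift_mk, Monoid.CoprodI.lift_of]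

theorem gp_induction {V : Type} {Γ : SimpleGraph V} {G : V → Type} [∀ v, Group (G v)] {P : GP Γ G → Prop}
    (one : P 1) (mul : ∀ (w : GP Γ G) (v : V) (s : G v), P w → P (w * GP.of Γ G v s))
    (w : GP Γ G) : P w := by
  let q : Monoid.CoprodI G →* GP Γ G :=
    QuotientGroup.mk' (Subgroup.normalClosure (gpRel Γ G))
  have hq : ∀ (v : V) (s : G v), q (Monoid.CoprodI.of s) = GP.of Γ G v s := fun _ _ => rfl
  have hqs : Function.Surjective q :=
    QuotientGroup.mk'_surjective (Subgroup.normalClosure (gpRel Γ G))
  have key : ∀ (x : Monoid.CoprodI G) (w : GP Γ G), P w → P (w * q x) := by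
    intro x
    induction x using Monoid.CoprodI.induction_on with
    | one =>
      intro w hw
      rw [map_one]
      rwa [mul_one]
    | of i m =>
      intro w hw
      rw [hq]
      exact mul w i m hw
    | mul x y hx hy =>
      intro w hw
      rw [map_mul, ← mul_assoc]
      exact hy _ (hx w hw)
  obtain ⟨x, hx⟩ := hqs w
  have h := key x 1 one
  rw [one_mul] at h
  rwa [hx] at h

theorem closure_gen {V : Type} (Γ : SimpleGraph V) (G : V → Type) [∀ v, Group (G v)]
    (S : ∀ v, Set (G v)) (hS : ∀ v, Submonoid.closure (S v) = ⊤) :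
    Submonoid.closure (gpGen Γ S) = ⊤ := by
  rw [eq_top_iff]
  intro w _
  refine gp_induction (P := fun w => w ∈ Submonoid.closure (gpGen Γ S)) ?_ ?_ w
  · exact Submonoid.one_mem _
  · intro w v s hw
    refine Submonoid.mul_mem _ hw ?_
    have h1 : Submonoid.closure (S v) ≤
        (Submonoid.closure (gpGen Γ S)).comap (GP.of Γ G v) := by
      rw [Submonoid.closure_le]
      intro t ht
      exact Submonoid.subset_closure ⟨v, t, ht, rfl⟩
    have h2 : s ∈ Submonoid.closure (S v) := by
      rw [hS v]; exact Submonoid.mem_top s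
    exact h1 h2

end LibCW70
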