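import Pool.Agent.LibCW70.P1

set_option autoImplicit false

/-!
# Board CW70, row P3 (MEDIUM).  MP_6fa1a0_gt (cell-like equivalence of CAT(0) boundaries)
Chair: helper70.  Deliver the whole file as CW70_P3.lean (team-store put), statements unchanged,
auxiliary lemmas private (names starting with P3_), no sorry, no axiom, no straight double quotation mark.

Multiplicativity of the projection, structure of the star subgroup, centralizers.
PLAN. proj_mul: gp_induction on w (right multiplication by syllables): w * of u t with u <> v: Proj.other for both; u = v (subst): g * w in St iff w in St (g in St), Proj.same / Proj.far. proj_of: Proj.same with w = 1. lk_comm: closure induction on l (Subgroup.closure_induction), of_comm.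
proj_lk: for l in Lk: p l = 1: closure induction: of u r with u adjacent to v: u <> v (Γ.ne_of_adj), Proj.other with w = 1; products and inverses by proj_mul (Lk <= St). st_decomp: closure induction on g in St for the statement: there are a : G v, l in Lk with g = of a * l; then p g = a * 1 by proj_mul.
mem_st_of_comm: if c is not in St then p (c * of s) = p c (Proj.far), but p (of s * c) = p (of s) * p c = s * p c (proj_mul), so s = 1.
-/

namespace LibCW70

open Set Filter LibCE75

theorem lk_le_st {V : Type} (Γ : SimpleGraph V) (G : V → Type) [∀ v, Group (G v)] (v : V) : Lk Γ G v ≤ St Γ G v := by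
  refine Subgroup.closure_mono ?_
  rintro x ⟨u, g, h, rfl⟩
  exact ⟨u, g, Or.inr h, rfl⟩

theorem of_mem_st {V : Type} (Γ : SimpleGraph V) (G : V → Type) [∀ v, Group (G v)] (v : V) (s : G v) : GP.of Γ G v s ∈ St Γ G v := by
  exact Subgroup.subset_closure ⟨v, s, Or.inl rfl, rfl⟩

theorem proj_of {V : Type} {Γ : SimpleGraph V} {G : V → Type} [∀ v, Group (G v)] {v : V} {p : GP Γ G → G v}
    (hp : Proj Γ G v p) (s : G v) : p (GP.of Γ G v s) = s := by
  have h := hp.same 1 s (one_mem _)
  rw [one_mul, hp.one, one_mul] at h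
  exact h

theorem proj_mul {V : Type} {Γ : SimpleGraph V} {G : V → Type} [∀ v, Group (G v)] {v : V} {p : GP Γ G → G v}
    (hp : Proj Γ G v p) {g : GP Γ G} (hg : g ∈ St Γ G v) (w : GP Γ G) :
    p (g * w) = p g * p w := by
  refine gp_induction (P := fun w => p (g * w) = p g * p w) ?_ ?_ w
  · rw [mul_one, hp.one, mul_one]
  · intro w u t hw
    rw [← mul_assoc]
    by_cases h : u = v
    · subst h
      by_cases hm : w ∈ St Γ G u
      · rw [hp.same _ t (mul_mem hg hm), hp.same _ t hm, hw, mul_assoc]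
      · have hm' : g * w ∉ St Γ G u := fun h' => hm ((Subgroup.mul_mem_cancel_left _ hg).1 h')
        rw [hp.far _ t hm', hp.far _ t hm, hw]
    · rw [hp.other _ u t h, hp.other _ u t h, hw]

theorem lk_comm {V : Type} {Γ : SimpleGraph V} {G : V → Type} [∀ v, Group (G v)] {v : V} {l : GP Γ G}
    (hl : l ∈ Lk Γ G v) (s : G v) : l * GP.of Γ G v s = GP.of Γ G v s * l := by
  refine Subgroup.closure_induction
    (p := fun l _ => l * GP.of Γ G v s = GP.of Γ G v s * l) ?_ ?_ ?_ ?_ hl
  · rintro x ⟨u, g, h, rfl⟩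
    exact of_comm h.symm g s
  · rw [one_mul, mul_one]
  · intro x y _ _ hx hy
    rw [mul_assoc, hy, ← mul_assoc, hx, mul_assoc]
  · intro x _ hx
    have h1 : x⁻¹ * (x * GP.of Γ G v s) * x⁻¹ = x⁻¹ * (GP.of Γ G v s * x) * x⁻¹ := by rw [hx]
    rw [inv_mul_cancel_left, mul_assoc, mul_inv_cancel_right] at h1
    exact h1.symm

theorem proj_lk {V : Type} {Γ : SimpleGraph V} {G : V → Type} [∀ v, Group (G v)] {v : V} {p : GP Γ G → G v}
    (hp : Proj Γ G v p) {l : GP Γ G} (hl : l ∈ Lk Γ G v) : p l = 1 := by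
  refine Subgroup.closure_induction (p := fun l _ => p l = 1) ?_ ?_ ?_ ?_ hl
  · rintro x ⟨u, g, h, rfl⟩
    have h1 := hp.other 1 u g (Γ.ne_of_adj h).symm
    rw [one_mul, hp.one] at h1
    exact h1
  · exact hp.one
  · intro x y hx _ hx1 hy1
    rw [proj_mul hp (lk_le_st Γ G v hx) y, hx1, hy1, one_mul]
  · intro x hx hx1
    have h1 := proj_mul hp (lk_le_st Γ G v hx) x⁻¹
    rw [mul_inv_cancel, hp.one, hx1, one_mul] at h1
    exact h1.symm

theorem st_decomp {V : Type} {Γ : SimpleGraph V} {G : V → Type} [∀ v, Group (G v)] {v : V} {p : GP Γ G → G v}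
    (hp : Proj Γ G v p) {g : GP Γ G} (hg : g ∈ St Γ G v) :
    (GP.of Γ G v (p g))⁻¹ * g ∈ Lk Γ G v := by
  have key : ∃ (a : G v) (l : GP Γ G), l ∈ Lk Γ G v ∧ g = GP.of Γ G v a * l := by
    refine Subgroup.closure_induction
      (p := fun g _ => ∃ (a : G v) (l : GP Γ G), l ∈ Lk Γ G v ∧ g = GP.of Γ G v a * l)
      ?_ ?_ ?_ ?_ hg
    · rintro x ⟨u, r, h, rfl⟩
      rcases h with h | h
      · subst h
        exact ⟨r, 1, one_mem _, by rw [mul_one]⟩
      · exact ⟨1, GP.of Γ G u r, Subgroup.subset_closure ⟨u, r, h, rfl⟩, by rw [map_one, one_mul]⟩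
    · exact ⟨1, 1, one_mem _, by rw [map_one, one_mul]⟩
    · rintro x y _ _ ⟨a, l, hl, rfl⟩ ⟨b, m, hm, rfl⟩
      refine ⟨a * b, l * m, mul_mem hl hm, ?_⟩
      calc GP.of Γ G v a * l * (GP.of Γ G v b * m)
          = GP.of Γ G v a * (l * GP.of Γ G v b) * m := by simp only [mul_assoc]
        _ = GP.of Γ G v a * (GP.of Γ G v b * l) * m := by rw [lk_comm hl b]
        _ = _ := by rw [map_mul]; simp only [mul_assoc]
    · rintro x _ ⟨a, l, hl, rfl⟩
      refine ⟨a⁻¹, l⁻¹, inv_mem hl, ?_⟩
      rw [mul_inv_rev, ← map_inv, lk_comm (inv_mem hl) a⁻¹]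
  obtain ⟨a, l, hl, rfl⟩ := key
  rw [proj_mul hp (of_mem_st Γ G v a) l, proj_of hp, proj_lk hp hl, mul_one, inv_mul_cancel_left]
  exact hl

theorem mem_st_of_comm {V : Type} {Γ : SimpleGraph V} {G : V → Type} [∀ v, Group (G v)] {v : V} {p : GP Γ G → G v}
    (hp : Proj Γ G v p) {s : G v} (hs : s ≠ 1) {c : GP Γ G}
    (hc : c * GP.of Γ G v s = GP.of Γ G v s * c) : c ∈ St Γ G v := by
  by_contra h
  have h1 := hp.far c s h
  rw [hc, proj_mul hp (of_mem_st Γ G v s) c, proj_of hp] at h1
  exact hs (mul_eq_right.1 h1)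

end LibCW70
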