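import Pool.Agent.LibCW70.P5

set_option autoImplicit false

/-!
# Board CW70, row P6.  MP_6fa1a0_gt (cell-like equivalence of CAT(0) boundaries)
Only finitely many half spaces of the graph product separate 1 from g.
-/

namespace LibCW70

open Set Filter LibCE75

theorem gp_fin {V : Type} {Γ : SimpleGraph V} {G : V → Type} [∀ v, Group (G v)]
    {S : ∀ v, Set (G v)} {𝓗 : ∀ v, Set (Set (G v))} (hw : ∀ v, WallG (S v) (𝓗 v))
    {p : ∀ v, GP Γ G → G v} (hp : ∀ v, Proj Γ G v (p v)) (g : GP Γ G) :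
    (Sep (gpFam p 𝓗) g).Finite := by
  refine gp_induction (P := fun w => (Sep (gpFam p 𝓗) w).Finite) ?_ ?_ g
  · refine Set.finite_empty.subset ?_
    rintro A ⟨_, hA⟩
    exact absurd Iff.rfl hA
  · intro w v s ih
    refine (ih.union (((hw v).fin s).image fun A' => tr w (p v ⁻¹' A'))).subset ?_
    rintro B ⟨hB, hsep⟩
    by_cases h1 : ((1 : GP Γ G) ∈ B ↔ w ∈ B)
    · right
      have h2 : ¬ (w ∈ B ↔ w * GP.of Γ G v s ∈ B) := fun h => hsep (h1.trans h)
      obtain ⟨x, u, A, hA, rfl⟩ := hB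
      by_cases huv : v = u
      · subst huv
        obtain ⟨h3, h4⟩ := (gp_sep (hp v) s A x w).1 h2
        refine ⟨tr (p v (x⁻¹ * w))⁻¹ A, ⟨(hw v).inv _ _ hA, ?_⟩, ?_⟩
        · rw [mem_tr, mem_tr, inv_inv, mul_one]
          exact h4
        · exact (gp_wall_eq (hp v) h3 A).symm
      · exact absurd (gp_not_sep (hp u) huv s A x w) h2
    · left
      exact ⟨hB, h1⟩

end LibCW70
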