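import Pool.Agent.LibCW70.P3

set_option autoImplicit false

/-!
# Board CW70, row P7 (MEDIUM).  MP_6fa1a0_gt (cell-like equivalence of CAT(0) boundaries)
Chair: helper70.  Deliver the whole file as CW70_P7.lean (team-store put), statements unchanged,
auxiliary lemmas private (names starting with P7_), no sorry, no axiom, no straight double quotation mark.

Shortest words cross each wall at most once.
PLAN. L = L₁ ++ ⟨v, a⟩ :: (L₂ ++ ⟨v, b⟩ :: L₃), h = gprod L₂. Suppose h in St v. By st_decomp h = of (p h) * l, l in Lk v (p from hp). Retraction: exists_lift with f u = GP.of u if Γ.Adj v u, and the trivial homomorphism otherwise (classical; commutation from of_comm) gives ρ : GP →* GP, ρ = id on Lk v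
(closure induction), ρ (of v a) = 1 (v not adjacent to itself), so ρ h = ρ l = l, and ρ (gprod L₂) = gprod (L₂.filter (Γ.Adj v)) (induction on the list; classical decidability), of length <= length L₂. So of a * h * of b = of a * of (p h) * l * of b = of (a * p h * b) * l (lk_comm), and
gprod L = gprod (L₁ ++ ⟨v, a * p h * b⟩ :: (L₂' ++ L₃)) with length smaller by at least 1: contradiction with the minimality. min_ne_one: delete the syllable.
-/

namespace LibCW70

open Set Filter LibCE75

private theorem P7_append {V : Type} {Γ : SimpleGraph V} {G : V → Type} [∀ v, Group (G v)]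
    (L L' : List (Σ v, G v)) : gprod Γ G (L ++ L') = gprod Γ G L * gprod Γ G L' := by
  unfold gprod
  rw [List.map_append, List.prod_append]

private theorem P7_cons {V : Type} {Γ : SimpleGraph V} {G : V → Type} [∀ v, Group (G v)]
    (x : Σ v, G v) (L : List (Σ v, G v)) :
    gprod Γ G (x :: L) = GP.of Γ G x.1 x.2 * gprod Γ G L := by
  unfold gprod
  rw [List.map_cons, List.prod_cons]

private theorem P7_retract {V : Type} (Γ : SimpleGraph V) (G : V → Type) [∀ v, Group (G v)] (v : V) :
    ∃ ρ : GP Γ G →* GP Γ G, (∀ (u : V) (g : G u), Γ.Adj v u → ρ (GP.of Γ G u g) = GP.of Γ G u g) ∧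
      ∀ (u : V) (g : G u), ¬ Γ.Adj v u → ρ (GP.of Γ G u g) = 1 := by
  classical
  obtain ⟨ρ, hρ⟩ := exists_lift (Γ := Γ) (G := G) (H := GP Γ G)
    (fun u => if Γ.Adj v u then GP.of Γ G u else 1) (by
      intro u w huw g k
      by_cases h1 : Γ.Adj v u
      · by_cases h2 : Γ.Adj v w
        · simp only [if_pos h1, if_pos h2]
          exact of_comm huw g k
        · simp only [if_neg h2, MonoidHom.one_apply, mul_one, one_mul]
      · simp only [if_neg h1, MonoidHom.one_apply, mul_one, one_mul])
  refine ⟨ρ, fun u g h => ?_, fun u g h => ?_⟩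
  · rw [hρ, if_pos h]
  · rw [hρ, if_neg h]
    rfl

theorem min_cross {V : Type} {Γ : SimpleGraph V} {G : V → Type} [∀ v, Group (G v)] {v : V} {p : GP Γ G → G v}
    (hp : Proj Γ G v p) (L₁ L₂ L₃ : List (Σ v, G v)) (a b : G v)
    (hmin : MinWord Γ G (L₁ ++ ⟨v, a⟩ :: (L₂ ++ ⟨v, b⟩ :: L₃))) :
    gprod Γ G L₂ ∉ St Γ G v := by
  classical
  intro hh
  obtain ⟨ρ, h1, h2⟩ := P7_retract Γ G v
  set h := gprod Γ G L₂ with hdef
  set l := (GP.of Γ G v (p h))⁻¹ * h with hl
  have hlk : l ∈ Lk Γ G v := st_decomp hp hh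
  have hhl : h = GP.of Γ G v (p h) * l := by
    rw [hl, mul_inv_cancel_left]
  clear_value l
  have hρl : ρ l = l := by
    have h3 : Lk Γ G v ≤ ρ.eqLocus (MonoidHom.id (GP Γ G)) := by
      unfold Lk
      rw [Subgroup.closure_le]
      rintro x ⟨u, g, hu, rfl⟩
      exact h1 u g hu
    exact h3 hlk
  have hρh : ρ h = l := by
    rw [hhl, map_mul, h2 v _ (Γ.irrefl), one_mul, hρl]
  have hfil : ∀ K : List (Σ v, G v), ρ (gprod Γ G K) =
      gprod Γ G (K.filter fun x => decide (Γ.Adj v x.1)) := by
    intro K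
    induction K with
    | nil => simp [gprod]
    | cons x K ih =>
      rw [P7_cons, map_mul, ih]
      by_cases hx : Γ.Adj v x.1
      · rw [List.filter_cons_of_pos (by simpa using hx), P7_cons, h1 _ _ hx]
      · rw [List.filter_cons_of_neg (by simpa using hx), h2 _ _ hx, one_mul]
  have h4 : l = gprod Γ G (L₂.filter fun x => decide (Γ.Adj v x.1)) := by
    rw [← hfil, ← hdef, hρh]
  have h5 := hmin (L₁ ++ ⟨v, a * p h * b⟩ :: ((L₂.filter fun x => decide (Γ.Adj v x.1)) ++ L₃)) (by
    rw [P7_append, P7_append, P7_cons, P7_cons, P7_append, P7_append, P7_cons, ← h4, ← hdef]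
    change gprod Γ G L₁ * (GP.of Γ G v (a * p h * b) * (l * gprod Γ G L₃)) =
      gprod Γ G L₁ * (GP.of Γ G v a * (h * (GP.of Γ G v b * gprod Γ G L₃)))
    rw [map_mul, map_mul]
    conv_rhs => rw [hhl]
    have h6 := lk_comm hlk b
    simp only [mul_assoc]
    rw [← mul_assoc l (GP.of Γ G v b), h6, mul_assoc])
  have h6 := List.length_filter_le (fun x : Σ v, G v => decide (Γ.Adj v x.1)) L₂
  simp only [List.length_append, List.length_cons] at h5
  omega

theorem min_ne_one {V : Type} {Γ : SimpleGraph V} {G : V → Type} [∀ v, Group (G v)] {v : V}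
    (L₁ L₂ : List (Σ v, G v)) (a : G v) (hmin : MinWord Γ G (L₁ ++ ⟨v, a⟩ :: L₂)) : a ≠ 1 := by
  rintro rfl
  have h := hmin (L₁ ++ L₂) (by
    rw [P7_append, P7_append, P7_cons]
    change _ = gprod Γ G L₁ * (GP.of Γ G v 1 * gprod Γ G L₂)
    rw [map_one, one_mul])
  simp only [List.length_append, List.length_cons] at h
  omega

end LibCW70
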