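import Pool.Agent.LibCW70.P7
import Pool.Agent.LibCW70.P5

set_option autoImplicit false

/-!
# Board CW70, row P8 (MEDIUM).  MP_6fa1a0_gt (cell-like equivalence of CAT(0) boundaries)
Chair: helper70.  Deliver the whole file as CW70_P8.lean (team-store put), statements unchanged,
auxiliary lemmas private (names starting with P8_), no sorry, no axiom, no straight double quotation mark.

A wall crossed by one syllable of a shortest word separates 1 from the product and is crossed only there.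
PLAN. B = tr (gprod L₁) (p v ⁻¹ A), w₁ = gprod L₁. gprod (L ++ L') = gprod L * gprod L' (List.map_append, prod_append). For a splitting L₁ ++ ⟨v,a⟩ :: L₂ = M₁ ++ ⟨u,c⟩ :: M₂ with M₁.length <> L₁.length: B does not separate gprod M₁ and gprod M₁ * of u c: if u <> v: gp_not_sep. If u = v: by gp_sep it would
give w₁⁻¹ gprod M₁ in St v. If M₁ is longer: M₁ = L₁ ++ ⟨v,a⟩ :: N (List.append_eq_append_iff), w₁⁻¹ gprod M₁ = of a * gprod N, so gprod N in St v, contradiction with min_cross. If M₁ is shorter: L₁ = M₁ ++ ⟨v,c⟩ :: N and w₁⁻¹ gprod M₁ = (of c * gprod N)⁻¹: the same. B separates w₁ and w₁ * of a: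
gp_sep with g⁻¹ w = 1, p 1 = 1 (Proj.one). So B separates 1 and gprod L: 1 and w₁ are on the same side (induction over the prefixes of L₁), w₁ and w₁ of a on different sides, and w₁ of a and gprod L on the same side (the same induction over L₂).
-/

namespace LibCW70

open Set Filter LibCE75

private theorem P8_append {V : Type} {Γ : SimpleGraph V} {G : V → Type} [∀ v, Group (G v)]
    (L L' : List (Σ v, G v)) : gprod Γ G (L ++ L') = gprod Γ G L * gprod Γ G L' := by
  simp [gprod, List.map_append, List.prod_append]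

private theorem P8_cons {V : Type} {Γ : SimpleGraph V} {G : V → Type} [∀ v, Group (G v)]
    (x : Σ v, G v) (L : List (Σ v, G v)) :
    gprod Γ G (x :: L) = GP.of Γ G x.1 x.2 * gprod Γ G L := by
  simp [gprod]

private theorem P8_nil {V : Type} {Γ : SimpleGraph V} {G : V → Type} [∀ v, Group (G v)] :
    gprod Γ G [] = 1 := by
  simp [gprod]

private theorem P8_second {V : Type} {Γ : SimpleGraph V} {G : V → Type} [∀ v, Group (G v)]
    {v : V} {p : GP Γ G → G v}
    (hp : Proj Γ G v p) (L₁ L₂ : List (Σ v, G v)) (a : G v)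
    (hmin : MinWord Γ G (L₁ ++ ⟨v, a⟩ :: L₂)) (A : Set (G v))
    (M₁ M₂ : List (Σ v, G v)) (u : V) (c : G u)
    (hM : M₁ ++ ⟨u, c⟩ :: M₂ = L₁ ++ ⟨v, a⟩ :: L₂) (hl : M₁.length ≠ L₁.length) :
          (gprod Γ G M₁ ∈ tr (gprod Γ G L₁) (p ⁻¹' A) ↔
            gprod Γ G M₁ * GP.of Γ G u c ∈ tr (gprod Γ G L₁) (p ⁻¹' A)) := by
  by_cases huv : u = v
  · subst huv
    by_contra hns
    have h1 := ((gp_sep hp c A (gprod Γ G L₁) (gprod Γ G M₁)).1 hns).1
    rcases List.append_eq_append_iff.1 hM with ⟨N, hN1, hN2⟩ | ⟨N, hN1, hN2⟩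
    · cases N with
      | nil =>
        apply hl
        rw [hN1, List.append_nil]
      | cons x N =>
        rw [List.cons_append] at hN2
        obtain ⟨hx, hN3⟩ := List.cons.inj hN2
        subst hx
        subst hN1
        rw [← hM, hN3] at hmin
        have h2 := min_cross hp M₁ N L₂ c a hmin
        apply h2
        rw [P8_append, P8_cons] at h1
        have h3 : (gprod Γ G M₁ * (GP.of Γ G u c * gprod Γ G N))⁻¹ * gprod Γ G M₁ =
            (GP.of Γ G u c * gprod Γ G N)⁻¹ := by group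
        have h1' : (GP.of Γ G u c * gprod Γ G N)⁻¹ ∈ St Γ G u := by
          rw [← h3]
          exact h1
        have h4 := (St Γ G u).inv_mem h1'
        rw [inv_inv] at h4
        exact ((St Γ G u).mul_mem_cancel_left (of_mem_st Γ G u c)).1 h4
    · cases N with
      | nil =>
        apply hl
        rw [hN1, List.append_nil]
      | cons x N =>
        rw [List.cons_append] at hN2
        obtain ⟨hx, hN3⟩ := List.cons.inj hN2
        subst hx
        subst hN1
        rw [hN3] at hmin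
        have h2 := min_cross hp L₁ N M₂ a c hmin
        apply h2
        rw [P8_append, P8_cons, inv_mul_cancel_left] at h1
        exact ((St Γ G u).mul_mem_cancel_left (of_mem_st Γ G u a)).1 h1
  · exact gp_not_sep hp huv c A _ _

theorem wall_once {V : Type} {Γ : SimpleGraph V} {G : V → Type} [∀ v, Group (G v)] {v : V} {p : GP Γ G → G v}
    (hp : Proj Γ G v p) (L₁ L₂ : List (Σ v, G v)) (a : G v)
    (hmin : MinWord Γ G (L₁ ++ ⟨v, a⟩ :: L₂)) (A : Set (G v)) (hA : ¬ ((1 : G v) ∈ A ↔ a ∈ A)) :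
    ¬ ((1 : GP Γ G) ∈ tr (gprod Γ G L₁) (p ⁻¹' A) ↔
        gprod Γ G (L₁ ++ ⟨v, a⟩ :: L₂) ∈ tr (gprod Γ G L₁) (p ⁻¹' A)) ∧
      ∀ (M₁ M₂ : List (Σ v, G v)) (u : V) (c : G u),
        M₁ ++ ⟨u, c⟩ :: M₂ = L₁ ++ ⟨v, a⟩ :: L₂ → M₁.length ≠ L₁.length →
          (gprod Γ G M₁ ∈ tr (gprod Γ G L₁) (p ⁻¹' A) ↔
            gprod Γ G M₁ * GP.of Γ G u c ∈ tr (gprod Γ G L₁) (p ⁻¹' A)) := by
  refine ⟨?_, fun M₁ M₂ u c hM hl => P8_second hp L₁ L₂ a hmin A M₁ M₂ u c hM hl⟩
  have hpre : ∀ M M' : List (Σ v, G v), L₁ = M ++ M' →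
      ((1 : GP Γ G) ∈ tr (gprod Γ G L₁) (p ⁻¹' A) ↔
        gprod Γ G M ∈ tr (gprod Γ G L₁) (p ⁻¹' A)) := by
    intro M
    induction M using List.reverseRecOn with
    | nil => intro M' _; rw [P8_nil]
    | append_singleton M x ih =>
      intro M' hM'
      have h1 := ih (x :: M') (by rw [hM', List.append_assoc]; rfl)
      have h2 := P8_second hp L₁ L₂ a hmin A M (M' ++ ⟨v, a⟩ :: L₂) x.1 x.2
        (by rw [hM']; simp) (by rw [hM']; simp)
      rw [P8_append, P8_cons, P8_nil, mul_one]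
      exact h1.trans h2
  have hsuf : ∀ M M' : List (Σ v, G v), L₂ = M ++ M' →
      (gprod Γ G L₁ * GP.of Γ G v a ∈ tr (gprod Γ G L₁) (p ⁻¹' A) ↔
        gprod Γ G (L₁ ++ ⟨v, a⟩ :: M) ∈ tr (gprod Γ G L₁) (p ⁻¹' A)) := by
    intro M
    induction M using List.reverseRecOn with
    | nil => intro M' _; rw [P8_append, P8_cons, P8_nil, mul_one]
    | append_singleton M x ih =>
      intro M' hM'
      have h1 := ih (x :: M') (by rw [hM', List.append_assoc]; rfl)
      have h2 := P8_second hp L₁ L₂ a hmin A (L₁ ++ ⟨v, a⟩ :: M) M' x.1 x.2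
        (by rw [hM']; simp) (by simp)
      have h3 : gprod Γ G (L₁ ++ ⟨v, a⟩ :: (M ++ [x])) =
          gprod Γ G (L₁ ++ ⟨v, a⟩ :: M) * GP.of Γ G x.1 x.2 := by
        rw [show L₁ ++ (⟨v, a⟩ : Σ v, G v) :: (M ++ [x]) = (L₁ ++ ⟨v, a⟩ :: M) ++ [x] by simp,
          P8_append (L₁ ++ ⟨v, a⟩ :: M) [x], P8_cons x [], P8_nil, mul_one]
      rw [h3]
      exact h1.trans h2
  intro hcon
  have e1 := hpre L₁ [] (by simp)
  have e2 := hsuf L₂ [] (by simp)
  apply hA
  have e3 : gprod Γ G L₁ ∈ tr (gprod Γ G L₁) (p ⁻¹' A) ↔ (1 : G v) ∈ A := by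
    rw [mem_tr, inv_mul_cancel, mem_preimage, hp.one]
  have e4 : gprod Γ G L₁ * GP.of Γ G v a ∈ tr (gprod Γ G L₁) (p ⁻¹' A) ↔ a ∈ A := by
    rw [mem_tr, inv_mul_cancel_left, mem_preimage, proj_of hp]
  rw [← e3, ← e4, ← e1, e2]
  exact hcon

end LibCW70
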