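import Pool.Agent.LibCW70.P8
import Pool.Agent.LibCW70.P6

set_option autoImplicit false

/-!
# Board CW70, row P9 (MEDIUM/LONG).  MP_6fa1a0_gt (cell-like equivalence of CAT(0) boundaries)
Chair: helper70.  Deliver the whole file as CW70_P9.lean (team-store put), statements unchanged,
auxiliary lemmas private (names starting with P9_), no sorry, no axiom, no straight double quotation mark.

Lower bounds for the number of separating half spaces in a graph product.
PLAN. Sep (gpFam p 𝓗) (gprod L) is finite (gp_fin). length_le: for each k < L.length write L = L.take k ++ L[k] :: L.drop (k+1), L[k] = ⟨v, a⟩, a <> 1 (min_ne_one), choose A_k in Sep (𝓗 v) a (hne) and B_k = tr (gprod (L.take k)) (p v ⁻¹ A_k): it is in Sep (wall_once). k |-> B_k is injective on Fin L.length: B_k separates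
gprod (take k) and gprod (take k) * of a (gp_sep with g⁻¹ w = 1, Proj.one), but B_m for m <> k does not (wall_once, second part). So L.length <= ncard (Set.ncard_le_ncard, ncard of the range of an injective map from Fin n). ncard_le: for the syllable ⟨v, a⟩ the map A |-> tr (gprod L₁) (p v ⁻¹ A) is injective
(tr_injective; p v is surjective by proj_of) from Sep (𝓗 v) a to Sep (gpFam) (wall_once): Set.ncard_le_ncard_of_injOn.
-/

namespace LibCW70

open Set Filter LibCE75

private theorem P9_split {α : Type} (L : List α) (k : Fin L.length) :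
    L.take k ++ L.get k :: L.drop (k + 1) = L := by
  rw [List.get_eq_getElem, ← List.drop_eq_getElem_cons, List.take_append_drop]

theorem length_le_ncard_gp {V : Type} {Γ : SimpleGraph V} {G : V → Type} [∀ v, Group (G v)]
    {S : ∀ v, Set (G v)} {𝓗 : ∀ v, Set (Set (G v))} (hw : ∀ v, WallG (S v) (𝓗 v))
    (hne : ∀ v, ∀ g : G v, g ≠ 1 → (Sep (𝓗 v) g).Nonempty)
    {p : ∀ v, GP Γ G → G v} (hp : ∀ v, Proj Γ G v (p v)) (L : List (Σ v, G v))
    (hmin : MinWord Γ G L) : L.length ≤ (Sep (gpFam p 𝓗) (gprod Γ G L)).ncard := by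
  have hsplit : ∀ k : Fin L.length,
      L.take k ++ (⟨(L.get k).1, (L.get k).2⟩ : Σ v, G v) :: L.drop (k + 1) = L :=
    fun k => P9_split L k
  have hA : ∀ k : Fin L.length, ∃ A, A ∈ Sep (𝓗 (L.get k).1) (L.get k).2 := by
    intro k
    apply hne
    have hm : MinWord Γ G
        (L.take k ++ (⟨(L.get k).1, (L.get k).2⟩ : Σ v, G v) :: L.drop (k + 1)) := by
      rw [hsplit k]
      exact hmin
    exact min_ne_one _ _ _ hm
  choose A hA using hA
  have hwo : ∀ k : Fin L.length,
      ¬ ((1 : GP Γ G) ∈ tr (gprod Γ G (L.take k)) (p (L.get k).1 ⁻¹' A k) ↔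
        gprod Γ G L ∈ tr (gprod Γ G (L.take k)) (p (L.get k).1 ⁻¹' A k)) ∧
      ∀ (M₁ M₂ : List (Σ v, G v)) (u : V) (c : G u),
        M₁ ++ ⟨u, c⟩ :: M₂ = L → M₁.length ≠ (L.take k).length →
          (gprod Γ G M₁ ∈ tr (gprod Γ G (L.take k)) (p (L.get k).1 ⁻¹' A k) ↔
            gprod Γ G M₁ * GP.of Γ G u c ∈
              tr (gprod Γ G (L.take k)) (p (L.get k).1 ⁻¹' A k)) := by
    intro k
    have hm : MinWord Γ G
        (L.take k ++ (⟨(L.get k).1, (L.get k).2⟩ : Σ v, G v) :: L.drop (k + 1)) := by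
      rw [hsplit k]
      exact hmin
    have h := wall_once (hp (L.get k).1) (L.take k) (L.drop (k + 1)) (L.get k).2 hm (A k)
      (hA k).2
    rw [hsplit k] at h
    exact h
  have hlen : ∀ k : Fin L.length, (L.take k).length = k := by
    intro k
    rw [List.length_take]
    exact min_eq_left k.2.le
  have h1 : (Set.univ : Set (Fin L.length)).ncard ≤ (Sep (gpFam p 𝓗) (gprod Γ G L)).ncard := by
    refine Set.ncard_le_ncard_of_injOn
      (fun k : Fin L.length => tr (gprod Γ G (L.take k)) (p (L.get k).1 ⁻¹' A k))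
      ?_ ?_ (gp_fin hw hp _)
    · intro k _
      exact ⟨⟨gprod Γ G (L.take k), (L.get k).1, A k, (hA k).1, rfl⟩, (hwo k).1⟩
    · intro k _ m _ hkm
      by_contra hne'
      have hkm' : tr (gprod Γ G (L.take k)) (p (L.get k).1 ⁻¹' A k) =
        tr (gprod Γ G (L.take m)) (p (L.get m).1 ⁻¹' A m) := hkm
      have h2 := (hwo m).2 (L.take k) (L.drop (k + 1)) (L.get k).1 (L.get k).2 (hsplit k) (by
        rw [hlen k, hlen m]
        intro h
        exact hne' (Fin.ext h))
      rw [← hkm'] at h2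
      have h3 : ¬ (gprod Γ G (L.take k) ∈ tr (gprod Γ G (L.take k)) (p (L.get k).1 ⁻¹' A k) ↔
          gprod Γ G (L.take k) * GP.of Γ G (L.get k).1 (L.get k).2 ∈
            tr (gprod Γ G (L.take k)) (p (L.get k).1 ⁻¹' A k)) := by
        rw [gp_sep (hp (L.get k).1)]
        rw [inv_mul_cancel]
        refine ⟨Subgroup.one_mem _, ?_⟩
        rw [(hp (L.get k).1).one, one_mul]
        exact (hA k).2
      exact h3 h2
  rwa [Set.ncard_univ, Nat.card_eq_fintype_card, Fintype.card_fin] at h1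

theorem ncard_le_ncard_gp {V : Type} {Γ : SimpleGraph V} {G : V → Type} [∀ v, Group (G v)]
    {S : ∀ v, Set (G v)} {𝓗 : ∀ v, Set (Set (G v))} (hw : ∀ v, WallG (S v) (𝓗 v))
    {p : ∀ v, GP Γ G → G v} (hp : ∀ v, Proj Γ G v (p v)) (L : List (Σ v, G v))
    (hmin : MinWord Γ G L) (v : V) (a : G v) (ha : (⟨v, a⟩ : Σ v, G v) ∈ L) :
    (Sep (𝓗 v) a).ncard ≤ (Sep (gpFam p 𝓗) (gprod Γ G L)).ncard := by
  obtain ⟨L₁, L₂, rfl⟩ := List.append_of_mem ha
  refine Set.ncard_le_ncard_of_injOn (fun A : Set (G v) => tr (gprod Γ G L₁) (p v ⁻¹' A))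
    ?_ ?_ (gp_fin hw hp _)
  · intro A hA
    exact ⟨⟨gprod Γ G L₁, v, A, hA.1, rfl⟩,
      (wall_once (hp v) L₁ L₂ a hmin A hA.2).1⟩
  · intro A _ B _ hAB
    have h1 : p v ⁻¹' A = p v ⁻¹' B := tr_injective _ hAB
    exact (Set.preimage_injective.mpr (fun s => ⟨_, proj_of (hp v) s⟩)) h1

end LibCW70
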